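import Pool.Agent.SAIL.ERG.Targets

/-!
# SAIL, part G: a bounded number of elements of `SL(3,Z)` bring a lattice into `KK R`
-/

open MeasureTheory Set Filter Topology

namespace SAIL
namespace PFIN

/-- the adjugate is bounded by twice the square of the norm -/
lemma adj_le (N : M3) : ‖N.adjugate‖ ≤ 2 * ‖N‖ ^ 2 := by
  rw [norm_le_iff3 (by positivity)]
  have key : ∀ a b c d : ℝ, |a| ≤ ‖N‖ → |b| ≤ ‖N‖ → |c| ≤ ‖N‖ → |d| ≤ ‖N‖ →
      |a * b - c * d| ≤ 2 * ‖N‖ ^ 2 := by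
    intro a b c d ha hb hc hd
    have h1 : |a * b| ≤ ‖N‖ * ‖N‖ := by
      rw [abs_mul]
      exact mul_le_mul ha hb (abs_nonneg _) (norm_nonneg _)
    have h2 : |c * d| ≤ ‖N‖ * ‖N‖ := by
      rw [abs_mul]
      exact mul_le_mul hc hd (abs_nonneg _) (norm_nonneg _)
    have h3 := abs_sub (a * b) (c * d)
    nlinarith [h1, h2, h3]
  have key' : ∀ a b c d : ℝ, |a| ≤ ‖N‖ → |b| ≤ ‖N‖ → |c| ≤ ‖N‖ → |d| ≤ ‖N‖ →
      |-(a * b) + c * d| ≤ 2 * ‖N‖ ^ 2 := by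
    intro a b c d ha hb hc hd
    have h := key c d a b hc hd ha hb
    have e : -(a * b) + c * d = c * d - a * b := by ring
    rw [e]; exact h
  have he := entry_le_norm N
  intro i j
  rw [Matrix.adjugate_fin_three]
  fin_cases i <;> fin_cases j <;> simp <;>
    first
      | exact key _ _ _ _ (he _ _) (he _ _) (he _ _) (he _ _)
      | exact key' _ _ _ _ (he _ _) (he _ _) (he _ _) (he _ _)

/-- two points of `KK R` in the same orbit differ by a bounded element -/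
lemma ic_le {R : ℝ} {N : M3} {δ : GZ} (hN : N ∈ KK R) (hN' : N * ic δ ∈ KK R) :
    ‖ic δ‖ ≤ 6 * R := by
  obtain ⟨hd, h1⟩ := hN
  obtain ⟨_, h2⟩ := hN'
  rw [det_mul_ic] at h2
  have hR : 0 ≤ R := by
    by_contra hR
    have : R * N.det < 0 := mul_neg_of_neg_of_pos (not_le.mp hR) hd
    have h3 : 0 ≤ ‖N‖ ^ 3 := by positivity
    linarith
  have e1 : N.adjugate * (N * ic δ) = N.det • ic δ := by
    rw [← Matrix.mul_assoc, Matrix.adjugate_mul, Matrix.smul_mul, Matrix.one_mul]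
  have e2 : N.det * ‖ic δ‖ ≤ 6 * (‖N‖ ^ 2 * ‖N * ic δ‖) := by
    have h3 : ‖N.det • ic δ‖ = N.det * ‖ic δ‖ := by
      rw [norm_smul, Real.norm_eq_abs, abs_of_pos hd]
    rw [← h3, ← e1]
    calc ‖N.adjugate * (N * ic δ)‖ ≤ 3 * ‖N.adjugate‖ * ‖N * ic δ‖ := norm_mul3 _ _
      _ ≤ 3 * (2 * ‖N‖ ^ 2) * ‖N * ic δ‖ := by
          have := adj_le N
          gcongr
      _ = 6 * (‖N‖ ^ 2 * ‖N * ic δ‖) := by ring
  have e3 : (N.det * ‖ic δ‖) ^ 3 ≤ (6 * R * N.det) ^ 3 := by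
    calc (N.det * ‖ic δ‖) ^ 3 ≤ (6 * (‖N‖ ^ 2 * ‖N * ic δ‖)) ^ 3 := by gcongr
      _ = 216 * ((‖N‖ ^ 3) ^ 2 * ‖N * ic δ‖ ^ 3) := by ring
      _ ≤ 216 * ((R * N.det) ^ 2 * (R * N.det)) := by gcongr
      _ = (6 * R * N.det) ^ 3 := by ring
  have e4 : N.det * ‖ic δ‖ ≤ 6 * R * N.det := by
    refine le_of_pow_le_pow_left₀ (n := 3) (by norm_num) (by positivity) e3
  have e5 : ‖ic δ‖ * N.det ≤ 6 * R * N.det := by linarith
  exact le_of_mul_le_mul_right e5 hd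

/-- finitely many elements of bounded norm -/
lemma fin_ball (B : ℝ) : {δ : GZ | ‖ic δ‖ ≤ B}.Finite := by
  have h1 : (Set.univ.pi (fun _ : Fin 3 => Set.univ.pi (fun _ : Fin 3 =>
      Set.Icc (-⌈B⌉) ⌈B⌉)) : Set (Fin 3 → Fin 3 → ℤ)).Finite :=
    Set.Finite.pi fun _ => Set.Finite.pi fun _ => Set.finite_Icc _ _
  have h2 : Function.Injective (fun δ : GZ => (fun i j => (δ : Matrix (Fin 3) (Fin 3) ℤ) i j :
      Fin 3 → Fin 3 → ℤ)) := by
    intro a b hab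
    apply Subtype.ext
    exact hab
  refine (h1.preimage (h2.injOn)).subset ?_
  intro δ hδ
  simp only [Set.mem_preimage, Set.mem_pi, Set.mem_univ, forall_const, Set.mem_Icc]
  intro i j
  have h3 : |ic δ i j| ≤ B := (entry_le_norm _ i j).trans hδ
  have h4 : ic δ i j = (((δ : Matrix (Fin 3) (Fin 3) ℤ) i j : ℤ) : ℝ) := rfl
  rw [h4, abs_le] at h3
  have h5 : B ≤ (⌈B⌉ : ℝ) := Int.le_ceil B
  constructor
  · have : ((-⌈B⌉ : ℤ) : ℝ) ≤ (((δ : Matrix (Fin 3) (Fin 3) ℤ) i j : ℤ) : ℝ) := by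
      push_cast; linarith
    exact_mod_cast this
  · have : (((δ : Matrix (Fin 3) (Fin 3) ℤ) i j : ℤ) : ℝ) ≤ ((⌈B⌉ : ℤ) : ℝ) := by linarith
    exact_mod_cast this

end PFIN

/-- a bounded number of `γ` for each lattice -/
theorem p_FIN : T_FIN := by
  intro R
  refine ⟨{δ : GZ | ‖ic δ‖ ≤ 6 * R}.ncard, ?_⟩
  intro M _
  have hfin := PFIN.fin_ball (6 * R)
  rcases Set.eq_empty_or_nonempty {γ : GZ | M * ic γ ∈ KK R} with h0 | ⟨γ₀, h0⟩
  · rw [h0]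
    exact ⟨Set.finite_empty, by simp⟩
  · have hmap : ∀ γ ∈ {γ : GZ | M * ic γ ∈ KK R}, γ₀⁻¹ * γ ∈ {δ : GZ | ‖ic δ‖ ≤ 6 * R} := by
      intro γ hγ
      have e : (M * ic γ₀) * ic (γ₀⁻¹ * γ) = M * ic γ := by
        rw [ic_mul, Matrix.mul_assoc, ← Matrix.mul_assoc (ic γ₀), ic_mul_inv, Matrix.one_mul]
      refine PFIN.ic_le (N := M * ic γ₀) h0 ?_
      rw [e]; exact hγ
    have hinj : Set.InjOn (fun γ : GZ => γ₀⁻¹ * γ) {γ : GZ | M * ic γ ∈ KK R} :=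
      fun a _ b _ hab => mul_left_cancel hab
    exact ⟨Set.Finite.of_injOn hmap hinj hfin, Set.ncard_le_ncard_of_injOn _ hmap hinj hfin⟩

end SAIL
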