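import Pool.Agent.SAIL.ERG.Targets

/-!
# SAIL, part G: integrability and unfolding for real functions (target T_INT)
-/

open MeasureTheory Set Filter Topology

namespace SAIL

namespace INT_

/-- a box -/
def Bx (ρ : ℝ) : Set M3 := {M | ∀ i j, |M i j| ≤ ρ}

theorem measurableSet_Bx (ρ : ℝ) : MeasurableSet (Bx ρ) := by
  have h1 : Bx ρ = ⋂ i, ⋂ j, {M : M3 | |M i j| ≤ ρ} := by
    ext M
    simp [Bx]
  rw [h1]
  refine MeasurableSet.iInter fun i => MeasurableSet.iInter fun j => ?_
  have h2 : Measurable fun M : M3 => |M i j| :=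
    (continuous_abs.comp (continuous_id.matrix_elem i j)).measurable
  exact measurableSet_le h2 measurable_const

theorem volume_Bx {ρ : ℝ} (hρ : 0 ≤ ρ) : volume (Bx ρ) < ⊤ := by
  have h1 : (volume : Measure (Fin 3 → Fin 3 → ℝ)) (Metric.closedBall 0 ρ) < ⊤ :=
    measure_closedBall_lt_top
  refine lt_of_le_of_lt ?_ h1
  refine measure_mono (μ := (volume : Measure (Fin 3 → Fin 3 → ℝ))) fun M hM => ?_
  rw [mem_closedBall_zero_iff, pi_norm_le_iff_of_nonneg hρ]
  intro i
  rw [pi_norm_le_iff_of_nonneg hρ]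
  intro j
  exact hM i j

theorem mem_Bx_of_norm {ρ : ℝ} {M : M3} (h : ‖M‖ ≤ ρ) : M ∈ Bx ρ := fun i j =>
  (entry_le_norm M i j).trans h

/-- the part of `KK R` in the cone is bounded -/
theorem bounded {R : ℝ} {M : M3} (h1 : M ∈ Co) (h2 : M ∈ KK R) : ‖M‖ ≤ max R 1 := by
  by_contra hc
  rw [not_le, max_lt_iff] at hc
  have h3 : 0 < M.det := h1.1
  have h4 : M.det ≤ 1 := h1.2
  have h5 : ‖M‖ ^ 3 ≤ R * M.det := h2.2
  have h6 : (0 : ℝ) < ‖M‖ := by linarith
  have h7 : 0 < R := by
    by_contra hR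
    have : R * M.det ≤ 0 := mul_nonpos_of_nonpos_of_nonneg (not_lt.1 hR) h3.le
    have := pow_pos h6 3
    linarith
  have h8 : R * M.det ≤ R := mul_le_of_le_one_right h7.le h4
  have h9 : ‖M‖ ≤ ‖M‖ ^ 3 := le_self_pow₀ hc.2.le (by norm_num)
  linarith

theorem integrableOn_bdd {R B : ℝ} {ψ : M3 → ℝ} (hm : ContinuousOn ψ Om)
    (hs : ∀ M, ψ M ≠ 0 → M ∈ KK R) (hB : ∀ M, |ψ M| ≤ B) : IntegrableOn ψ Co := by
  rw [← integrable_indicator_iff measurableSet_Co]
  have h1 : Co.indicator ψ = (Co ∩ Bx (max R 1)).indicator ψ := by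
    funext M
    by_cases h2 : M ∈ Co
    · by_cases h3 : M ∈ Bx (max R 1)
      · have h4 : M ∈ Co ∩ Bx (max R 1) := ⟨h2, h3⟩
        rw [indicator_of_mem h2, indicator_of_mem h4]
      · rw [indicator_of_mem h2, indicator_of_notMem fun h => h3 h.2]
        by_contra h4
        exact h3 (mem_Bx_of_norm (bounded h2 (hs M h4)))
    · rw [indicator_of_notMem h2, indicator_of_notMem fun h => h2 h.1]
  have h5 : MeasurableSet (Co ∩ Bx (max R 1)) := measurableSet_Co.inter (measurableSet_Bx _)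
  rw [h1, integrable_indicator_iff h5]
  have h6 : volume (Co ∩ Bx (max R 1)) < ⊤ :=
    (measure_mono inter_subset_right).trans_lt (volume_Bx (zero_le_one.trans (le_max_right _ _)))
  have _ : IsFiniteMeasure (volume.restrict (Co ∩ Bx (max R 1))) :=
    ⟨by rw [Measure.restrict_apply MeasurableSet.univ, univ_inter]; exact h6⟩
  refine Integrable.of_bound (C := B) ?_ (Eventually.of_forall fun M => hB M)
  exact (hm.mono (inter_subset_left.trans Co_subset_Om)).aestronglyMeasurable h5

/-- the unfolding map -/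
noncomputable def Ph (x : M3 × GZ) : M3 := x.1 * ic x.2

/-- unfolding for an integrable function -/
theorem unfold_int (h1 : T_UNF) {s : Set M3} (hs : FD s) {h : M3 → ℝ} (hh : IntegrableOn h Co)
    (hf : ∀ M ∈ Om, {γ : GZ | h (M * ic γ) ≠ 0}.Finite) :
    ∫ M in s, PS h M = ∫ M in Co, h M := by
  let _ : MeasurableSpace GZ := ⊤
  have _ : DiscreteMeasurableSpace GZ := ⟨fun _ => trivial⟩
  have hP : Measurable Ph := measurable_from_prod_countable_left fun γ => measurable_rmul (ic γ)
  set ν : Measure (M3 × GZ) := (volume.restrict s).prod Measure.count with hν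
  have hmap : Measure.map Ph ν = volume.restrict Co := by
    refine Measure.ext_of_lintegral _ fun f hfm => ?_
    have h0 : ∫⁻ x, f (Ph x) ∂ν = ∫⁻ M in s, ∫⁻ γ, f (M * ic γ) ∂Measure.count := by
      rw [hν]
      exact lintegral_prod (fun x => f (Ph x)) (hfm.comp hP).aemeasurable
    rw [lintegral_map hfm hP, h0]
    have h2 := h1 s hs (fun _ => 1) f measurable_const hfm (fun _ _ => rfl)
    simp only [one_mul] at h2
    rw [← h2]
    refine lintegral_congr fun M => ?_
    rw [lintegral_count]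
  have hi : Integrable h (Measure.map Ph ν) := by
    rw [hmap]
    exact hh
  have hi2 : Integrable (h ∘ Ph) ν := (integrable_map_measure hi.1 hP.aemeasurable).1 hi
  have h3 : ∫ M in Co, h M = ∫ x, h (Ph x) ∂ν := by
    rw [← hmap, integral_map hP.aemeasurable hi.1]
  have h7 : ∫ x, h (Ph x) ∂ν = ∫ M in s, ∫ γ, h (M * ic γ) ∂Measure.count :=
    integral_prod (fun x => h (Ph x)) hi2
  rw [h3, h7]
  refine setIntegral_congr_fun hs.meas fun M hM => ?_
  have hMO : M ∈ Om := Co_subset_Om (hs.sub hM)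
  have h4 : (fun γ : GZ => h (M * ic γ)).support.Finite := hf M hMO
  have h5 : Summable fun γ : GZ => h (M * ic γ) := summable_of_hasFiniteSupport h4
  have h6 : Integrable (fun γ : GZ => h (M * ic γ)) Measure.count :=
    integrable_count_iff.2 h5.norm
  change PS h M = ∫ γ, h (M * ic γ) ∂Measure.count
  rw [integral_countable h6]
  unfold PS
  refine tsum_congr fun γ => ?_
  simp [Measure.real]

end INT_

open INT_

theorem p_INT (h1 : T_UNF) (h2 : T_FIN) (h3 : T_CSF) : T_INT := by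
  intro s hs R ψ hψ
  obtain ⟨⟨B, hB⟩, -⟩ := h3 R ψ hψ
  have hi := integrableOn_bdd hψ.cont hψ.supp hB
  refine ⟨hi, fun F hF hFc hFB => ?_⟩
  obtain ⟨B', hB'⟩ := hFB
  have hi2 : IntegrableOn (fun M => F M * ψ M) Co := by
    refine Integrable.bdd_mul (c := B') hi ?_ (Eventually.of_forall fun M => hB' M)
    exact (hFc.mono Co_subset_Om).aestronglyMeasurable measurableSet_Co
  have hfin : ∀ M ∈ Om, {γ : GZ | F (M * ic γ) * ψ (M * ic γ) ≠ 0}.Finite := by
    intro M hM
    obtain ⟨N, hN⟩ := h2 R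
    refine (hN M hM).1.subset fun γ hγ => ?_
    exact hψ.supp _ (right_ne_zero_of_mul hγ)
  have h4 := unfold_int h1 hs hi2 hfin
  rw [← h4]
  refine setIntegral_congr_fun hs.meas fun M _ => ?_
  simp only [PS]
  rw [← tsum_mul_left]
  refine tsum_congr fun γ => ?_
  rw [hF γ M]

end SAIL
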