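import Pool.Agent.SAIL.ERG.Base

/-!
# SAIL, part G: targets (statements only; proofs in the blueprint `Blueprint.md`)
-/

open MeasureTheory Set Filter Topology

namespace SAIL

/-! ## G-A: linear maps and Lebesgue measure -/

/-- left multiplication by an invertible matrix scales volume by `|det|^3` -/
def T_LMUL : Prop := ∀ g : M3, g.det ≠ 0 → ∀ E : Set M3,
  volume ((fun M : M3 => g * M) ⁻¹' E) = ENNReal.ofReal (|g.det|⁻¹ ^ 3) * volume E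

/-- right multiplication by an invertible matrix scales volume by `|det|^3` -/
def T_RMUL : Prop := ∀ g : M3, g.det ≠ 0 → ∀ E : Set M3,
  volume ((fun M : M3 => M * g) ⁻¹' E) = ENNReal.ofReal (|g.det|⁻¹ ^ 3) * volume E

/-- transposition preserves volume -/
def T_TR : Prop := MeasurePreserving (fun M : M3 => M.transpose) volume volume

/-! ## G-B: fundamental domain, unfolding -/

/-- free and properly discontinuous -/
def T_NBHD : Prop := ∀ M ∈ Om, ∃ U : Set M3, IsOpen U ∧ M ∈ U ∧ U ⊆ Om ∧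
  ∀ γ : GZ, ∀ N ∈ U, N * ic γ ∈ U → γ = 1

def T_FD : Prop := ∃ s : Set M3, FD s

/-- unfolding for nonnegative functions -/
def T_UNF : Prop := ∀ s : Set M3, FD s → ∀ F ψ : M3 → ENNReal, Measurable F → Measurable ψ →
  (∀ (γ : GZ) (M : M3), F (M * ic γ) = F M) →
  ∫⁻ M in s, F M * ∑' γ : GZ, ψ (M * ic γ) = ∫⁻ M in Co, F M * ψ M

/-- two fundamental domains have the same invariant measure; form used for left translations -/
def T_LINV : Prop := ∀ s : Set M3, FD s → ∀ g : M3, g.det = 1 → ∀ E : Set M3, MeasurableSet E →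
  (∀ (γ : GZ) (M : M3), M * ic γ ∈ E ↔ M ∈ E) →
  volume (s ∩ (fun M : M3 => g * M) ⁻¹' E) = volume (s ∩ E)

/-! ## G-C: reduction theory, finite volume, Mahler -/

/-- columns of a matrix -/
def col (M : M3) (j : Fin 3) : Fin 3 → ℝ := fun i => M i j

/-- Euclidean square length -/
def sq (v : Fin 3 → ℝ) : ℝ := v ⬝ᵥ v

/-- the Gram determinant `|x|^2 |y|^2 - (x.y)^2 = |x|^2 |y_perp|^2` -/
def gr (x y : Fin 3 → ℝ) : ℝ := sq x * sq y - (x ⬝ᵥ y) ^ 2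

/-- Siegel set: with `x, y, z` the columns, `|x.y| <= |x|^2/2`, `|y_perp|^2 >= 3/4 |x|^2`,
`|x.z| <= |x|^2/2`, `|z.y_perp| <= |y_perp|^2/2`, `|z_perp|^2 >= 3/4 |y_perp|^2`
(all written without division: `y_perp = y - (x.y)/(x.x) x`,
`|x|^2 (z.y_perp) = |x|^2 (z.y) - (x.y)(x.z)`, `det^2 = gr x y * |z_perp|^2`) -/
def Sg : Set M3 := {M | 0 < M.det ∧
  2 * |col M 0 ⬝ᵥ col M 1| ≤ sq (col M 0) ∧
  3 * sq (col M 0) ^ 2 ≤ 4 * gr (col M 0) (col M 1) ∧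
  2 * |col M 0 ⬝ᵥ col M 2| ≤ sq (col M 0) ∧
  2 * |sq (col M 0) * (col M 1 ⬝ᵥ col M 2) - (col M 0 ⬝ᵥ col M 1) * (col M 0 ⬝ᵥ col M 2)| ≤
    gr (col M 0) (col M 1) ∧
  3 * gr (col M 0) (col M 1) ^ 2 ≤ 4 * sq (col M 0) * M.det ^ 2}

def T_SIE : Prop := ∀ M ∈ Om, ∃ γ : GZ, M * ic γ ∈ Sg

def T_VOL : Prop := volume (Sg ∩ Co) < ⊤

def T_FV : Prop := ∀ s : Set M3, FD s → volume s < ⊤ ∧ 0 < volume s

/-- Mahler's compactness criterion: no short vectors -/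
def T_MAH : Prop := ∀ δ : ℝ, 0 < δ → ∃ R : ℝ, ∀ M ∈ Om,
  (∀ n : Fin 3 → ℤ, n ≠ 0 → δ * M.det ≤ ‖M.mulVec (fun i => (n i : ℝ))‖ ^ 3) →
  ∃ γ : GZ, M * ic γ ∈ KK R

/-- dual form: no short vectors in the dual lattice; `n M^{-1} = n adj(M) / det M` -/
def T_MAHD : Prop := ∀ δ : ℝ, 0 < δ → ∃ R : ℝ, ∀ M ∈ Om,
  (∀ n : Fin 3 → ℤ, n ≠ 0 →
    δ * M.det ^ 2 ≤ ‖Matrix.vecMul (fun i => (n i : ℝ)) M.adjugate‖ ^ 3) →
  ∃ γ : GZ, M * ic γ ∈ KK R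

/-! ## G-D: orbit sums -/

/-- a bounded number of `γ` for each lattice -/
def T_FIN : Prop := ∀ R : ℝ, ∃ N : ℕ, ∀ M ∈ Om,
  {γ : GZ | M * ic γ ∈ KK R}.Finite ∧ {γ : GZ | M * ic γ ∈ KK R}.ncard ≤ N

/-- cutoff functions -/
def T_CUT : Prop := ∀ R : ℝ, ∃ (R' : ℝ) (η : M3 → ℝ), CSF R' η ∧ (∀ M, 0 ≤ η M) ∧
  (∀ M, η M ≤ 1) ∧ ∀ M ∈ KK R, η M = 1

/-- a compactly supported function is uniformly continuous on the left, and bounded -/
def T_CSF : Prop := ∀ (R : ℝ) (ψ : M3 → ℝ), CSF R ψ → (∃ B : ℝ, ∀ M, |ψ M| ≤ B) ∧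
  (∀ ε : ℝ, 0 < ε → ∃ δ : ℝ, 0 < δ ∧ ∀ u : M3, ‖u - 1‖ < δ →
    ∀ M ∈ Om, |ψ (u * M) - ψ M| ≤ ε)

/-- orbit sums are lattice functions -/
def T_PS : Prop := ∀ (R : ℝ) (ψ : M3 → ℝ), CSF R ψ → LF (PS ψ)

/-- the integral of a compactly supported function, and unfolding for real functions -/
def T_INT : Prop := ∀ s : Set M3, FD s → ∀ (R : ℝ) (ψ : M3 → ℝ), CSF R ψ →
  IntegrableOn ψ Co ∧ ∀ F : M3 → ℝ, (∀ (γ : GZ) (M : M3), F (M * ic γ) = F M) →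
    ContinuousOn F Om → (∃ B : ℝ, ∀ M, |F M| ≤ B) →
    ∫ M in s, F M * PS ψ M = ∫ M in Co, F M * ψ M

/-! ## G-E: mean ergodic theorem, contracted unipotents, generation, Fubini -/

/-- von Neumann for `T` and its inverse `T'`, with a common subsequence -/
def T_MET : Prop := ∀ (X : Type) [MeasurableSpace X] (ν : Measure X) [IsFiniteMeasure ν]
  (T T' : X → X), MeasurePreserving T ν ν → MeasurePreserving T' ν ν →
  (∀ x, T (T' x) = x) → (∀ x, T' (T x) = x) →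
  ∀ F : X → ℝ, Measurable F → (∃ B : ℝ, ∀ x, |F x| ≤ B) →
  ∃ Q : X → ℝ, Integrable Q ν ∧
    Tendsto (fun n : ℕ => ∫ x, |birkhoffAverage ℝ T F n x - Q x| ∂ν) atTop (𝓝 0) ∧
    ∃ φ : ℕ → ℕ, StrictMono φ ∧
      (∀ᵐ x ∂ν, Tendsto (fun k => birkhoffAverage ℝ T F (φ k) x) atTop (𝓝 (Q x))) ∧
      (∀ᵐ x ∂ν, Tendsto (fun k => birkhoffAverage ℝ T' F (φ k) x) atTop (𝓝 (Q x)))

/-- averages of a lattice function along `g` do not see unipotents contracted by `g` -/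
def T_CON : Prop := ∀ F : M3 → ℝ, LF F → ∀ g u : M3, 0 < g.det →
  Tendsto (fun k : ℕ => g ^ k * u * g⁻¹ ^ k) atTop (𝓝 1) → ∀ M ∈ Om,
  Tendsto (fun n : ℕ => BA g F n (u * M) - BA g F n M) atTop (𝓝 0)

/-- which transvections are contracted -/
def T_TRV : Prop := ∀ (i j : Fin 3) (t : ℝ), i ≠ j →
  Tendsto (fun k : ℕ => aa ^ k * Matrix.transvection i j t * aa⁻¹ ^ k) atTop (𝓝 1) ∨
  Tendsto (fun k : ℕ => ai ^ k * Matrix.transvection i j t * ai⁻¹ ^ k) atTop (𝓝 1)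

/-- transvections and positive scalars generate `GL(3,R)^+` -/
def T_GEN : Prop := ∀ S : Set M3, (∀ g ∈ S, ∀ h ∈ S, g * h ∈ S) →
  (∀ (i j : Fin 3) (t : ℝ), i ≠ j → Matrix.transvection i j t ∈ S) →
  (∀ t : ℝ, 0 < t → t • (1 : M3) ∈ S) → ∀ g : M3, 0 < g.det → g ∈ S

/-- Fubini -/
def T_FUB : Prop := ∀ H : M3 → ℝ, Measurable H →
  (∀ g : M3, 0 < g.det → ∀ᵐ M ∂(volume.restrict Om), H (g * M) = H M) →
  ∃ c : ℝ, ∀ᵐ M ∂(volume.restrict Om), H M = c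

/-! ## G-F: conclusion -/

/-- mean ergodic theorem on the space of lattices, before the identification of the limit -/
def T_MES : Prop := ∀ s : Set M3, FD s → ∀ F : M3 → ℝ, LF F →
  ∃ (Q : M3 → ℝ) (φ : ℕ → ℕ), StrictMono φ ∧ IntegrableOn Q s ∧
    Tendsto (fun n : ℕ => ∫ M in s, |BA aa F n M - Q M|) atTop (𝓝 0) ∧
    (∀ᵐ M ∂(volume.restrict Om), Tendsto (fun k => BA aa F (φ k) M) atTop (𝓝 (Q M))) ∧
    (∀ᵐ M ∂(volume.restrict Om), Tendsto (fun k => BA ai F (φ k) M) atTop (𝓝 (Q M)))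

def T_ERG : Prop := ∀ s : Set M3, FD s → ∀ F : M3 → ℝ, LF F →
  Tendsto (fun n : ℕ => ∫ M in s, |BA aa F n M - mn s F|) atTop (𝓝 0)

/-- the form used for equidistribution -/
def T_COR : Prop := ∀ s : Set M3, FD s → ∀ F : M3 → ℝ, LF F → ∀ (R : ℝ) (η : M3 → ℝ),
  CSF R η → (∀ M, 0 ≤ η M) →
  (∀ n : ℕ, CSF R (fun M => η M * |BA aa F n M - mn s F|)) ∧
  (∀ n : ℕ, ∀ M, PS (fun N => η N * |BA aa F n N - mn s F|) M =
    PS η M * |BA aa F n M - mn s F|) ∧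
  Tendsto (fun n : ℕ => ∫ M in Co, η M * |BA aa F n M - mn s F|) atTop (𝓝 0)

/-- the mean of an orbit sum -/
def T_MN : Prop := ∀ s : Set M3, FD s → ∀ (R : ℝ) (ψ : M3 → ℝ), CSF R ψ →
  mn s (PS ψ) = (∫ M in Co, ψ M) / (volume s).toReal

end SAIL
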