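import Pool.Agent.SAIL.ERG.Targets

/-!
# SAIL, part G: contracted unipotents
-/

open MeasureTheory Set Filter Topology

namespace SAIL

namespace CON

lemma inv_pow_mul_pow {g : M3} (hg : 0 < g.det) (k : ℕ) : g⁻¹ ^ k * g ^ k = 1 := by
  rw [Matrix.inv_pow']
  refine Matrix.nonsing_inv_mul _ ?_
  rw [Matrix.det_pow]
  exact (pow_pos hg k).ne'.isUnit

lemma conj_eq {g : M3} (hg : 0 < g.det) (u M : M3) (k : ℕ) :
    g ^ k * (u * M) = (g ^ k * u * g⁻¹ ^ k) * (g ^ k * M) := by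
  calc g ^ k * (u * M) = g ^ k * u * (1 * M) := by rw [Matrix.one_mul, Matrix.mul_assoc]
    _ = g ^ k * u * ((g⁻¹ ^ k * g ^ k) * M) := by rw [inv_pow_mul_pow hg]
    _ = (g ^ k * u * g⁻¹ ^ k) * (g ^ k * M) := by simp only [Matrix.mul_assoc]

end CON

theorem p_CON : T_CON := by
  intro F hF g u hg hlim M hM
  have he : Tendsto (fun k : ℕ => F (g ^ k * (u * M)) - F (g ^ k * M)) atTop (𝓝 0) := by
    rw [Metric.tendsto_atTop]
    intro ε hε
    obtain ⟨δ, hδ, hunif⟩ := hF.unif (ε / 2) (by positivity)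
    have h1 : ∀ᶠ k : ℕ in atTop, dist (g ^ k * u * g⁻¹ ^ k) 1 < δ :=
      hlim.eventually (Metric.ball_mem_nhds (1 : M3) hδ)
    obtain ⟨N, hN⟩ := eventually_atTop.1 h1
    refine ⟨N, fun k hk => ?_⟩
    have h2 : ‖g ^ k * u * g⁻¹ ^ k - 1‖ < δ := by
      have := hN k hk
      rwa [dist_eq_norm] at this
    have hdet : 0 < (g ^ k).det := by
      rw [Matrix.det_pow]
      exact pow_pos hg k
    have h3 := hunif _ h2 (g ^ k * M) (mul_mem_Om hdet hM)
    rw [← CON.conj_eq hg] at h3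
    rw [Real.dist_eq, sub_zero]
    linarith
  have hc := he.cesaro
  refine hc.congr fun n => ?_
  unfold BA
  rw [Finset.sum_sub_distrib, mul_sub, div_eq_inv_mul, div_eq_inv_mul]

end SAIL
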