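import Pool.Agent.SAIL.ERG.P_MES

/-!
# SAIL, part G: the form used for equidistribution
-/

open MeasureTheory Set Filter Topology

namespace SAIL

namespace CORx

lemma BA_cont {F : M3 → ℝ} (hF : LF F) {g : M3} (hg : 0 < g.det) (n : ℕ) :
    ContinuousOn (fun M => BA g F n M) Om := by
  unfold BA
  refine ContinuousOn.div_const ?_ _
  refine continuousOn_finsetSum _ fun k _ => ?_
  exact hF.cont.comp (continuous_lmul (g ^ k)).continuousOn
    (fun M hM => mul_mem_Om (pow_det_pos hg k) hM)

lemma BA_bdd {F : M3 → ℝ} {B : ℝ} (hB : ∀ M, |F M| ≤ B) (g : M3) (n : ℕ) (M : M3) :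
    |BA g F n M| ≤ B := by
  have hB0 : 0 ≤ B := (abs_nonneg _).trans (hB 1)
  unfold BA
  rcases Nat.eq_zero_or_pos n with rfl | hn
  · simpa using hB0
  have hn' : (0 : ℝ) < n := by exact_mod_cast hn
  rw [abs_div, abs_of_pos hn', div_le_iff₀ hn']
  calc |∑ k ∈ Finset.range n, F (g ^ k * M)| ≤ ∑ k ∈ Finset.range n, |F (g ^ k * M)| :=
        Finset.abs_sum_le_sum_abs _ _
    _ ≤ ∑ _k ∈ Finset.range n, B := Finset.sum_le_sum fun k _ => hB _
    _ = B * n := by rw [Finset.sum_const, Finset.card_range, nsmul_eq_mul, mul_comm]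

end CORx

open CORx in
theorem p_CORx (hERG : T_ERG) (hINT : T_INT) (hPS : T_PS) (hFV : T_FV) : T_COR := by
  intro s hs F hF R η hη hη0
  have hdaa : 0 < aa.det := by rw [det_aa]; norm_num
  set c := mn s F with hc
  have hcont : ∀ n : ℕ, ContinuousOn (fun M => |BA aa F n M - c|) Om := fun n =>
    ((BA_cont hF hdaa n).sub continuousOn_const).abs
  have hgam : ∀ (n : ℕ) (γ : GZ) (M : M3), |BA aa F n (M * ic γ) - c| = |BA aa F n M - c| := by
    intro n γ M
    rw [BA_gam hF.gam]
  obtain ⟨B, hB⟩ := hF.bdd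
  have hbd : ∀ (n : ℕ) (M : M3), |(|BA aa F n M - c|)| ≤ B + |c| := by
    intro n M
    rw [abs_abs]
    exact (abs_sub _ _).trans (add_le_add (BA_bdd hB aa n M) le_rfl)
  refine ⟨fun n => ⟨hη.cont.mul (hcont n), ?_, ?_⟩, ?_, ?_⟩
  · intro t ht M
    show η (t • M) * |BA aa F n (t • M) - c| = _
    rw [hη.scale t ht, BA_scale hF.scale _ _ ht]
  · intro M hM
    exact hη.supp M (left_ne_zero_of_mul hM)
  · intro n M
    unfold PS
    rw [← tsum_mul_right]
    refine tsum_congr fun γ => ?_
    show η (M * ic γ) * |BA aa F n (M * ic γ) - c| = _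
    rw [hgam]
  · obtain ⟨B1, hB1⟩ := (hPS R η hη).bdd
    have hfin : IsFiniteMeasure (volume.restrict s) := ⟨by
      rw [Measure.restrict_apply_univ]; exact (hFV s hs).1⟩
    have hlim := (hERG s hs F hF).const_mul B1
    rw [mul_zero] at hlim
    refine squeeze_zero (fun n => ?_) (fun n => ?_) hlim
    · exact integral_nonneg fun M => mul_nonneg (hη0 M) (abs_nonneg _)
    · have h1 := (hINT s hs R η hη).2 (fun M => |BA aa F n M - c|) (hgam n) (hcont n)
        ⟨B + |c|, hbd n⟩
      have h2 : ∫ M in Co, η M * |BA aa F n M - c| = ∫ M in Co, |BA aa F n M - c| * η M := by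
        congr 1; ext M; ring
      rw [h2, ← h1, ← integral_const_mul]
      refine integral_mono_of_nonneg ?_ ?_ ?_
      · refine Filter.Eventually.of_forall fun M => ?_
        refine mul_nonneg (abs_nonneg _) ?_
        exact tsum_nonneg fun γ => hη0 _
      · refine Integrable.const_mul ?_ _
        refine Integrable.of_bound (C := B + |c|) ?_ ?_
        · exact ((hcont n).mono (hs.sub.trans Co_subset_Om)).aestronglyMeasurable hs.meas
        · refine Filter.Eventually.of_forall fun M => ?_
          rw [Real.norm_eq_abs]; exact hbd n M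
      · refine Filter.Eventually.of_forall fun M => ?_
        show |BA aa F n M - c| * PS η M ≤ B1 * |BA aa F n M - c|
        rw [mul_comm]
        exact mul_le_mul_of_nonneg_right ((le_abs_self _).trans (hB1 M)) (abs_nonneg _)

theorem p_MNx (hINT : T_INT) : T_MN := by
  intro s hs R ψ hψ
  unfold mn
  congr 1
  have h1 := (hINT s hs R ψ hψ).2 (fun _ => 1) (fun _ _ => rfl) continuousOn_const
    ⟨1, fun _ => by simp⟩
  simpa using h1

end SAIL
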