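import Pool.Agent.SAIL.ERG.Targets

/-!
# SAIL, part G: compactly supported functions are bounded and uniformly continuous on the left
-/

open MeasureTheory Set Filter Topology

namespace SAIL

namespace CSFP

lemma cont_norm : Continuous (fun M : M3 => ‖M‖) :=
  (continuous_norm : @Continuous M3 ℝ topN _ (fun M : M3 => ‖M‖))

lemma isCompact_K (R : ℝ) : IsCompact {M : M3 | M.det = 1 ∧ ‖M‖ ^ 3 ≤ R} := by
  have hc : IsClosed {M : M3 | M.det = 1 ∧ ‖M‖ ^ 3 ≤ R} :=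
    (isClosed_eq continuous_det continuous_const).inter
      (isClosed_le (cont_norm.pow 3) continuous_const)
  have hb : Bornology.IsBounded {M : M3 | M.det = 1 ∧ ‖M‖ ^ 3 ≤ R} := by
    refine (Metric.isBounded_closedBall (x := (0 : M3)) (r := max R 1)).subset ?_
    rintro M ⟨-, hM⟩
    rw [mem_closedBall_zero_iff]
    by_contra hlt
    rw [not_le] at hlt
    have h1 : 1 < ‖M‖ := lt_of_le_of_lt (le_max_right _ _) hlt
    have h2 : R < ‖M‖ := lt_of_le_of_lt (le_max_left _ _) hlt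
    have h3 : ‖M‖ ≤ ‖M‖ ^ 3 := by
      calc ‖M‖ = ‖M‖ ^ 1 := (pow_one _).symm
        _ ≤ ‖M‖ ^ 3 := pow_le_pow_right₀ h1.le (by norm_num)
    linarith
  exact @Metric.isCompact_of_isClosed_isBounded M3 _ instNAG.toPseudoMetricSpace
    (FiniteDimensional.proper_real M3) hc hb

/-- scaling to determinant one -/
lemma scale_one {M : M3} (hM : M ∈ Om) : ∃ t : ℝ, 0 < t ∧ (t • M).det = 1 := by
  have hd : 0 < M.det := hM
  refine ⟨M.det ^ (-(1 / 3 : ℝ)), Real.rpow_pos_of_pos hd _, ?_⟩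
  rw [det_smul3, ← Real.rpow_natCast, ← Real.rpow_mul hd.le]
  norm_num
  rw [Real.rpow_neg_one]
  exact inv_mul_cancel₀ hd.ne'

lemma mem_K_of_ne {R : ℝ} {ψ : M3 → ℝ} (h : CSF R ψ) {M : M3} (hM : M.det = 1)
    (hne : ψ M ≠ 0) : ‖M‖ ^ 3 ≤ R := by
  have := (h.supp M hne).2
  rwa [hM, mul_one] at this

lemma bounded {R : ℝ} {ψ : M3 → ℝ} (h : CSF R ψ) : ∃ B : ℝ, ∀ M, |ψ M| ≤ B := by
  have hK := isCompact_K R
  have hsub : {M : M3 | M.det = 1 ∧ ‖M‖ ^ 3 ≤ R} ⊆ Om := by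
    rintro M ⟨hM, -⟩
    show 0 < M.det
    rw [hM]; exact one_pos
  obtain ⟨B, hB⟩ := hK.exists_bound_of_continuousOn (h.cont.mono hsub)
  refine ⟨max B 0, fun M => ?_⟩
  by_cases hne : ψ M = 0
  · rw [hne, abs_zero]; exact le_max_right _ _
  · have hM : M ∈ Om := KK_subset_Om R (h.supp M hne)
    obtain ⟨t, ht, hdet⟩ := scale_one hM
    have hne' : ψ (t • M) ≠ 0 := by rwa [h.scale t ht]
    have h1 := hB (t • M) ⟨hdet, mem_K_of_ne h hdet hne'⟩
    rw [h.scale t ht, Real.norm_eq_abs] at h1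
    exact h1.trans (le_max_left _ _)

/-- elements close to one do not decrease the norm too much -/
lemma norm_le_two {u M : M3} (hu : ‖u - 1‖ < 1 / 6) : ‖M‖ ≤ 2 * ‖u * M‖ := by
  have h1 : M = u * M - (u - 1) * M := by
    rw [Matrix.sub_mul, Matrix.one_mul]; abel
  have h2 : ‖M‖ ≤ ‖u * M‖ + ‖(u - 1) * M‖ := by
    calc ‖M‖ = ‖u * M - (u - 1) * M‖ := by rw [← h1]
      _ ≤ _ := norm_sub_le _ _
  have h3 := norm_mul3 (u - 1) M
  have h4 : 3 * ‖u - 1‖ * ‖M‖ ≤ 1 / 2 * ‖M‖ := by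
    refine mul_le_mul_of_nonneg_right ?_ (norm_nonneg _)
    linarith
  linarith

end CSFP

open CSFP

theorem p_CSF : T_CSF := by
  intro R ψ h
  refine ⟨bounded h, fun ε hε => ?_⟩
  set K : Set M3 := {M : M3 | M.det = 1 ∧ ‖M‖ ^ 3 ≤ 16 * |R|} with hKdef
  have hK : IsCompact K := isCompact_K _
  have hKO : K ⊆ Om := by
    rintro M ⟨hM, -⟩
    show 0 < M.det
    rw [hM]; exact one_pos
  have h1 : ∀ᶠ u in 𝓝 (1 : M3), ∀ M ∈ K, |ψ (u * M) - ψ M| < ε := by
    refine hK.eventually_forall_of_forall_eventually (P := fun u M => |ψ (u * M) - ψ M| < ε) ?_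
    intro M hM
    have c1 : ContinuousAt ψ M := h.cont.continuousAt (isOpen_Om.mem_nhds (hKO hM))
    have c2 : ContinuousAt (fun z : M3 × M3 => z.1 * z.2) (1, M) := by
      have : Continuous (fun z : M3 × M3 => z.1 * z.2) := continuous_fst.matrix_mul continuous_snd
      exact this.continuousAt
    have c3 : ContinuousAt (fun z : M3 × M3 => ψ (z.1 * z.2)) (1, M) := by
      refine ContinuousAt.comp (g := ψ) (f := fun z : M3 × M3 => z.1 * z.2) ?_ c2
      show ContinuousAt ψ ((1 : M3) * M)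
      rw [Matrix.one_mul]; exact c1
    have c4 : ContinuousAt (fun z : M3 × M3 => ψ z.2) (1, M) :=
      ContinuousAt.comp (g := ψ) (f := fun z : M3 × M3 => z.2) c1 continuous_snd.continuousAt
    have c5 : ContinuousAt (fun z : M3 × M3 => |ψ (z.1 * z.2) - ψ z.2|) (1, M) := (c3.sub c4).abs
    have h0 : |ψ ((1 : M3) * M) - ψ M| < ε := by
      rw [Matrix.one_mul, sub_self, abs_zero]; exact hε
    exact c5.eventually_lt continuousAt_const h0
  have h2 : ∀ᶠ u in 𝓝 (1 : M3), u.det < 2 := by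
    have := (continuous_det.tendsto (1 : M3)).eventually (gt_mem_nhds (show (1 : M3).det < 2 by
      rw [Matrix.det_one]; norm_num))
    exact this
  have h3 := h1.and h2
  have h4 : {u : M3 | (∀ M ∈ K, |ψ (u * M) - ψ M| < ε) ∧ u.det < 2} ∈ @nhds M3 topN 1 := h3
  obtain ⟨δ, hδ, hball⟩ := (@Metric.mem_nhds_iff M3 instNAG.toPseudoMetricSpace _ _).1 h4
  refine ⟨min δ (1 / 6), lt_min hδ (by norm_num), fun u hu M hM => ?_⟩
  have hu1 : ‖u - 1‖ < δ := lt_of_lt_of_le hu (min_le_left _ _)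
  have hu2 : ‖u - 1‖ < 1 / 6 := lt_of_lt_of_le hu (min_le_right _ _)
  have hmem : u ∈ Metric.ball (1 : M3) δ := by
    rw [Metric.mem_ball, dist_eq_norm]; exact hu1
  obtain ⟨hu3, hu4⟩ := hball hmem
  obtain ⟨t, ht, hdet⟩ := scale_one hM
  have e1 : ψ (u * M) = ψ (u * (t • M)) := by
    rw [Matrix.mul_smul, h.scale t ht]
  rw [e1, ← h.scale t ht M]
  set N : M3 := t • M with hN
  by_cases hne : ψ N = 0 ∧ ψ (u * N) = 0
  · rw [hne.1, hne.2, sub_self, abs_zero]; exact hε.le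
  · refine (hu3 N ⟨hdet, ?_⟩).le
    have hR : R ≤ |R| := le_abs_self R
    have hR0 : 0 ≤ |R| := abs_nonneg R
    by_cases hz : ψ N = 0
    · have hz2 : ψ (u * N) ≠ 0 := fun hc => hne ⟨hz, hc⟩
      have h5 := (h.supp _ hz2).2
      have h5' := (h.supp _ hz2).1
      rw [Matrix.det_mul, hdet, mul_one] at h5 h5'
      have h6 := norm_le_two (M := N) hu2
      calc ‖N‖ ^ 3 ≤ (2 * ‖u * N‖) ^ 3 := pow_le_pow_left₀ (norm_nonneg _) h6 3
        _ = 8 * ‖u * N‖ ^ 3 := by ring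
        _ ≤ 8 * (R * u.det) := by linarith
        _ ≤ 16 * |R| := by nlinarith
    · have h5 := mem_K_of_ne h hdet hz
      linarith

end SAIL
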