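import Pool.Agent.SAIL.ERG.P_MES

/-!
# SAIL, part G: ergodicity, the averages converge to the mean
-/

open MeasureTheory Set Filter Topology

namespace SAIL

/-- null sets are preserved by left translations -/
lemma null_lmul (hLMUL : T_LMUL) {g : M3} (hg : 0 < g.det) {p : M3 → Prop}
    (h : ∀ᵐ M ∂(volume.restrict Om), p M) : ∀ᵐ M ∂(volume.restrict Om), p (g * M) := by
  rw [ae_restrict_iff' measurableSet_Om] at h ⊢
  have h0 : volume {M : M3 | M ∈ Om ∧ ¬ p M} = 0 := by
    rw [ae_iff] at h
    convert h using 2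
    ext M; simp
  have h1 := hLMUL g hg.ne' {M : M3 | M ∈ Om ∧ ¬ p M}
  rw [h0, mul_zero] at h1
  rw [ae_iff]
  refine measure_mono_null ?_ h1
  intro M hM
  have hM' : M ∈ Om ∧ ¬ p (g * M) := by simpa using hM
  exact ⟨mul_mem_Om hg hM'.1, hM'.2⟩

/-- integrals over the space of lattices are invariant -/
lemma integral_lmul (hLINV : T_LINV) {s : Set M3} (hs : FD s) {F : M3 → ℝ} (hF : LF F) {g : M3}
    (hg : g.det = 1) (k : ℕ) : ∫ M in s, F (g ^ k * M) = ∫ M in s, F M := by
  set F0 : M3 → ℝ := Om.indicator F with hF0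
  have hF0m : Measurable F0 := hF.measurable_indicator
  have hF0g : ∀ (γ : GZ) (M : M3), F0 (M * ic γ) = F0 M := indicator_gam hF.gam
  have hF0X : Measurable (fX F0) := by
    intro E hE
    refine ⟨hF0m hE, fun γ M => ?_⟩
    show F0 (M * ic γ) ∈ E ↔ F0 M ∈ E
    rw [hF0g]
  have hdet : (g ^ k).det = 1 := by rw [Matrix.det_pow, hg, one_pow]
  have hmp := mp_lX hLINV hs hdet
  have hs' : ∀ᵐ M ∂(volume.restrict s), M ∈ Om := by
    filter_upwards [ae_restrict_mem hs.meas] with M hM
    exact Co_subset_Om (hs.sub hM)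
  have e1 : ∫ M in s, F (g ^ k * M) = ∫ M in s, F0 (g ^ k * M) := by
    refine integral_congr_ae ?_
    filter_upwards [hs'] with M hM
    rw [hF0, indicator_of_mem (mul_mem_Om (by rw [hdet]; norm_num) hM)]
  have e2 : ∫ M in s, F M = ∫ M in s, F0 M := by
    refine integral_congr_ae ?_
    filter_upwards [hs'] with M hM
    rw [hF0, indicator_of_mem hM]
  have e3 : ∫ x, fX F0 x ∂(nuX s) = ∫ M in s, F0 M := by
    unfold nuX
    rw [integral_map measurable_toXL.aemeasurable hF0X.aestronglyMeasurable]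
    rfl
  have e4 : ∫ x, fX F0 (lX (g ^ k) x) ∂(nuX s) = ∫ M in s, F0 (g ^ k * M) := by
    have hm : Measurable (fun x : XL => fX F0 (lX (g ^ k) x)) := hF0X.comp (measurable_lX (g ^ k))
    unfold nuX
    rw [integral_map measurable_toXL.aemeasurable hm.aestronglyMeasurable]
    rfl
  have e5 : ∫ x, fX F0 (lX (g ^ k) x) ∂(nuX s) = ∫ x, fX F0 x ∂(nuX s) := by
    have h := integral_map (μ := nuX s) (φ := lX (g ^ k)) (f := fX F0)
      (measurable_lX (g ^ k)).aemeasurable (by
        rw [hmp.map_eq]; exact hF0X.aestronglyMeasurable)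
    rw [hmp.map_eq] at h
    exact h.symm
  rw [e1, e2, ← e4, e5, e3]

/-- **ergodic theorem on the space of lattices**. -/
theorem p_ERG (hMES : T_MES) (hCON : T_CON) (hTRV : T_TRV) (hGEN : T_GEN) (hFUB : T_FUB)
    (hLMUL : T_LMUL) (hLINV : T_LINV) (hFV : T_FV) : T_ERG := by
  intro s hs F hF
  obtain ⟨Q, φ, hφ, hQi, hL1, hc1, hc2⟩ := hMES s hs F hF
  set F0 : M3 → ℝ := Om.indicator F with hF0
  have hF0m : Measurable F0 := hF.measurable_indicator
  have hF0s : ∀ t : ℝ, 0 < t → ∀ M, F0 (t • M) = F0 M := fun t ht M =>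
    indicator_scale hF.scale t ht M
  have hdaa : 0 < aa.det := by rw [det_aa]; norm_num
  have hdai : 0 < ai.det := by rw [det_ai]; norm_num
  set H : M3 → ℝ := fun M => limsup (fun k => BA aa F0 (φ k) M) atTop with hH
  have hBAm : ∀ n : ℕ, Measurable (fun M => BA aa F0 n M) := by
    intro n
    unfold BA
    refine Measurable.div_const ?_ _
    refine Finset.measurable_fun_sum _ fun k _ => ?_
    exact hF0m.comp (measurable_lmul (aa ^ k))
  have hHm : Measurable H := Measurable.limsup fun k => hBAm (φ k)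
  have hHQ : ∀ᵐ M ∂(volume.restrict Om), H M = Q M := by
    filter_upwards [hc1, ae_restrict_mem measurableSet_Om] with M h1 h2
    have h3 : Tendsto (fun k => BA aa F0 (φ k) M) atTop (𝓝 (Q M)) :=
      h1.congr fun k => (BA_indicator hdaa F _ h2).symm
    exact h3.limsup_eq
  have hc1' : ∀ᵐ M ∂(volume.restrict Om), Tendsto (fun k => BA aa F (φ k) M) atTop (𝓝 (H M)) := by
    filter_upwards [hc1, hHQ] with M h1 h2
    rw [h2]; exact h1
  have hc2' : ∀ᵐ M ∂(volume.restrict Om), Tendsto (fun k => BA ai F (φ k) M) atTop (𝓝 (H M)) := by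
    filter_upwards [hc2, hHQ] with M h1 h2
    rw [h2]; exact h1
  have key : ∀ (g u : M3), 0 < g.det → 0 < u.det →
      Tendsto (fun k : ℕ => g ^ k * u * g⁻¹ ^ k) atTop (𝓝 1) →
      (∀ᵐ M ∂(volume.restrict Om), Tendsto (fun k => BA g F (φ k) M) atTop (𝓝 (H M))) →
      ∀ᵐ M ∂(volume.restrict Om), H (u * M) = H M := by
    intro g u hg hu hcon hconv
    filter_upwards [hconv, null_lmul hLMUL hu hconv, ae_restrict_mem measurableSet_Om]
      with M h1 h2 h3
    have h4 := (hCON F hF g u hg hcon M h3).comp hφ.tendsto_atTop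
    have h5 : Tendsto (fun k => BA g F (φ k) (u * M) - BA g F (φ k) M) atTop
        (𝓝 (H (u * M) - H M)) := h2.sub h1
    have h6 := tendsto_nhds_unique h5 h4
    linarith
  set S : Set M3 := {g | 0 < g.det ∧ ∀ᵐ M ∂(volume.restrict Om), H (g * M) = H M} with hS
  have hSall : ∀ g : M3, 0 < g.det → g ∈ S := by
    refine hGEN S ?_ ?_ ?_
    · intro g hg h hh
      refine ⟨by rw [Matrix.det_mul]; exact mul_pos hg.1 hh.1, ?_⟩
      filter_upwards [null_lmul hLMUL hh.1 hg.2, hh.2] with M h1 h2
      rw [Matrix.mul_assoc, h1, h2]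
    · intro i j t hij
      have hd : 0 < (Matrix.transvection i j t : M3).det := by
        rw [Matrix.det_transvection_of_ne i j hij]; norm_num
      refine ⟨hd, ?_⟩
      rcases hTRV i j t hij with h | h
      · exact key aa _ hdaa hd h hc1'
      · exact key ai _ hdai hd h hc2'
    · intro t ht
      refine ⟨by rw [det_smul3, Matrix.det_one]; positivity, ?_⟩
      refine Filter.Eventually.of_forall fun M => ?_
      have e : (t • (1 : M3)) * M = t • M := by rw [Matrix.smul_mul, Matrix.one_mul]
      rw [e]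
      simp only [hH, BA_scale hF0s _ _ ht]
  obtain ⟨c, hc⟩ := hFUB H hHm fun g hg => (hSall g hg).2
  have hcs : ∀ᵐ M ∂(volume.restrict s), Q M = c := by
    have h1 : ∀ᵐ M ∂(volume.restrict Om), Q M = c := by
      filter_upwards [hc, hHQ] with M h1 h2
      rw [← h2, h1]
    exact ae_restrict_of_ae_restrict_of_subset (hs.sub.trans Co_subset_Om) h1
  have hlim : Tendsto (fun n : ℕ => ∫ M in s, |BA aa F n M - c|) atTop (𝓝 0) := by
    refine hL1.congr fun n => ?_
    refine integral_congr_ae ?_
    filter_upwards [hcs] with M hM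
    rw [hM]
  -- identification of the constant
  obtain ⟨hv1, hv2⟩ := hFV s hs
  have hfin : IsFiniteMeasure (volume.restrict s) := ⟨by
    rw [Measure.restrict_apply_univ]; exact hv1⟩
  obtain ⟨B, hB⟩ := hF.bdd
  have hs' : ∀ᵐ M ∂(volume.restrict s), M ∈ Om := by
    filter_upwards [ae_restrict_mem hs.meas] with M hM
    exact Co_subset_Om (hs.sub hM)
  have hFk : ∀ k : ℕ, IntegrableOn (fun M => F (aa ^ k * M)) s := by
    intro k
    have h1 : IntegrableOn (fun M => F0 (aa ^ k * M)) s := by
      refine Integrable.of_bound (C := B)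
        (hF0m.comp (measurable_lmul (aa ^ k))).aestronglyMeasurable ?_
      refine Filter.Eventually.of_forall fun M => ?_
      rw [Real.norm_eq_abs]
      by_cases hM : aa ^ k * M ∈ Om
      · rw [hF0, indicator_of_mem hM]; exact hB _
      · rw [hF0, indicator_of_notMem hM, abs_zero]; exact (abs_nonneg _).trans (hB 1)
    refine h1.congr ?_
    filter_upwards [hs'] with M hM
    rw [hF0, indicator_of_mem (mul_mem_Om (pow_det_pos hdaa k) hM)]
  have hBAint : ∀ n : ℕ, IntegrableOn (fun M => BA aa F n M) s := by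
    intro n
    unfold BA
    exact (integrable_finsetSum _ fun k _ => hFk k).div_const _
  have hBAval : ∀ n : ℕ, 0 < n → ∫ M in s, BA aa F n M = ∫ M in s, F M := by
    intro n hn
    have h1 : ∫ M in s, BA aa F n M = (∑ k ∈ Finset.range n, ∫ M in s, F (aa ^ k * M)) / n := by
      unfold BA
      rw [integral_div, integral_finsetSum _ fun k _ => hFk k]
    rw [h1]
    simp only [integral_lmul hLINV hs hF det_aa]
    rw [Finset.sum_const, Finset.card_range, nsmul_eq_mul]
    have hn' : (n : ℝ) ≠ 0 := by exact_mod_cast hn.ne'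
    field_simp
  have hvr : 0 < (volume s).toReal := ENNReal.toReal_pos hv2.ne' hv1.ne
  have hbound : ∀ n : ℕ, 0 < n → |(∫ M in s, F M) - c * (volume s).toReal| ≤
      ∫ M in s, |BA aa F n M - c| := by
    intro n hn
    have h1 : (∫ M in s, F M) - c * (volume s).toReal = ∫ M in s, (BA aa F n M - c) := by
      rw [integral_sub (hBAint n) (integrable_const c), hBAval n hn, integral_const]
      simp only [smul_eq_mul, Measure.real, Measure.restrict_apply_univ]
      ring
    rw [h1]
    exact abs_integral_le_integral_abs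
  have heq : (∫ M in s, F M) = c * (volume s).toReal := by
    have h1 : |(∫ M in s, F M) - c * (volume s).toReal| ≤ 0 := by
      refine ge_of_tendsto hlim ?_
      filter_upwards [eventually_gt_atTop 0] with n hn
      exact hbound n hn
    have h2 := abs_nonpos_iff.mp h1
    linarith
  have hcm : mn s F = c := by
    unfold mn
    rw [heq]
    field_simp
  rw [hcm]
  exact hlim

end SAIL
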