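import Pool.Agent.SAIL.ERG.Targets

/-!
# SAIL, part G: a measurable fundamental domain of `SL(3,Z)` on the cone
-/

open MeasureTheory Set Filter Topology

namespace SAIL

/-- the points whose orbit first meets the family `V` at the index where the point itself lies -/
def fdSet (V : ℕ → Set M3) : Set M3 :=
  Co ∩ ⋃ i : ℕ, (V i ∩ ⋂ k : ℕ, ⋂ _ : k < i, ⋂ γ : GZ, (fun M : M3 => M * ic γ) ⁻¹' (V k)ᶜ)

lemma mem_fdSet (V : ℕ → Set M3) (M : M3) : M ∈ fdSet V ↔
    M ∈ Co ∧ ∃ i : ℕ, M ∈ V i ∧ ∀ k : ℕ, k < i → ∀ γ : GZ, M * ic γ ∉ V k := by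
  simp only [fdSet, mem_inter_iff, mem_iUnion, mem_iInter, mem_preimage, mem_compl_iff]

theorem p_FD (hN : T_NBHD) : T_FD := by
  classical
  choose! U hU using hN
  obtain ⟨t, htO, htc, hcov⟩ := TopologicalSpace.countable_cover_nhdsWithin (f := U) (s := Om)
    (fun M hM => mem_nhdsWithin_of_mem_nhds ((hU M hM).1.mem_nhds (hU M hM).2.1))
  have h1 : (1 : M3) ∈ Om := by
    show 0 < (1 : M3).det
    rw [Matrix.det_one]; exact one_pos
  have htne : t.Nonempty := by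
    obtain ⟨x, hx⟩ := mem_iUnion.1 (hcov h1)
    obtain ⟨hx1, _⟩ := mem_iUnion.1 hx
    exact ⟨x, hx1⟩
  obtain ⟨f, hf⟩ := htc.exists_eq_range htne
  have hfO : ∀ n, f n ∈ Om := fun n => htO (by rw [hf]; exact mem_range_self n)
  set V : ℕ → Set M3 := fun n => U (f n) with hV
  have hVo : ∀ n, IsOpen (V n) := fun n => (hU _ (hfO n)).1
  have hVu : ∀ n, ∀ γ : GZ, ∀ N ∈ V n, N * ic γ ∈ V n → γ = 1 := fun n => (hU _ (hfO n)).2.2.2
  have hVc : ∀ M ∈ Om, ∃ n, M ∈ V n := by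
    intro M hM
    obtain ⟨x, hx⟩ := mem_iUnion.1 (hcov hM)
    obtain ⟨hx1, hx2⟩ := mem_iUnion.1 hx
    rw [hf] at hx1
    obtain ⟨n, rfl⟩ := hx1
    exact ⟨n, hx2⟩
  refine ⟨fdSet V, ?_, ?_, ?_, ?_⟩
  · refine measurableSet_Co.inter (MeasurableSet.iUnion fun i => (hVo i).measurableSet.inter ?_)
    refine MeasurableSet.iInter fun k => MeasurableSet.iInter fun _ => MeasurableSet.iInter fun γ => ?_
    exact measurable_rmul (ic γ) (hVo k).measurableSet.compl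
  · exact inter_subset_left
  · intro M hM
    have hex : ∃ i : ℕ, ∃ γ : GZ, M * ic γ ∈ V i := by
      obtain ⟨n, hn⟩ := hVc M (Co_subset_Om hM)
      exact ⟨n, 1, by rwa [ic_one, Matrix.mul_one]⟩
    obtain ⟨γ, hγ⟩ := Nat.find_spec hex
    refine ⟨γ, (mem_fdSet V _).2 ⟨(mul_ic_mem_Co γ).2 hM, Nat.find hex, hγ, ?_⟩⟩
    intro k hk δ hδ
    rw [Matrix.mul_assoc, ← ic_mul] at hδ
    exact Nat.find_min hex hk ⟨_, hδ⟩
  · intro M hM γ hγ
    obtain ⟨_, i, hi, hi'⟩ := (mem_fdSet V _).1 hM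
    obtain ⟨_, j, hj, hj'⟩ := (mem_fdSet V _).1 hγ
    have hij : i = j := by
      rcases lt_trichotomy i j with h | h | h
      · exfalso
        refine hj' i h γ⁻¹ ?_
        rw [Matrix.mul_assoc, ic_mul_inv, Matrix.mul_one]
        exact hi
      · exact h
      · exact absurd hj (hi' j h γ)
    subst hij
    exact hVu i γ M hi hj

end SAIL
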