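import Pool.Agent.SAIL.ERG.Targets

/-!
# SAIL, part G: Fubini, an invariant function is constant
-/

open MeasureTheory Set Filter Topology

namespace SAIL

lemma one_mem_Om : (1 : M3) ∈ Om := by
  simp only [Om, mem_ofPred_eq, Matrix.det_one]
  exact one_pos

lemma restrict_Om_ne_zero : (volume.restrict Om : Measure M3) ≠ 0 := by
  intro h
  rw [Measure.restrict_eq_zero] at h
  exact (isOpen_Om.measure_pos volume ⟨1, one_mem_Om⟩).ne' h

lemma continuous_mul_pair : Continuous (fun p : M3 × M3 => p.1 * p.2) := by fun_prop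

theorem p_FUB (hR : T_RMUL) : T_FUB := by
  intro H hH hinv
  have hme : MeasurableSet {p : M3 × M3 | H (p.1 * p.2) = H p.2} :=
    measurableSet_eq_fun (hH.comp continuous_mul_pair.measurable) (hH.comp measurable_snd)
  have h1 : ∀ᵐ g ∂(volume.restrict Om : Measure M3), ∀ᵐ M ∂(volume.restrict Om : Measure M3),
      H (g * M) = H M := by
    refine (ae_restrict_iff' measurableSet_Om).2 (Eventually.of_forall fun g hg => hinv g hg)
  have h2 : ∀ᵐ M ∂(volume.restrict Om : Measure M3), ∀ᵐ g ∂(volume.restrict Om : Measure M3),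
      H (g * M) = H M := (Measure.ae_ae_comm hme).1 h1
  have h3 : ∀ᵐ M ∂(volume.restrict Om : Measure M3), M ∈ Om := ae_restrict_mem measurableSet_Om
  have : NeBot (ae (volume.restrict Om : Measure M3)) := ae_neBot.2 restrict_Om_ne_zero
  obtain ⟨M0, hM0, hM0'⟩ := (h2.and h3).exists
  refine ⟨H M0, ?_⟩
  rw [ae_restrict_iff' measurableSet_Om] at hM0 ⊢
  rw [ae_iff] at hM0 ⊢
  have hdet : (0 : ℝ) < M0.det := hM0'
  have h4 := hR M0 hdet.ne' {N : M3 | ¬ (N ∈ Om → H N = H M0)}
  have h5 : (fun M : M3 => M * M0) ⁻¹' {N : M3 | ¬ (N ∈ Om → H N = H M0)} ⊆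
      {g : M3 | ¬ (g ∈ Om → H (g * M0) = H M0)} := by
    intro g hg hc
    apply hg
    intro hgo
    apply hc
    simp only [Om, mem_ofPred_eq, Matrix.det_mul] at hgo ⊢
    exact (mul_pos_iff_of_pos_right hdet).1 hgo
  rw [measure_mono_null h5 hM0] at h4
  have h6 : ENNReal.ofReal (|M0.det|⁻¹ ^ 3) ≠ 0 := by
    rw [Ne, ENNReal.ofReal_eq_zero, not_le]
    have : 0 < |M0.det| := abs_pos.2 hdet.ne'
    positivity
  rcases mul_eq_zero.1 h4.symm with h | h
  · exact absurd h h6
  · exact h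

end SAIL
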