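import Pool.Agent.SAIL.ERG.Targets

/-!
# SAIL, part G: a fundamental domain has finite and positive volume
-/

open MeasureTheory Set Filter Topology

namespace SAIL

lemma fv_cont_col (j : Fin 3) : Continuous (fun M : M3 => col M j) := by
  unfold col
  exact continuous_pi fun i => (continuous_apply j).comp (continuous_apply i)

lemma fv_cont_dot {f g : M3 → Fin 3 → ℝ} (hf : Continuous f) (hg : Continuous g) :
    Continuous (fun M : M3 => f M ⬝ᵥ g M) := by
  simp only [dotProduct]
  exact continuous_finsetSum _ fun i _ =>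
    ((continuous_apply i).comp hf).mul ((continuous_apply i).comp hg)

lemma fv_meas_Sg : MeasurableSet Sg := by
  have h01 := fv_cont_dot (fv_cont_col 0) (fv_cont_col 1)
  have h02 := fv_cont_dot (fv_cont_col 0) (fv_cont_col 2)
  have h12 := fv_cont_dot (fv_cont_col 1) (fv_cont_col 2)
  have h00 : Continuous (fun M : M3 => sq (col M 0)) := fv_cont_dot (fv_cont_col 0) (fv_cont_col 0)
  have h11 : Continuous (fun M : M3 => sq (col M 1)) := fv_cont_dot (fv_cont_col 1) (fv_cont_col 1)
  have hgr : Continuous (fun M : M3 => gr (col M 0) (col M 1)) := (h00.mul h11).sub (h01.pow 2)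
  have hd := continuous_det
  refine (isOpen_lt continuous_const hd).measurableSet.inter ?_
  refine (isClosed_le (continuous_const.mul h01.abs) h00).measurableSet.inter ?_
  refine (isClosed_le (continuous_const.mul (h00.pow 2)) (continuous_const.mul hgr)).measurableSet.inter ?_
  refine (isClosed_le (continuous_const.mul h02.abs) h00).measurableSet.inter ?_
  refine (isClosed_le (continuous_const.mul ((h00.mul h12).sub (h01.mul h02)).abs)
    hgr).measurableSet.inter ?_
  exact (isClosed_le (continuous_const.mul (hgr.pow 2))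
    ((continuous_const.mul h00).mul (hd.pow 2))).measurableSet

/-- the cone has positive volume -/
lemma fv_pos_Co : 0 < volume Co := by
  have ho : IsOpen {M : M3 | 0 < M.det ∧ M.det < 1} :=
    (isOpen_lt continuous_const continuous_det).inter (isOpen_lt continuous_det continuous_const)
  have hne : ({M : M3 | 0 < M.det ∧ M.det < 1}).Nonempty := by
    refine ⟨(1 / 2 : ℝ) • (1 : M3), ?_⟩
    simp only [mem_ofPred_eq, det_smul3, Matrix.det_one]
    norm_num
  refine lt_of_lt_of_le (ho.measure_pos volume hne) (measure_mono ?_)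
  exact fun M hM => ⟨hM.1, hM.2.le⟩

theorem p_FV (hUNF : T_UNF) (hSIE : T_SIE) (hVOL : T_VOL) : T_FV := by
  intro s hs
  constructor
  · have h := hUNF s hs (fun _ => 1) ((Sg ∩ Co).indicator fun _ => 1) measurable_const
      (measurable_const.indicator (fv_meas_Sg.inter measurableSet_Co)) (fun _ _ => rfl)
    simp only [one_mul] at h
    have h2 : ∫⁻ M in Co, (Sg ∩ Co).indicator (fun _ => (1 : ENNReal)) M ≤ volume (Sg ∩ Co) := by
      refine (setLIntegral_le_lintegral _ _).trans ?_
      rw [lintegral_indicator (fv_meas_Sg.inter measurableSet_Co)]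
      simp
    have h1 : volume s ≤ ∫⁻ M in s, ∑' γ : GZ,
        (Sg ∩ Co).indicator (fun _ => (1 : ENNReal)) (M * ic γ) := by
      rw [← setLIntegral_one]
      refine setLIntegral_mono' hs.meas fun M hM => ?_
      obtain ⟨γ, hγ⟩ := hSIE M (Co_subset_Om (hs.sub hM))
      refine le_trans ?_ (ENNReal.le_tsum γ)
      have hm : M * ic γ ∈ Sg ∩ Co := ⟨hγ, (mul_ic_mem_Co γ).2 (hs.sub hM)⟩
      rw [indicator_of_mem hm]
    exact lt_of_le_of_lt (h1.trans (h.le.trans h2)) hVOL
  · by_contra hc
    have h0 : volume s = 0 := by simpa using hc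
    have h := hUNF s hs (fun _ => 1) (fun _ => 1) measurable_const measurable_const
      (fun _ _ => rfl)
    rw [setLIntegral_measure_zero _ _ h0] at h
    simp only [one_mul, setLIntegral_one] at h
    exact fv_pos_Co.ne h

end SAIL
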