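import Pool.Agent.SAIL.ERG.Targets

/-!
# SAIL, part G: transvections and positive scalars generate `GL(3,R)^+`
-/

open MeasureTheory Set Filter Topology

namespace SAIL

/-- `diag(t, 1/t, 1)` as a product of transvections -/
lemma gen_h01 (t : ℝ) (ht : t ≠ 0) :
    Matrix.transvection (0 : Fin 3) 1 t * Matrix.transvection (1 : Fin 3) 0 (-t⁻¹) *
      Matrix.transvection (0 : Fin 3) 1 t * Matrix.transvection (0 : Fin 3) 1 (-1) *
      Matrix.transvection (1 : Fin 3) 0 1 * Matrix.transvection (0 : Fin 3) 1 (-1) =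
      Matrix.diagonal ![t, t⁻¹, 1] := by
  ext i j
  fin_cases i <;> fin_cases j <;>
    simp [Matrix.transvection, Matrix.mul_apply, Fin.sum_univ_three, Matrix.single_apply,
      Matrix.one_apply, ht]

/-- `diag(1, t, 1/t)` as a product of transvections -/
lemma gen_h12 (t : ℝ) (ht : t ≠ 0) :
    Matrix.transvection (1 : Fin 3) 2 t * Matrix.transvection (2 : Fin 3) 1 (-t⁻¹) *
      Matrix.transvection (1 : Fin 3) 2 t * Matrix.transvection (1 : Fin 3) 2 (-1) *
      Matrix.transvection (2 : Fin 3) 1 1 * Matrix.transvection (1 : Fin 3) 2 (-1) =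
      Matrix.diagonal ![1, t, t⁻¹] := by
  ext i j
  fin_cases i <;> fin_cases j <;>
    simp [Matrix.transvection, Matrix.mul_apply, Fin.sum_univ_three, Matrix.single_apply,
      Matrix.one_apply, ht]

theorem p_GEN : T_GEN := by
  intro S hmul htr hsc g hg
  have hone : (1 : M3) ∈ S := by
    have := htr 0 1 0 (by decide)
    rwa [Matrix.transvection_zero] at this
  have h01 : ∀ t : ℝ, t ≠ 0 → Matrix.diagonal ![t, t⁻¹, 1] ∈ S := by
    intro t ht
    rw [← gen_h01 t ht]
    refine hmul _ (hmul _ (hmul _ (hmul _ (hmul _ ?_ _ ?_) _ ?_) _ ?_) _ ?_) _ ?_ <;>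
      exact htr _ _ _ (by decide)
  have h12 : ∀ t : ℝ, t ≠ 0 → Matrix.diagonal ![1, t, t⁻¹] ∈ S := by
    intro t ht
    rw [← gen_h12 t ht]
    refine hmul _ (hmul _ (hmul _ (hmul _ (hmul _ ?_ _ ?_) _ ?_) _ ?_) _ ?_) _ ?_ <;>
      exact htr _ _ _ (by decide)
  have hlist : ∀ L : List (Matrix.TransvectionStruct (Fin 3) ℝ),
      (L.map Matrix.TransvectionStruct.toMatrix).prod ∈ S := by
    intro L
    induction L with
    | nil => simpa using hone
    | cons a L ih =>
      rw [List.map_cons, List.prod_cons]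
      exact hmul _ (htr _ _ _ a.hij) _ ih
  obtain ⟨L, L', D, hD⟩ :=
    Matrix.Pivot.exists_list_transvec_mul_diagonal_mul_list_transvec g
  have hdet : g.det = D 0 * D 1 * D 2 := by
    rw [hD, Matrix.det_mul, Matrix.det_mul, Matrix.TransvectionStruct.det_toMatrix_prod,
      Matrix.TransvectionStruct.det_toMatrix_prod, Matrix.det_diagonal, Fin.prod_univ_three]
    ring
  rw [hdet] at hg
  rw [hD]
  refine hmul _ (hmul _ (hlist L) _ ?_) _ (hlist L')
  -- the diagonal matrix
  set p : ℝ := D 0 * D 1 * D 2 with hp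
  set c : ℝ := p ^ ((1 : ℝ) / 3) with hc
  have hc0 : 0 < c := Real.rpow_pos_of_pos hg _
  have hc3 : c ^ 3 = p := by
    rw [hc, ← Real.rpow_natCast, ← Real.rpow_mul hg.le]
    norm_num
  have hD0 : D 0 ≠ 0 := by
    intro h; rw [hp, h] at hg; simp at hg
  have hD1 : D 1 ≠ 0 := by
    intro h; rw [hp, h] at hg; simp at hg
  have hD2 : D 2 ≠ 0 := by
    intro h; rw [hp, h] at hg; simp at hg
  have e : Matrix.diagonal D = (c • (1 : M3)) * Matrix.diagonal ![D 0 / c, (D 0 / c)⁻¹, 1] *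
      Matrix.diagonal ![1, D 0 * D 1 / c ^ 2, (D 0 * D 1 / c ^ 2)⁻¹] := by
    have hc' : c ≠ 0 := hc0.ne'
    rw [Matrix.smul_mul, Matrix.one_mul, Matrix.smul_mul, Matrix.diagonal_mul_diagonal]
    ext i j
    fin_cases i <;> fin_cases j <;>
      simp <;> field_simp
    rw [hc3, hp]
    ring
  rw [e]
  exact hmul _ (hmul _ (hsc c hc0) _ (h01 _ (div_ne_zero hD0 hc0.ne'))) _
    (h12 _ (div_ne_zero (mul_ne_zero hD0 hD1) (pow_ne_zero _ hc0.ne')))

end SAIL
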