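import Pool.Agent.SAIL.ERG.Targets

/-!
# SAIL, part G: invariance under left translations
-/

open MeasureTheory Set Filter Topology

namespace SAIL

theorem p_LINV (hU : T_UNF) (hL : T_LMUL) : T_LINV := by
  intro s hs g hg E hE hEi
  have hgu : IsUnit g.det := by rw [hg]; exact isUnit_one
  have hgi : g⁻¹ * g = 1 := Matrix.nonsing_inv_mul g hgu
  have hig : g * g⁻¹ = 1 := Matrix.mul_nonsing_inv g hgu
  have hdi : (g⁻¹).det = 1 := by
    rw [Matrix.det_nonsing_inv, hg]; simp
  -- the translated fundamental domain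
  set t : Set M3 := (fun M : M3 => g⁻¹ * M) ⁻¹' s with ht
  have htm : MeasurableSet t := (measurable_lmul g⁻¹) hs.meas
  have htCo : t ⊆ Co := by
    intro M hM
    have h1 : g⁻¹ * M ∈ Co := hs.sub hM
    simp only [Co, mem_ofPred_eq, Matrix.det_mul, hdi, one_mul] at h1 ⊢
    exact h1
  have hF : Measurable (E.indicator (fun _ => (1 : ENNReal))) := measurable_const.indicator hE
  have hψ : Measurable (t.indicator (fun _ => (1 : ENNReal))) := measurable_const.indicator htm
  have hFi : ∀ (γ : GZ) (M : M3), E.indicator (fun _ => (1 : ENNReal)) (M * ic γ)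
      = E.indicator (fun _ => (1 : ENNReal)) M := by
    intro γ M
    by_cases h : M ∈ E
    · rw [indicator_of_mem h, indicator_of_mem ((hEi γ M).2 h)]
    · rw [indicator_of_notMem h, indicator_of_notMem (fun h' => h ((hEi γ M).1 h'))]
  have key := hU s hs _ _ hF hψ hFi
  -- the sum over the group equals one on the cone
  have hsum : ∀ M ∈ s, ∑' γ : GZ, t.indicator (fun _ => (1 : ENNReal)) (M * ic γ) = 1 := by
    intro M hM
    have hMCo : g⁻¹ * M ∈ Co := by
      have h1 := hs.sub hM
      simp only [Co, mem_ofPred_eq, Matrix.det_mul, hdi, one_mul] at h1 ⊢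
      exact h1
    obtain ⟨γ₀, hγ₀⟩ := hs.ex _ hMCo
    rw [tsum_eq_single γ₀]
    · rw [indicator_of_mem]
      simp only [ht, mem_preimage, ← Matrix.mul_assoc]
      exact hγ₀
    · intro γ hγ
      rw [indicator_of_notMem]
      intro hmem
      simp only [ht, mem_preimage, ← Matrix.mul_assoc] at hmem
      apply hγ
      have h2 : g⁻¹ * M * ic γ₀ * ic (γ₀⁻¹ * γ) ∈ s := by
        rw [ic_mul, ← Matrix.mul_assoc, Matrix.mul_assoc (g⁻¹ * M) (ic γ₀) (ic γ₀⁻¹), ic_mul_inv,
          Matrix.mul_one]
        exact hmem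
      have h3 := hs.uni _ hγ₀ _ h2
      have h4 : γ = γ₀ := by
        rw [inv_mul_eq_one] at h3
        exact h3.symm
      exact h4
  have hl : ∫⁻ M in s, E.indicator (fun _ => (1 : ENNReal)) M *
      ∑' γ : GZ, t.indicator (fun _ => (1 : ENNReal)) (M * ic γ) = volume (s ∩ E) := by
    rw [setLIntegral_congr_fun hs.meas
      (g := E.indicator (fun _ => (1 : ENNReal))) (fun M hM => by simp only [hsum M hM, mul_one])]
    rw [lintegral_indicator hE, setLIntegral_one, Measure.restrict_apply hE, inter_comm]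
  have hr : ∫⁻ M in Co, E.indicator (fun _ => (1 : ENNReal)) M *
      t.indicator (fun _ => (1 : ENNReal)) M = volume (E ∩ t) := by
    have h1 : ∀ M, E.indicator (fun _ => (1 : ENNReal)) M *
        t.indicator (fun _ => (1 : ENNReal)) M = (E ∩ t).indicator (fun _ => (1 : ENNReal)) M := by
      intro M
      by_cases h : M ∈ E <;> by_cases h' : M ∈ t <;> simp [h, h']
    simp only [h1]
    rw [lintegral_indicator (hE.inter htm), setLIntegral_one,
      Measure.restrict_apply (hE.inter htm)]
    congr 1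
    exact inter_eq_left.2 (inter_subset_right.trans htCo)
  rw [hl, hr] at key
  rw [key]
  have h5 : E ∩ t = (fun M : M3 => g⁻¹ * M) ⁻¹' (s ∩ (fun M : M3 => g * M) ⁻¹' E) := by
    ext M
    simp only [ht, mem_inter_iff, mem_preimage, ← Matrix.mul_assoc, hig, Matrix.one_mul]
    exact and_comm
  rw [h5, hL g⁻¹ (by rw [hdi]; exact one_ne_zero), hdi]
  simp

end SAIL
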