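import Pool.Agent.SAIL.ERG.Targets

/-!
# SAIL, part G: Mahler's compactness criterion from reduction theory (helper96)
-/

open MeasureTheory Set Filter Topology

namespace SAIL

namespace MAH_

/-- the Gram identity: `|x|^2 G |z|^2 = (x.z)^2 G + (|x|^2 (y.z) - (x.y)(x.z))^2 + det^2 |x|^2` -/
theorem gram (N : M3) :
    sq (col N 0) * gr (col N 0) (col N 1) * sq (col N 2) =
      (col N 0 ⬝ᵥ col N 2) ^ 2 * gr (col N 0) (col N 1) +
      (sq (col N 0) * (col N 1 ⬝ᵥ col N 2) - (col N 0 ⬝ᵥ col N 1) * (col N 0 ⬝ᵥ col N 2)) ^ 2 +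
      N.det ^ 2 * sq (col N 0) := by
  simp only [sq, gr, col, dotProduct, Fin.sum_univ_three, Matrix.det_fin_three]
  ring

theorem entry_sq_le (N : M3) (i j : Fin 3) : (N i j) ^ 2 ≤ sq (col N j) := by
  simp only [sq, col, dotProduct]
  rw [show (N i j) ^ 2 = N i j * N i j by ring]
  exact Finset.single_le_sum (f := fun k => N k j * N k j) (fun k _ => mul_self_nonneg _)
    (Finset.mem_univ i)

theorem norm_sq_le (v : Fin 3 → ℝ) : ‖v‖ ^ 2 ≤ sq v := by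
  have h0 : 0 ≤ sq v := by
    simp only [sq, dotProduct]
    exact Finset.sum_nonneg fun k _ => mul_self_nonneg _
  have h1 : ‖v‖ ≤ Real.sqrt (sq v) := by
    rw [pi_norm_le_iff_of_nonneg (Real.sqrt_nonneg _)]
    intro i
    rw [Real.norm_eq_abs]
    refine Real.abs_le_sqrt ?_
    rw [show (v i) ^ 2 = v i * v i by ring]
    simp only [sq, dotProduct]
    exact Finset.single_le_sum (f := fun k => v k * v k) (fun k _ => mul_self_nonneg _)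
      (Finset.mem_univ i)
  calc ‖v‖ ^ 2 ≤ (Real.sqrt (sq v)) ^ 2 := pow_le_pow_left₀ (norm_nonneg _) h1 2
    _ = sq v := Real.sq_sqrt h0

theorem first_col (M : M3) (γ : GZ) :
    col (M * ic γ) 0 = M.mulVec (fun i => (((γ : Matrix (Fin 3) (Fin 3) ℤ) i 0 : ℤ) : ℝ)) := by
  funext i
  simp only [col, Matrix.mul_apply, Matrix.mulVec, dotProduct, ic, Matrix.map_apply]

theorem first_ne (γ : GZ) : (fun i => (γ : Matrix (Fin 3) (Fin 3) ℤ) i 0) ≠ 0 := by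
  intro h
  have h1 : (γ : Matrix (Fin 3) (Fin 3) ℤ).det = 0 :=
    Matrix.det_eq_zero_of_column_eq_zero 0 fun i => congrFun h i
  rw [γ.2] at h1
  exact one_ne_zero h1

/-- the inequalities between the columns of a matrix in the Siegel set -/
theorem bounds {X Y Z G a b c d s e : ℝ} (hs : 0 < s) (he : 0 < e) (hd : d = s ^ 3)
    (hX : (e * s) ^ 2 ≤ X) (h1 : 2 * |a| ≤ X) (h2 : 3 * X ^ 2 ≤ 4 * G) (h3 : 2 * |b| ≤ X)
    (h4 : 2 * |c| ≤ G) (h5 : 3 * G ^ 2 ≤ 4 * X * d ^ 2) (hG : G = X * Y - a ^ 2)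
    (hZ : X * G * Z = b ^ 2 * G + c ^ 2 + d ^ 2 * X) :
    X ≤ 4 / 3 * s ^ 2 ∧ Y ≤ 16 / 9 / e ^ 2 * s ^ 2 ∧
      Z ≤ (1 / 3 + 1 / 3 / e ^ 2 + 4 / 3 / e ^ 4) * s ^ 2 := by
  have hes : 0 < (e * s) ^ 2 := by positivity
  have hX0 : 0 < X := lt_of_lt_of_le hes hX
  have hG0 : 0 < G := by
    have : 0 < X ^ 2 := by positivity
    linarith
  have hs2 : 0 < s ^ 2 := by positivity
  have hs4 : 0 < s ^ 4 := by positivity
  have he2 : 0 < e ^ 2 := by positivity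
  have he4 : 0 < e ^ 4 := by positivity
  -- upper bound for `X`
  have uX : X ≤ 4 / 3 * s ^ 2 := by
    have k1 : (3 * X ^ 2) ^ 2 ≤ (4 * G) ^ 2 := pow_le_pow_left₀ (by positivity) h2 2
    have k2 : X * (27 * X ^ 3) ≤ X * (64 * d ^ 2) := by
      calc X * (27 * X ^ 3) = 3 * (3 * X ^ 2) ^ 2 := by ring
        _ ≤ 3 * (4 * G) ^ 2 := by linarith
        _ = 16 * (3 * G ^ 2) := by ring
        _ ≤ 16 * (4 * X * d ^ 2) := by linarith
        _ = X * (64 * d ^ 2) := by ring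
    have k3 : 27 * X ^ 3 ≤ 64 * d ^ 2 := le_of_mul_le_mul_left k2 hX0
    have k4 : (3 * X) ^ 3 ≤ (4 * s ^ 2) ^ 3 := by
      calc (3 * X) ^ 3 = 27 * X ^ 3 := by ring
        _ ≤ 64 * d ^ 2 := k3
        _ = (4 * s ^ 2) ^ 3 := by rw [hd]; ring
    have k5 : 3 * X ≤ 4 * s ^ 2 := le_of_pow_le_pow_left₀ (by norm_num) (by positivity) k4
    linarith
  -- upper bound for `G`
  have uG : G ≤ 4 / 3 * s ^ 4 := by
    have k1 : (3 * G) ^ 2 ≤ (4 * s ^ 4) ^ 2 := by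
      calc (3 * G) ^ 2 = 3 * (3 * G ^ 2) := by ring
        _ ≤ 3 * (4 * X * d ^ 2) := by linarith
        _ = 12 * d ^ 2 * X := by ring
        _ ≤ 12 * d ^ 2 * (4 / 3 * s ^ 2) := mul_le_mul_of_nonneg_left uX (by positivity)
        _ = (4 * s ^ 4) ^ 2 := by rw [hd]; ring
    have k2 : 3 * G ≤ 4 * s ^ 4 := le_of_pow_le_pow_left₀ (by norm_num) (by positivity) k1
    linarith
  -- lower bound for `G`
  have lG : 3 / 4 * (e ^ 4 * s ^ 4) ≤ G := by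
    have k1 : ((e * s) ^ 2) ^ 2 ≤ X ^ 2 := pow_le_pow_left₀ hes.le hX 2
    have k2 : ((e * s) ^ 2) ^ 2 = e ^ 4 * s ^ 4 := by ring
    rw [k2] at k1
    linarith
  have lX : e ^ 2 * s ^ 2 ≤ X := by
    have : (e * s) ^ 2 = e ^ 2 * s ^ 2 := by ring
    linarith
  refine ⟨uX, ?_, ?_⟩
  · -- `Y`
    have k1 : a ^ 2 ≤ X ^ 2 / 4 := by
      have k2 : (2 * |a|) ^ 2 ≤ X ^ 2 := pow_le_pow_left₀ (by positivity) h1 2
      have k3 : (2 * |a|) ^ 2 = 4 * a ^ 2 := by rw [mul_pow, sq_abs]; norm_num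
      linarith
    have k4 : X * Y ≤ 16 / 9 * s ^ 4 := by
      have k5 : X * Y = G + a ^ 2 := by linarith
      have k6 : X ^ 2 / 4 ≤ G / 3 := by linarith
      linarith
    by_cases hY : 0 ≤ Y
    · have k7 : e ^ 2 * s ^ 2 * Y ≤ 16 / 9 * s ^ 4 :=
        (mul_le_mul_of_nonneg_right lX hY).trans k4
      have k8 : s ^ 2 * (e ^ 2 * Y) ≤ s ^ 2 * (16 / 9 * s ^ 2) := by
        calc s ^ 2 * (e ^ 2 * Y) = e ^ 2 * s ^ 2 * Y := by ring
          _ ≤ 16 / 9 * s ^ 4 := k7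
          _ = s ^ 2 * (16 / 9 * s ^ 2) := by ring
      have k9 : e ^ 2 * Y ≤ 16 / 9 * s ^ 2 := le_of_mul_le_mul_left k8 hs2
      rw [show 16 / 9 / e ^ 2 * s ^ 2 = (16 / 9 * s ^ 2) / e ^ 2 by ring, le_div_iff₀ he2]
      linarith
    · push Not at hY
      have : 0 < 16 / 9 / e ^ 2 * s ^ 2 := by positivity
      linarith
  · -- `Z`
    have k1 : b ^ 2 ≤ X ^ 2 / 4 := by
      have k2 : (2 * |b|) ^ 2 ≤ X ^ 2 := pow_le_pow_left₀ (by positivity) h3 2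
      have k3 : (2 * |b|) ^ 2 = 4 * b ^ 2 := by rw [mul_pow, sq_abs]; norm_num
      linarith
    have k2 : c ^ 2 ≤ G ^ 2 / 4 := by
      have k2 : (2 * |c|) ^ 2 ≤ G ^ 2 := pow_le_pow_left₀ (by positivity) h4 2
      have k3 : (2 * |c|) ^ 2 = 4 * c ^ 2 := by rw [mul_pow, sq_abs]; norm_num
      linarith
    have hXG : 0 < X * G := mul_pos hX0 hG0
    have k3 : Z = (b ^ 2 * G + c ^ 2 + d ^ 2 * X) / (X * G) := by
      rw [eq_div_iff hXG.ne']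
      linarith
    have k4 : b ^ 2 * G + c ^ 2 + d ^ 2 * X ≤ X ^ 2 / 4 * G + G ^ 2 / 4 + d ^ 2 * X := by
      have := mul_le_mul_of_nonneg_right k1 hG0.le
      linarith
    have k5 : Z ≤ X / 4 + G / X / 4 + d ^ 2 / G := by
      rw [k3]
      calc (b ^ 2 * G + c ^ 2 + d ^ 2 * X) / (X * G)
          ≤ (X ^ 2 / 4 * G + G ^ 2 / 4 + d ^ 2 * X) / (X * G) :=
            div_le_div_of_nonneg_right k4 hXG.le
        _ = X / 4 + G / X / 4 + d ^ 2 / G := by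
            field_simp
    have k6 : G / X ≤ 4 / 3 / e ^ 2 * s ^ 2 := by
      rw [div_le_iff₀ hX0]
      calc G ≤ 4 / 3 * s ^ 4 := uG
        _ = 4 / 3 / e ^ 2 * s ^ 2 * (e ^ 2 * s ^ 2) := by field_simp
        _ ≤ 4 / 3 / e ^ 2 * s ^ 2 * X := mul_le_mul_of_nonneg_left lX (by positivity)
    have k7 : d ^ 2 / G ≤ 4 / 3 / e ^ 4 * s ^ 2 := by
      rw [div_le_iff₀ hG0]
      calc d ^ 2 = 4 / 3 / e ^ 4 * s ^ 2 * (3 / 4 * (e ^ 4 * s ^ 4)) := by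
            rw [hd]; field_simp
        _ ≤ 4 / 3 / e ^ 4 * s ^ 2 * G := mul_le_mul_of_nonneg_left lG (by positivity)
    calc Z ≤ X / 4 + G / X / 4 + d ^ 2 / G := k5
      _ ≤ (4 / 3 * s ^ 2) / 4 + (4 / 3 / e ^ 2 * s ^ 2) / 4 + 4 / 3 / e ^ 4 * s ^ 2 := by
          linarith
      _ = (1 / 3 + 1 / 3 / e ^ 2 + 4 / 3 / e ^ 4) * s ^ 2 := by ring

end MAH_

open MAH_ in
/-- the target `T_MAH` -/
theorem p_MAH (hS : T_SIE) : T_MAH := by
  intro δ hδ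
  obtain ⟨e, he, hed⟩ : ∃ e : ℝ, 0 < e ∧ e ^ 3 = δ := by
    refine ⟨δ ^ (1 / 3 : ℝ), Real.rpow_pos_of_pos hδ _, ?_⟩
    rw [← Real.rpow_natCast, ← Real.rpow_mul hδ.le]
    norm_num
  obtain ⟨C, hC⟩ : ∃ C : ℝ, C = 4 / 3 + 16 / 9 / e ^ 2 +
      (1 / 3 + 1 / 3 / e ^ 2 + 4 / 3 / e ^ 4) := ⟨_, rfl⟩
  have hC0 : 0 < C := by rw [hC]; positivity
  refine ⟨(Real.sqrt C) ^ 3, fun M hM hn => ?_⟩
  obtain ⟨γ, hγ⟩ := hS M hM
  refine ⟨γ, ?_⟩
  obtain ⟨hd0, h1, h2, h3, h4, h5⟩ := hγ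
  have hdet : (M * ic γ).det = M.det := det_mul_ic M γ
  have hx := hn _ (first_ne γ)
  rw [← first_col, ← hdet] at hx
  generalize M * ic γ = N at hd0 h1 h2 h3 h4 h5 hx
  obtain ⟨s, hs, hsd⟩ : ∃ s : ℝ, 0 < s ∧ s ^ 3 = N.det := by
    refine ⟨N.det ^ (1 / 3 : ℝ), Real.rpow_pos_of_pos hd0 _, ?_⟩
    rw [← Real.rpow_natCast, ← Real.rpow_mul hd0.le]
    norm_num
  have hX : (e * s) ^ 2 ≤ sq (col N 0) := by
    have k1 : (e * s) ^ 3 ≤ ‖col N 0‖ ^ 3 := by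
      rw [mul_pow, hed, hsd]
      exact hx
    have k2 : e * s ≤ ‖col N 0‖ := le_of_pow_le_pow_left₀ (by norm_num) (norm_nonneg _) k1
    exact (pow_le_pow_left₀ (by positivity) k2 2).trans (norm_sq_le _)
  obtain ⟨b1, b2, b3⟩ := bounds (Y := sq (col N 1)) (Z := sq (col N 2)) hs he hsd.symm hX h1 h2 h3
    h4 h5 rfl (gram N)
  refine ⟨hd0, ?_⟩
  have hs2 : 0 < s ^ 2 := by positivity
  have hcol : ∀ j : Fin 3, sq (col N j) ≤ C * s ^ 2 := by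
    have q1 : 0 ≤ 4 / 3 * s ^ 2 := by positivity
    have q2 : 0 ≤ 16 / 9 / e ^ 2 * s ^ 2 := by positivity
    have q3 : 0 ≤ (1 / 3 + 1 / 3 / e ^ 2 + 4 / 3 / e ^ 4) * s ^ 2 := by positivity
    have q4 : C * s ^ 2 = 4 / 3 * s ^ 2 + 16 / 9 / e ^ 2 * s ^ 2 +
        (1 / 3 + 1 / 3 / e ^ 2 + 4 / 3 / e ^ 4) * s ^ 2 := by
      rw [hC]
      ring
    intro j
    fin_cases j
    · change sq (col N 0) ≤ _
      linarith
    · change sq (col N 1) ≤ _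
      linarith
    · change sq (col N 2) ≤ _
      linarith
  have hnorm : ‖N‖ ≤ Real.sqrt C * s := by
    rw [norm_le_iff3 (by positivity)]
    intro i j
    have k1 : (N i j) ^ 2 ≤ C * s ^ 2 := (entry_sq_le N i j).trans (hcol j)
    have k2 : |N i j| ≤ Real.sqrt (C * s ^ 2) := Real.abs_le_sqrt k1
    rwa [Real.sqrt_mul hC0.le, Real.sqrt_sq hs.le] at k2
  calc ‖N‖ ^ 3 ≤ (Real.sqrt C * s) ^ 3 := pow_le_pow_left₀ (norm_nonneg _) hnorm 3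
    _ = (Real.sqrt C) ^ 3 * N.det := by rw [mul_pow, hsd]

end SAIL
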