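import Pool.Agent.SAIL.ERG.Targets

/-!
# SAIL, part G: the dual form of Mahler's criterion
-/

open MeasureTheory Set Filter Topology

namespace SAIL

namespace MAHDx

/-- the contragredient element -/
def tin (γ : GZ) : GZ := (Matrix.SpecialLinearGroup.transpose γ)⁻¹

lemma ic_transpose (γ : GZ) : ic (Matrix.SpecialLinearGroup.transpose γ) = (ic γ).transpose := by
  ext i j; rfl

/-- `(adj (M * ic (tin γ)))^T = (adj M)^T * ic γ` -/
lemma adj_tin (M : M3) (γ : GZ) :
    (M * ic (tin γ)).adjugate.transpose = M.adjugate.transpose * ic γ := by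
  rw [Matrix.adjugate_mul_distrib, Matrix.transpose_mul]
  congr 1
  have h1 : ic (tin γ) * (ic γ).transpose = 1 := by
    rw [← ic_transpose]; exact ic_inv_mul _
  have h2 : (ic (tin γ)).adjugate = (ic γ).transpose := by
    have h3 := Matrix.adjugate_mul (ic (tin γ))
    rw [det_ic, one_smul] at h3
    calc (ic (tin γ)).adjugate = (ic (tin γ)).adjugate * (ic (tin γ) * (ic γ).transpose) := by
          rw [h1, Matrix.mul_one]
      _ = (ic (tin γ)).adjugate * ic (tin γ) * (ic γ).transpose := by rw [Matrix.mul_assoc]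
      _ = (ic γ).transpose := by rw [h3, Matrix.one_mul]
  rw [h2, Matrix.transpose_transpose]

lemma adj_norm (N : M3) : ‖N.adjugate‖ ≤ 2 * ‖N‖ ^ 2 := by
  rw [norm_le_iff3 (by positivity)]
  have h := entry_le_norm N
  have key : ∀ a b c d : Fin 3, ∀ e f g' h' : Fin 3,
      |N a b * N c d - N e f * N g' h'| ≤ 2 * ‖N‖ ^ 2 := by
    intro a b c d e f g' h'
    have h1 : |N a b * N c d| ≤ ‖N‖ * ‖N‖ := by
      rw [abs_mul]; exact mul_le_mul (h _ _) (h _ _) (abs_nonneg _) (norm_nonneg _)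
    have h2 : |N e f * N g' h'| ≤ ‖N‖ * ‖N‖ := by
      rw [abs_mul]; exact mul_le_mul (h _ _) (h _ _) (abs_nonneg _) (norm_nonneg _)
    calc |N a b * N c d - N e f * N g' h'| ≤ |N a b * N c d| + |N e f * N g' h'| := abs_sub _ _
      _ ≤ 2 * ‖N‖ ^ 2 := by nlinarith
  have key2 : ∀ a b c d : Fin 3, ∀ e f g' h' : Fin 3,
      |-(N a b * N c d) + N e f * N g' h'| ≤ 2 * ‖N‖ ^ 2 := by
    intro a b c d e f g' h'
    have := key a b c d e f g' h'
    rwa [← abs_neg, neg_sub, sub_eq_neg_add] at this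
  intro i j
  rw [Matrix.adjugate_fin_three]
  fin_cases i <;> fin_cases j <;> simp <;> first | apply key | apply key2

end MAHDx

open MAHDx in
theorem p_MAHDx (hM : T_MAH) : T_MAHD := by
  intro δ hδ
  obtain ⟨R, hR⟩ := hM δ hδ
  refine ⟨8 * R ^ 2, ?_⟩
  intro M hMO hcov
  have hdet : 0 < M.det := hMO
  have hd2 : (M.adjugate.transpose).det = M.det ^ 2 := by
    rw [Matrix.det_transpose, Matrix.det_adjugate]; simp
  obtain ⟨γ, hγ⟩ := hR M.adjugate.transpose (by
    show 0 < (M.adjugate.transpose).det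
    rw [hd2]; positivity) (by
    intro n hn
    rw [hd2]
    have h := hcov n hn
    rw [Matrix.mulVec_transpose]
    exact h)
  refine ⟨tin γ, ?_⟩
  set N : M3 := M * ic (tin γ) with hN
  have hNdet : N.det = M.det := det_mul_ic M (tin γ)
  have h1 : ‖N.adjugate‖ ^ 3 ≤ R * M.det ^ 2 := by
    have h2 := hγ.2
    rw [← adj_tin, Matrix.det_transpose, Matrix.det_adjugate, ← hN, hNdet] at h2
    have h3 : ‖N.adjugate.transpose‖ = ‖N.adjugate‖ := Matrix.norm_transpose _
    rw [h3] at h2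
    simpa using h2
  have h4 : N.adjugate.adjugate = N.det • N := by
    have := Matrix.adjugate_adjugate N (by simp)
    simpa using this
  have h5 : N.det * ‖N‖ ≤ 2 * ‖N.adjugate‖ ^ 2 := by
    have h6 := adj_norm N.adjugate
    rw [h4, norm_smul, Real.norm_eq_abs, abs_of_pos (by rw [hNdet]; exact hdet)] at h6
    exact h6
  refine ⟨by rw [hNdet]; exact hdet, ?_⟩
  rw [hNdet] at h5 ⊢
  have h7 : (M.det * ‖N‖) ^ 3 ≤ (2 * ‖N.adjugate‖ ^ 2) ^ 3 :=
    pow_le_pow_left₀ (by positivity) h5 3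
  have h8 : (‖N.adjugate‖ ^ 3) ^ 2 ≤ (R * M.det ^ 2) ^ 2 :=
    pow_le_pow_left₀ (by positivity) h1 2
  have h9 : M.det ^ 3 * ‖N‖ ^ 3 ≤ M.det ^ 3 * (8 * R ^ 2 * M.det) := by
    calc M.det ^ 3 * ‖N‖ ^ 3 = (M.det * ‖N‖) ^ 3 := by ring
      _ ≤ (2 * ‖N.adjugate‖ ^ 2) ^ 3 := h7
      _ = 8 * (‖N.adjugate‖ ^ 3) ^ 2 := by ring
      _ ≤ 8 * (R * M.det ^ 2) ^ 2 := by linarith
      _ = M.det ^ 3 * (8 * R ^ 2 * M.det) := by ring
  exact le_of_mul_le_mul_left h9 (by positivity)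

end SAIL
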