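import Pool.Agent.SAIL.ERG.Targets

/-!
# SAILG-MET: the mean ergodic theorem with a common subsequence
-/

open MeasureTheory Set Filter Topology

namespace SAIL

namespace MET_

open scoped ENNReal

variable {X : Type} [MeasurableSpace X] {ν : Measure X}

/-- the Koopman operator -/
noncomputable def U (T : X → X) (hT : MeasurePreserving T ν ν) : Lp ℝ 2 ν →L[ℝ] Lp ℝ 2 ν :=
  (Lp.compMeasurePreservingₗᵢ (E := ℝ) (p := 2) ℝ T hT).toContinuousLinearMap

theorem U_apply (T : X → X) (hT : MeasurePreserving T ν ν) (g : Lp ℝ 2 ν) :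
    U T hT g = Lp.compMeasurePreserving T hT g := rfl

theorem U_norm (T : X → X) (hT : MeasurePreserving T ν ν) : ‖U T hT‖ ≤ 1 :=
  LinearIsometry.norm_toContinuousLinearMap_le _

theorem U_inv (T T' : X → X) (hT : MeasurePreserving T ν ν) (hT' : MeasurePreserving T' ν ν)
    (h : ∀ x, T (T' x) = x) (g : Lp ℝ 2 ν) : U T' hT' (U T hT g) = g := by
  rw [U_apply, U_apply, ← Lp.compMeasurePreserving_comp_apply g hT hT']
  apply Lp.ext
  refine (Lp.coeFn_compMeasurePreserving g _).trans ?_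
  have : (g : X → ℝ) ∘ (T ∘ T') = g := by
    funext x
    simp only [Function.comp_apply, h]
  rw [this]

theorem U_iter (T : X → X) (hT : MeasurePreserving T ν ν) (k : ℕ) (g : Lp ℝ 2 ν) :
    (U T hT)^[k] g = Lp.compMeasurePreserving T^[k] (hT.iterate k) g := by
  have h := Lp.compMeasurePreserving_iterate (E := ℝ) (p := 2) hT k
  have h2 : (U T hT : Lp ℝ 2 ν → Lp ℝ 2 ν) = Lp.compMeasurePreserving T hT := by
    funext g
    rfl
  rw [h2]
  exact congrFun h g

theorem sum_ae (T : X → X) (hT : MeasurePreserving T ν ν) (F : X → ℝ) (hF : MemLp F 2 ν)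
    (n : ℕ) : ((∑ k ∈ Finset.range n, (U T hT)^[k] (hF.toLp F) : Lp ℝ 2 ν) : X → ℝ) =ᵐ[ν]
      fun x => ∑ k ∈ Finset.range n, F (T^[k] x) := by
  induction n with
  | zero =>
    simp only [Finset.range_zero, Finset.sum_empty]
    exact Lp.coeFn_zero ℝ 2 ν
  | succ n ih =>
    rw [Finset.sum_range_succ]
    have h1 : (((U T hT)^[n] (hF.toLp F) : Lp ℝ 2 ν) : X → ℝ) =ᵐ[ν] fun x => F (T^[n] x) := by
      rw [U_iter]
      refine (Lp.coeFn_compMeasurePreserving _ _).trans ?_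
      exact (hT.iterate n).quasiMeasurePreserving.ae_eq_comp hF.coeFn_toLp
    filter_upwards [Lp.coeFn_add (∑ k ∈ Finset.range n, (U T hT)^[k] (hF.toLp F))
      ((U T hT)^[n] (hF.toLp F)), ih, h1] with x h2 h3 h4
    rw [h2, Pi.add_apply, h3, h4, Finset.sum_range_succ]

theorem avg_ae (T : X → X) (hT : MeasurePreserving T ν ν) (F : X → ℝ) (hF : MemLp F 2 ν)
    (n : ℕ) : ((birkhoffAverage ℝ (U T hT) _root_.id n (hF.toLp F) : Lp ℝ 2 ν) : X → ℝ) =ᵐ[ν]
      birkhoffAverage ℝ T F n := by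
  unfold birkhoffAverage birkhoffSum
  simp only [id_eq]
  filter_upwards [Lp.coeFn_smul ((n : ℝ)⁻¹) (∑ k ∈ Finset.range n, (U T hT)^[k] (hF.toLp F)),
    sum_ae T hT F hF n] with x h1 h2
  rw [h1, Pi.smul_apply, h2]

theorem proj_congr (K K' : Submodule ℝ (Lp ℝ 2 ν)) [K.HasOrthogonalProjection]
    [K'.HasOrthogonalProjection] (h : K = K') (x : Lp ℝ 2 ν) :
    (K.orthogonalProjectionOnto x : Lp ℝ 2 ν) = K'.orthogonalProjectionOnto x := by
  subst h
  rfl

theorem locus_le (T T' : X → X) (hT : MeasurePreserving T ν ν) (hT' : MeasurePreserving T' ν ν)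
    (h : ∀ x, T (T' x) = x) :
    (U T hT).eqLocus (1 : Lp ℝ 2 ν →L[ℝ] Lp ℝ 2 ν) ≤
      (U T' hT').eqLocus (1 : Lp ℝ 2 ν →L[ℝ] Lp ℝ 2 ν) := by
  intro g hg
  have hg' : U T hT g = g := hg
  have h2 := U_inv T T' hT hT' h g
  rw [hg'] at h2
  exact h2

/-- `L2` convergence -/
theorem conv (T T' : X → X) (hT : MeasurePreserving T ν ν) (hT' : MeasurePreserving T' ν ν)
    (h : ∀ x, T (T' x) = x) (h' : ∀ x, T' (T x) = x) (F : X → ℝ) (hF : MemLp F 2 ν) :
    ∃ Q : X → ℝ, MemLp Q 2 ν ∧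
      Tendsto (fun n => eLpNorm (birkhoffAverage ℝ T F n - Q) 2 ν) atTop (𝓝 0) ∧
      Tendsto (fun n => eLpNorm (birkhoffAverage ℝ T' F n - Q) 2 ν) atTop (𝓝 0) := by
  have key : ∀ (S : X → X) (hS : MeasurePreserving S ν ν) (Q : Lp ℝ 2 ν),
      Q = (((U S hS).eqLocus (1 : Lp ℝ 2 ν →L[ℝ] Lp ℝ 2 ν)).orthogonalProjectionOnto
          (hF.toLp F) : Lp ℝ 2 ν) →
      Tendsto (fun n => eLpNorm (birkhoffAverage ℝ S F n - (Q : X → ℝ)) 2 ν) atTop (𝓝 0) := by
    intro S hS Q hQ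
    have h1 := (U S hS).tendsto_birkhoffAverage_orthogonalProjection (U_norm S hS) (hF.toLp F)
    rw [← hQ, Lp.tendsto_Lp_iff_tendsto_eLpNorm'] at h1
    refine h1.congr fun n => eLpNorm_congr_ae ?_
    filter_upwards [avg_ae S hS F hF n] with x hx
    rw [Pi.sub_apply, Pi.sub_apply, hx]
  exact ⟨(((U T hT).eqLocus (1 : Lp ℝ 2 ν →L[ℝ] Lp ℝ 2 ν)).orthogonalProjectionOnto
          (hF.toLp F) : Lp ℝ 2 ν), Lp.memLp _, key T hT _ rfl, key T' hT' _
    (proj_congr _ _ (le_antisymm (locus_le T T' hT hT' h) (locus_le T' T hT' hT h')) _)⟩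

end MET_

open MET_ in
/-- MET -/
theorem p_MET : T_MET := by
  intro X _ ν _ T T' hT hT' h h' F hF hB
  obtain ⟨B, hB⟩ := hB
  have hL : MemLp F 2 ν := MemLp.of_bound hF.aestronglyMeasurable B
    (Filter.Eventually.of_forall fun x => by rw [Real.norm_eq_abs]; exact hB x)
  obtain ⟨Q, hQ2, h1, h2⟩ := MET_.conv T T' hT hT' h h' F hL
  have hmeas : ∀ (S : X → X), MeasurePreserving S ν ν → ∀ n : ℕ,
      AEStronglyMeasurable (birkhoffAverage ℝ S F n) ν := by
    intro S hS n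
    exact (Lp.aestronglyMeasurable _).congr (avg_ae S hS F hL n)
  have hQ : AEStronglyMeasurable Q ν := hQ2.aestronglyMeasurable
  have m1 := tendstoInMeasure_of_tendsto_eLpNorm (by norm_num) (hmeas T hT) hQ h1
  obtain ⟨φ, hφ, hφ2⟩ := m1.exists_seq_tendsto_ae
  have m2 := tendstoInMeasure_of_tendsto_eLpNorm (by norm_num) (fun n => hmeas T' hT' (φ n)) hQ
    (h2.comp hφ.tendsto_atTop)
  obtain ⟨ψ, hψ, hψ2⟩ := m2.exists_seq_tendsto_ae
  refine ⟨Q, hQ2.integrable (by norm_num), ?_, φ ∘ ψ, hφ.comp hψ, ?_, hψ2⟩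
  · have h3 : Tendsto (fun n => eLpNorm (birkhoffAverage ℝ T F n - Q) 1 ν) atTop (𝓝 0) := by
      have h4 : Tendsto (fun n => eLpNorm (birkhoffAverage ℝ T F n - Q) 2 ν *
          ν Set.univ ^ (1 / (1 : ENNReal).toReal - 1 / (2 : ENNReal).toReal)) atTop (𝓝 0) := by
        have h5 := ENNReal.Tendsto.mul_const
          (b := ν Set.univ ^ (1 / (1 : ENNReal).toReal - 1 / (2 : ENNReal).toReal)) h1
          (Or.inr (ENNReal.rpow_ne_top_of_nonneg (by norm_num) (measure_ne_top ν _)))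
        rwa [zero_mul] at h5
      exact tendsto_of_tendsto_of_tendsto_of_le_of_le tendsto_const_nhds h4
        (fun n => zero_le) fun n => eLpNorm_le_eLpNorm_mul_rpow_measure_univ (by norm_num)
          ((hmeas T hT n).sub hQ)
    have h6 := (ENNReal.tendsto_toReal ENNReal.zero_ne_top).comp h3
    rw [ENNReal.toReal_zero] at h6
    refine h6.congr fun n => ?_
    simp only [Function.comp_apply]
    rw [eLpNorm_one_eq_lintegral_enorm, ← integral_norm_eq_lintegral_enorm ((hmeas T hT n).sub hQ)]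
    rfl
  · filter_upwards [hφ2] with x hx
    exact hx.comp hψ.tendsto_atTop

end SAIL
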