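import Pool.Agent.SAIL.ERG.Targets

/-!
# SAIL, part G: the action of `SL(3,Z)` on the space of matrices of positive determinant is free
and properly discontinuous
-/

open MeasureTheory Set Filter Topology

namespace SAIL

/-- the quotient `N^{-1} N'`, written with the adjugate -/
noncomputable def nbQ (p : M3 × M3) : M3 := (p.1.det)⁻¹ • (p.1.adjugate * p.2)

lemma nbQ_mul_ic {N : M3} (hN : N ∈ Om) (γ : GZ) : nbQ (N, N * ic γ) = ic γ := by
  have h0 : N.det ≠ 0 := ne_of_gt hN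
  unfold nbQ
  simp only
  rw [← Matrix.mul_assoc, Matrix.adjugate_mul, Matrix.smul_mul, Matrix.one_mul, smul_smul,
    inv_mul_cancel₀ h0, one_smul]

lemma nbQ_self {N : M3} (hN : N ∈ Om) : nbQ (N, N) = 1 := by
  have h := nbQ_mul_ic hN 1
  rwa [ic_one, Matrix.mul_one] at h

lemma nbQ_cont {M : M3} (hM : M ∈ Om) : ContinuousAt nbQ (M, M) := by
  have h0 : M.det ≠ 0 := ne_of_gt hM
  have h1 : ContinuousAt (fun p : M3 × M3 => (p.1.det)⁻¹) (M, M) := by
    refine ContinuousAt.inv₀ ?_ h0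
    exact (continuous_det.comp continuous_fst).continuousAt
  have h2 : Continuous (fun p : M3 × M3 => p.1.adjugate * p.2) :=
    Continuous.matrix_mul (Continuous.matrix_adjugate continuous_fst) continuous_snd
  exact h1.smul h2.continuousAt

lemma eq_one_of_near (γ : GZ) (h : ‖ic γ - 1‖ < 1) : γ = 1 := by
  apply Matrix.SpecialLinearGroup.ext
  intro i j
  have h1 : |(ic γ - 1) i j| < 1 := lt_of_le_of_lt (entry_le_norm _ i j) h
  have h2 : (ic γ - 1) i j =
      (((γ : Matrix (Fin 3) (Fin 3) ℤ) i j - (1 : Matrix (Fin 3) (Fin 3) ℤ) i j : ℤ) : ℝ) := by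
    rw [Matrix.sub_apply]
    unfold ic
    rw [Matrix.map_apply]
    by_cases hij : i = j
    · subst hij; simp
    · simp [Matrix.one_apply_ne hij]
  rw [h2] at h1
  have h3 : |(γ : Matrix (Fin 3) (Fin 3) ℤ) i j - (1 : Matrix (Fin 3) (Fin 3) ℤ) i j| < 1 := by
    exact_mod_cast h1
  have h4 := Int.abs_lt_one_iff.1 h3
  rw [Matrix.SpecialLinearGroup.coe_one]
  omega

theorem p_NBHD : T_NBHD := by
  intro M hM
  have hc := nbQ_cont hM
  have hv : {p : M3 × M3 | ‖nbQ p - 1‖ < 1} ∈ 𝓝 (M, M) := by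
    have h1 : ContinuousAt (fun p : M3 × M3 => ‖nbQ p - 1‖) (M, M) :=
      (hc.sub continuousAt_const).norm
    have h2 : ‖nbQ (M, M) - 1‖ < 1 := by
      rw [nbQ_self hM, sub_self, norm_zero]; exact one_pos
    exact h1.eventually (gt_mem_nhds h2)
  rw [mem_nhds_prod_iff] at hv
  obtain ⟨u, hu, v, hv', huv⟩ := hv
  refine ⟨interior (u ∩ v) ∩ Om, isOpen_interior.inter isOpen_Om,
    ⟨mem_interior_iff_mem_nhds.2 (inter_mem hu hv'), hM⟩, inter_subset_right, ?_⟩
  intro γ N hN hN'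
  have h1 : (N, N * ic γ) ∈ u ×ˢ v :=
    ⟨(interior_subset hN.1).1, (interior_subset hN'.1).2⟩
  have h2 : ‖nbQ (N, N * ic γ) - 1‖ < 1 := huv h1
  rw [nbQ_mul_ic hN.2] at h2
  exact eq_one_of_near γ h2

end SAIL
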