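import Pool.Agent.SAIL.ERG.Targets

/-!
# SAIL, part G: orbit sums are lattice functions
-/

open MeasureTheory Set Filter Topology

namespace SAIL

namespace PSL

/-- points of the orbit near the support -/
lemma mem_KK_of {R : ℝ} {u N : M3} (hu : 3 * ‖u - 1‖ ≤ 1 / 2) (hd : 0 < u.det) (hd2 : u.det ≤ 2)
    (h : u * N ∈ KK R) : N ∈ KK (16 * |R|) := by
  obtain ⟨h1, h2⟩ := h
  rw [Matrix.det_mul] at h1 h2
  have hN : 0 < N.det := (mul_pos_iff_of_pos_left hd).1 h1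
  refine ⟨hN, ?_⟩
  have h3 : ‖N‖ ≤ 2 * ‖u * N‖ := by
    have h4 : N = u * N - (u - 1) * N := by
      rw [Matrix.sub_mul, Matrix.one_mul]
      abel
    have h5 : ‖N‖ ≤ ‖u * N‖ + ‖(u - 1) * N‖ := by
      calc ‖N‖ = ‖u * N - (u - 1) * N‖ := by rw [← h4]
        _ ≤ ‖u * N‖ + ‖(u - 1) * N‖ := norm_sub_le _ _
    have h6 : ‖(u - 1) * N‖ ≤ 3 * ‖u - 1‖ * ‖N‖ := norm_mul3 _ _
    have h7 : 3 * ‖u - 1‖ * ‖N‖ ≤ 1 / 2 * ‖N‖ := mul_le_mul_of_nonneg_right hu (norm_nonneg _)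
    linarith
  have h8 : ‖N‖ ^ 3 ≤ (2 * ‖u * N‖) ^ 3 := pow_le_pow_left₀ (norm_nonneg _) h3 3
  have h9 : R * (u.det * N.det) ≤ |R| * (2 * N.det) := by
    calc R * (u.det * N.det) ≤ |R| * (u.det * N.det) :=
          mul_le_mul_of_nonneg_right (le_abs_self R) h1.le
      _ ≤ |R| * (2 * N.det) := by gcongr
  calc ‖N‖ ^ 3 ≤ (2 * ‖u * N‖) ^ 3 := h8
    _ = 8 * ‖u * N‖ ^ 3 := by ring
    _ ≤ 8 * (R * (u.det * N.det)) := by linarith
    _ ≤ 8 * (|R| * (2 * N.det)) := by linarith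
    _ = 16 * |R| * N.det := by ring

lemma KK_mono16 {R : ℝ} {N : M3} (h : N ∈ KK R) : N ∈ KK (16 * |R|) := by
  refine ⟨h.1, h.2.trans ?_⟩
  have h1 : R ≤ 16 * |R| := by
    have := le_abs_self R
    have := abs_nonneg R
    linarith
  exact mul_le_mul_of_nonneg_right h1 h.1.le

/-- the orbit sum as a finite sum -/
lemma PS_eq_sum (ψ : M3 → ℝ) (M : M3) (S : Set GZ) (hS : S.Finite)
    (h : ∀ γ, ψ (M * ic γ) ≠ 0 → γ ∈ S) : PS ψ M = ∑ γ ∈ hS.toFinset, ψ (M * ic γ) := by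
  unfold PS
  refine tsum_eq_sum fun γ hγ => ?_
  by_contra hc
  exact hγ (hS.mem_toFinset.2 (h γ hc))

end PSL

theorem p_PS (hF : T_FIN) (hC : T_CSF) : T_PS := by
  intro R ψ hψ
  obtain ⟨N, hN⟩ := hF (16 * |R|)
  obtain ⟨⟨B, hB⟩, hU⟩ := hC R ψ hψ
  have hB0 : 0 ≤ B := (abs_nonneg _).trans (hB 0)
  -- uniform continuity on the left
  have hunif : ∀ ε : ℝ, 0 < ε → ∃ δ : ℝ, 0 < δ ∧ ∀ u : M3, ‖u - 1‖ < δ →
      ∀ M ∈ Om, |PS ψ (u * M) - PS ψ M| ≤ ε := by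
    intro ε hε
    obtain ⟨δ₂, hδ₂, h2⟩ := hU (ε / (N + 1)) (by positivity)
    have hdet : ∀ᶠ u : M3 in 𝓝 1, |u.det - 1| < 1 := by
      have h3 : Tendsto (fun u : M3 => u.det) (𝓝 1) (𝓝 1) := by
        have h4 := continuous_det.tendsto (1 : M3)
        rwa [Matrix.det_one] at h4
      have h5 := h3.eventually (Metric.ball_mem_nhds (1 : ℝ) one_pos)
      filter_upwards [h5] with u hu
      rwa [Real.dist_eq] at hu
    obtain ⟨δ₁, hδ₁, h1⟩ := Metric.eventually_nhds_iff.1 hdet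
    refine ⟨min (min δ₁ δ₂) (1 / 6), by positivity, ?_⟩
    intro u hu M hM
    have hu1 : ‖u - 1‖ < δ₁ := hu.trans_le ((min_le_left _ _).trans (min_le_left _ _))
    have hu2 : ‖u - 1‖ < δ₂ := hu.trans_le ((min_le_left _ _).trans (min_le_right _ _))
    have hu3 : 3 * ‖u - 1‖ ≤ 1 / 2 := by
      have := hu.trans_le (min_le_right _ _)
      linarith
    have hd : |u.det - 1| < 1 := h1 (by rw [dist_eq_norm]; exact hu1)
    rw [abs_lt] at hd
    obtain ⟨hfin, hcard⟩ := hN M hM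
    have hs1 : PS ψ M = ∑ γ ∈ hfin.toFinset, ψ (M * ic γ) :=
      PSL.PS_eq_sum ψ M _ hfin fun γ hγ => PSL.KK_mono16 (hψ.supp _ hγ)
    have hs2 : PS ψ (u * M) = ∑ γ ∈ hfin.toFinset, ψ (u * M * ic γ) :=
      PSL.PS_eq_sum ψ (u * M) _ hfin fun γ hγ => by
        have h3 := hψ.supp _ hγ
        rw [Matrix.mul_assoc] at h3
        exact PSL.mem_KK_of hu3 (by linarith) (by linarith) h3
    rw [hs1, hs2, ← Finset.sum_sub_distrib]
    calc |∑ γ ∈ hfin.toFinset, (ψ (u * M * ic γ) - ψ (M * ic γ))|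
        ≤ ∑ γ ∈ hfin.toFinset, |ψ (u * M * ic γ) - ψ (M * ic γ)| :=
          Finset.abs_sum_le_sum_abs _ _
      _ ≤ ∑ _γ ∈ hfin.toFinset, ε / (N + 1) := by
          refine Finset.sum_le_sum fun γ _ => ?_
          rw [Matrix.mul_assoc]
          exact h2 u hu2 _ ((mul_ic_mem_Om γ).2 hM)
      _ = (hfin.toFinset.card : ℝ) * (ε / (N + 1)) := by
          rw [Finset.sum_const, nsmul_eq_mul]
      _ ≤ (N : ℝ) * (ε / (N + 1)) := by
          have h4 : hfin.toFinset.card ≤ N := by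
            rw [← Set.ncard_eq_toFinset_card _ hfin]
            exact hcard
          have h5 : (hfin.toFinset.card : ℝ) ≤ (N : ℝ) := by exact_mod_cast h4
          exact mul_le_mul_of_nonneg_right h5 (by positivity)
      _ ≤ ε := by
          rw [mul_div_assoc', div_le_iff₀ (by positivity)]
          nlinarith
  refine ⟨fun γ M => PS_gam ψ γ M, ?_, ?_, ?_, hunif⟩
  · -- scale
    intro t ht M
    unfold PS
    refine tsum_congr fun γ => ?_
    rw [Matrix.smul_mul]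
    exact hψ.scale t ht _
  · -- continuity
    intro M hM
    rw [ContinuousWithinAt, Metric.tendsto_nhds]
    intro ε hε
    obtain ⟨δ, hδ, h⟩ := hunif (ε / 2) (by positivity)
    have hr : 0 < δ / (3 * ‖M⁻¹‖ + 1) := by positivity
    have hdet : IsUnit M.det := (ne_of_gt hM).isUnit
    have hev : ∀ᶠ L : M3 in 𝓝 M, dist L M < δ / (3 * ‖M⁻¹‖ + 1) := Metric.ball_mem_nhds M hr
    filter_upwards [mem_nhdsWithin_of_mem_nhds hev] with L hL
    have hL' : ‖L - M‖ < δ / (3 * ‖M⁻¹‖ + 1) := by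
      have h0 : dist L M < δ / (3 * ‖M⁻¹‖ + 1) := hL
      rwa [dist_eq_norm] at h0
    have h1 : L * M⁻¹ * M = L := by
      rw [Matrix.mul_assoc, Matrix.nonsing_inv_mul _ hdet, Matrix.mul_one]
    have h2 : L * M⁻¹ - 1 = (L - M) * M⁻¹ := by
      rw [Matrix.sub_mul, Matrix.mul_nonsing_inv _ hdet]
    have h3 : ‖L * M⁻¹ - 1‖ < δ := by
      rw [h2]
      calc ‖(L - M) * M⁻¹‖ ≤ 3 * ‖L - M‖ * ‖M⁻¹‖ := norm_mul3 _ _
        _ = ‖L - M‖ * (3 * ‖M⁻¹‖) := by ring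
        _ ≤ ‖L - M‖ * (3 * ‖M⁻¹‖ + 1) :=
            mul_le_mul_of_nonneg_left (by linarith) (norm_nonneg _)
        _ < δ := by
            rwa [lt_div_iff₀ (by positivity)] at hL'
    have h4 := h _ h3 M hM
    rw [h1] at h4
    rw [Real.dist_eq]
    linarith
  · -- bounded
    refine ⟨N * B, fun M => ?_⟩
    by_cases hM : M ∈ Om
    · obtain ⟨hfin, hcard⟩ := hN M hM
      have hs1 : PS ψ M = ∑ γ ∈ hfin.toFinset, ψ (M * ic γ) :=
        PSL.PS_eq_sum ψ M _ hfin fun γ hγ => PSL.KK_mono16 (hψ.supp _ hγ)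
      rw [hs1]
      calc |∑ γ ∈ hfin.toFinset, ψ (M * ic γ)| ≤ ∑ γ ∈ hfin.toFinset, |ψ (M * ic γ)| :=
            Finset.abs_sum_le_sum_abs _ _
        _ ≤ ∑ _γ ∈ hfin.toFinset, B := Finset.sum_le_sum fun γ _ => hB _
        _ = (hfin.toFinset.card : ℝ) * B := by rw [Finset.sum_const, nsmul_eq_mul]
        _ ≤ (N : ℝ) * B := by
            have h4 : hfin.toFinset.card ≤ N := by
              rw [← Set.ncard_eq_toFinset_card _ hfin]
              exact hcard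
            have h5 : (hfin.toFinset.card : ℝ) ≤ (N : ℝ) := by exact_mod_cast h4
            exact mul_le_mul_of_nonneg_right h5 hB0
    · have h0 : PS ψ M = 0 := by
        unfold PS
        have h1 : ∀ γ : GZ, ψ (M * ic γ) = 0 := by
          intro γ
          by_contra hc
          exact hM ((mul_ic_mem_Om γ).1 (KK_subset_Om R (hψ.supp _ hc)))
        simp only [h1, tsum_zero]
      rw [h0, abs_zero]
      positivity

end SAIL
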