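import Pool.Agent.SAIL.ERG.Targets

open Set

namespace SAIL

lemma SIE_sq (v : Fin 3 → ℝ) : sq v = v 0 ^ 2 + v 1 ^ 2 + v 2 ^ 2 := by
  simp only [sq, dotProduct, Fin.sum_univ_three]; ring

lemma SIE_dot (v w : Fin 3 → ℝ) : v ⬝ᵥ w = v 0 * w 0 + v 1 * w 1 + v 2 * w 2 := by
  simp only [dotProduct, Fin.sum_univ_three]

lemma SIE_coord (v : Fin 3 → ℝ) (i : Fin 3) : v i ^ 2 ≤ sq v := by
  rw [SIE_sq]
  have h0 := sq_nonneg (v 0)
  have h1 := sq_nonneg (v 1)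
  have h2 := sq_nonneg (v 2)
  fin_cases i
  · change v 0 ^ 2 ≤ _
    linarith
  · change v 1 ^ 2 ≤ _
    linarith
  · change v 2 ^ 2 ≤ _
    linarith

/-- minimum over integer vectors -/
lemma SIE_min {ι : Type} (A : M3) (hA : A.det ≠ 0) (v : ι → Fin 3 → ℤ) (S : Set ι)
    (hS : S.Nonempty) : ∃ i ∈ S, ∀ j ∈ S,
      sq (A.mulVec (fun k => (v i k : ℝ))) ≤ sq (A.mulVec (fun k => (v j k : ℝ))) := by
  obtain ⟨j0, hj0⟩ := hS
  set q : (Fin 3 → ℤ) → ℝ := fun n => sq (A.mulVec (fun k => (n k : ℝ))) with hq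
  set K : ℝ := q (v j0) with hK
  have hK0 : 0 ≤ K := by
    have := SIE_coord (A.mulVec (fun k => (v j0 k : ℝ))) 0
    exact le_trans (sq_nonneg _) this
  set C : ℝ := ∑ i, ∑ k, |A⁻¹ i k| with hC
  have hC0 : 0 ≤ C := Finset.sum_nonneg fun _ _ => Finset.sum_nonneg fun _ _ => abs_nonneg _
  obtain ⟨R, hR⟩ := exists_nat_ge (C * (K + 1))
  have hfin : (Set.image v S ∩ {n | q n ≤ K}).Finite := by
    refine (Set.finite_Icc (fun _ : Fin 3 => -(R : ℤ)) (fun _ : Fin 3 => (R : ℤ))).subset ?_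
    rintro n ⟨-, hn⟩
    have hn' : q n ≤ K := hn
    have hb : ∀ k, |A.mulVec (fun k => (n k : ℝ)) k| ≤ K + 1 := by
      intro k
      have h1 := SIE_coord (A.mulVec (fun k => (n k : ℝ))) k
      have h2 : A.mulVec (fun k => (n k : ℝ)) k ^ 2 ≤ K := le_trans h1 hn'
      rw [abs_le]
      constructor <;> nlinarith
    have hinv : A⁻¹.mulVec (A.mulVec (fun k => (n k : ℝ))) = fun k => (n k : ℝ) := by
      rw [Matrix.mulVec_mulVec, Matrix.nonsing_inv_mul _ (isUnit_iff_ne_zero.2 hA),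
        Matrix.one_mulVec]
    have hi : ∀ i, |(n i : ℝ)| ≤ C * (K + 1) := by
      intro i
      have h1 : (n i : ℝ) = A⁻¹.mulVec (A.mulVec (fun k => (n k : ℝ))) i := by rw [hinv]
      rw [h1, Matrix.mulVec, dotProduct]
      calc |∑ k, A⁻¹ i k * A.mulVec (fun k => (n k : ℝ)) k|
          ≤ ∑ k, |A⁻¹ i k * A.mulVec (fun k => (n k : ℝ)) k| := Finset.abs_sum_le_sum_abs _ _
        _ ≤ ∑ k, |A⁻¹ i k| * (K + 1) := by
            refine Finset.sum_le_sum fun k _ => ?_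
            rw [abs_mul]
            exact mul_le_mul_of_nonneg_left (hb k) (abs_nonneg _)
        _ = (∑ k, |A⁻¹ i k|) * (K + 1) := by rw [Finset.sum_mul]
        _ ≤ C * (K + 1) := by
            refine mul_le_mul_of_nonneg_right ?_ (by linarith)
            rw [hC]
            exact Finset.single_le_sum (f := fun i => ∑ k, |A⁻¹ i k|)
              (fun _ _ => Finset.sum_nonneg fun _ _ => abs_nonneg _) (Finset.mem_univ i)
    have hi' : ∀ i, |n i| ≤ (R : ℤ) := by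
      intro i
      have := (hi i).trans hR
      exact_mod_cast this
    constructor
    · intro i; exact (abs_le.1 (hi' i)).1
    · intro i; exact (abs_le.1 (hi' i)).2
  have hne : (Set.image v S ∩ {n | q n ≤ K}).Nonempty := ⟨v j0, ⟨j0, hj0, rfl⟩, le_refl K⟩
  obtain ⟨n, hn, hmin⟩ := Set.exists_min_image _ q hfin hne
  obtain ⟨⟨i, hi, rfl⟩, hnK⟩ := hn
  refine ⟨i, hi, fun j hj => ?_⟩
  by_cases h : q (v j) ≤ K
  · exact hmin (v j) ⟨⟨j, hj, rfl⟩, h⟩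
  · have h1 : q (v i) ≤ K := hnK
    exact h1.trans (le_of_lt (not_le.1 h))

/-- first column -/
lemma SIE_col0 (M : M3) (g : GZ) :
    col (M * ic g) 0 = M.mulVec (fun k => (((g : Matrix (Fin 3) (Fin 3) ℤ) k 0 : ℤ) : ℝ)) := by
  funext i
  simp [col, Matrix.mul_apply, Matrix.mulVec, dotProduct, ic]

lemma SIE_gradj (N : M3) : gr (col N 0) (col N 1) = sq (N.adjugate 2) := by
  simp only [gr, SIE_sq, SIE_dot, col, Matrix.adjugate_fin_three]
  simp
  ring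

lemma SIE_gr (M : M3) (g : GZ) :
    gr (col (M * ic g) 0) (col (M * ic g) 1) =
      sq (M.adjugate.transpose.mulVec
        (fun k => (((g⁻¹ : GZ) : Matrix (Fin 3) (Fin 3) ℤ) 2 k : ℝ))) := by
  rw [SIE_gradj, Matrix.adjugate_mul_distrib]
  have h : (ic g).adjugate = ic g⁻¹ := by
    have h1 : (ic g).adjugate * ic g = 1 := by
      rw [Matrix.adjugate_mul, det_ic, one_smul]
    calc (ic g).adjugate = (ic g).adjugate * (ic g * ic g⁻¹) := by rw [ic_mul_inv, mul_one]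
      _ = ic g⁻¹ := by rw [← mul_assoc, h1, one_mul]
  rw [h]
  congr 1
  funext i
  simp [Matrix.mul_apply, Matrix.mulVec, dotProduct, ic, mul_comm]

lemma SIE_round (a s : ℝ) (hs : 0 < s) : ∃ k : ℤ, 2 * |a + k * s| ≤ s := by
  refine ⟨-round (a / s), ?_⟩
  have h := abs_sub_round (a / s)
  have h2 : a + ((-round (a / s) : ℤ) : ℝ) * s = (a / s - round (a / s)) * s := by
    push_cast
    field_simp
    ring
  rw [h2, abs_mul, abs_of_pos hs]
  nlinarith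

/-- the two kinds of elements used -/
def SIE_E (k : ℤ) : GZ := ⟨!![1, k, 0; 0, 1, 0; 0, 0, 1], by simp [Matrix.det_fin_three]⟩
def SIE_F (j l : ℤ) : GZ := ⟨!![1, 0, j; 0, 1, l; 0, 0, 1], by simp [Matrix.det_fin_three]⟩
def SIE_P : GZ := ⟨!![0, -1, 0; 1, 0, 0; 0, 0, 1], by simp [Matrix.det_fin_three]⟩
def SIE_Q : GZ := ⟨!![1, 0, 0; 0, 0, -1; 0, 1, 0], by simp [Matrix.det_fin_three]⟩

lemma SIE_mulE (N : M3) (k : ℤ) (i : Fin 3) : (N * ic (SIE_E k)) i 0 = N i 0 ∧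
    (N * ic (SIE_E k)) i 1 = N i 1 + k * N i 0 ∧ (N * ic (SIE_E k)) i 2 = N i 2 := by
  refine ⟨?_, ?_, ?_⟩ <;>
    (simp [Matrix.mul_apply, Fin.sum_univ_three, ic, SIE_E]; try ring)

lemma SIE_mulF (N : M3) (j l : ℤ) (i : Fin 3) : (N * ic (SIE_F j l)) i 0 = N i 0 ∧
    (N * ic (SIE_F j l)) i 1 = N i 1 ∧
    (N * ic (SIE_F j l)) i 2 = N i 2 + l * N i 1 + j * N i 0 := by
  refine ⟨?_, ?_, ?_⟩ <;>
    (simp [Matrix.mul_apply, Fin.sum_univ_three, ic, SIE_F]; try ring)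

lemma SIE_mulP (N : M3) (i : Fin 3) : (N * ic SIE_P) i 0 = N i 1 ∧
    (N * ic SIE_P) i 1 = - N i 0 ∧ (N * ic SIE_P) i 2 = N i 2 := by
  refine ⟨?_, ?_, ?_⟩ <;>
    simp [Matrix.mul_apply, Fin.sum_univ_three, ic, SIE_P]

lemma SIE_mulQ (N : M3) (i : Fin 3) : (N * ic SIE_Q) i 0 = N i 0 ∧
    (N * ic SIE_Q) i 1 = N i 2 ∧ (N * ic SIE_Q) i 2 = - N i 1 := by
  refine ⟨?_, ?_, ?_⟩ <;>
    simp [Matrix.mul_apply, Fin.sum_univ_three, ic, SIE_Q]

/-- the Gram determinant identity -/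
lemma SIE_gram (N : M3) : gr (col N 0) (col N 1) * gr (col N 0) (col N 2) -
    (sq (col N 0) * (col N 1 ⬝ᵥ col N 2) - (col N 0 ⬝ᵥ col N 1) * (col N 0 ⬝ᵥ col N 2)) ^ 2 =
    sq (col N 0) * N.det ^ 2 := by
  simp only [gr, SIE_sq, SIE_dot, col, Matrix.det_fin_three]
  ring

theorem p_SIE : T_SIE := by
  intro M hM
  have hMd : M.det ≠ 0 := ne_of_gt hM
  have hAd : M.adjugate.transpose.det ≠ 0 := by
    rw [Matrix.det_transpose, Matrix.det_adjugate]
    exact pow_ne_zero _ hMd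
  obtain ⟨g0, -, h0⟩ := SIE_min M hMd
    (fun g : GZ => fun k => ((g : Matrix (Fin 3) (Fin 3) ℤ) k 0)) Set.univ ⟨1, trivial⟩
  have h0' : ∀ g : GZ, sq (col (M * ic g0) 0) ≤ sq (col (M * ic g) 0) := by
    intro g
    rw [SIE_col0, SIE_col0]
    exact h0 g trivial
  obtain ⟨g1, hg1, h1⟩ := SIE_min M.adjugate.transpose hAd
    (fun g : GZ => fun k => (((g⁻¹ : GZ) : Matrix (Fin 3) (Fin 3) ℤ) 2 k))
    {g : GZ | sq (col (M * ic g) 0) = sq (col (M * ic g0) 0)} ⟨g0, rfl⟩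
  have h1' : ∀ g : GZ, sq (col (M * ic g) 0) = sq (col (M * ic g0) 0) →
      gr (col (M * ic g1) 0) (col (M * ic g1) 1) ≤
        gr (col (M * ic g) 0) (col (M * ic g) 1) := by
    intro g hg
    rw [SIE_gr, SIE_gr]
    exact h1 g hg
  have hg1' : sq (col (M * ic g1) 0) = sq (col (M * ic g0) 0) := hg1
  set N := M * ic g1 with hN
  have hNd : 0 < N.det := by rw [hN, det_mul_ic]; exact hM
  have hsx : 0 < sq (col N 0) := by
    by_contra hcon
    have h2 : sq (col N 0) ≤ 0 := not_lt.1 hcon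
    have hz : ∀ i, N i 0 = 0 := by
      intro i
      have h3 := SIE_coord (col N 0) i
      have h4 : (col N 0 i) ^ 2 ≤ 0 := h3.trans h2
      have h5 : col N 0 i = 0 := by
        have := le_antisymm h4 (sq_nonneg _)
        exact pow_eq_zero_iff (two_ne_zero) |>.1 this
      exact h5
    rw [Matrix.det_fin_three, hz 0, hz 1, hz 2] at hNd
    simp at hNd
  have hgram := SIE_gram N
  have hgr0 : 0 ≤ gr (col N 0) (col N 1) := by
    rw [SIE_gradj]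
    exact le_trans (sq_nonneg _) (SIE_coord _ 0)
  have hgrp : 0 < gr (col N 0) (col N 1) := by
    rcases hgr0.lt_or_eq with h | h
    · exact h
    · exfalso
      rw [← h] at hgram
      have : 0 < sq (col N 0) * N.det ^ 2 := by positivity
      nlinarith [sq_nonneg (sq (col N 0) * (col N 1 ⬝ᵥ col N 2) -
        (col N 0 ⬝ᵥ col N 1) * (col N 0 ⬝ᵥ col N 2))]
  -- first reduction
  obtain ⟨k, hk⟩ := SIE_round (col N 0 ⬝ᵥ col N 1) (sq (col N 0)) hsx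
  set N1 := N * ic (SIE_E k) with hN1
  have e0 : ∀ i, N1 i 0 = N i 0 := fun i => (SIE_mulE N k i).1
  have e1 : ∀ i, N1 i 1 = N i 1 + k * N i 0 := fun i => (SIE_mulE N k i).2.1
  have e2 : ∀ i, N1 i 2 = N i 2 := fun i => (SIE_mulE N k i).2.2
  have hs1 : sq (col N1 0) = sq (col N 0) := by
    simp only [SIE_sq, col, e0]
  have hd1 : col N1 0 ⬝ᵥ col N1 1 = col N 0 ⬝ᵥ col N 1 + k * sq (col N 0) := by
    simp only [SIE_sq, SIE_dot, col, e0, e1]; ring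
  have hgr1 : gr (col N1 0) (col N1 1) = gr (col N 0) (col N 1) := by
    simp only [gr, SIE_sq, SIE_dot, col, e0, e1]; ring
  have hk1 : 2 * |col N1 0 ⬝ᵥ col N1 1| ≤ sq (col N1 0) := by rw [hd1, hs1]; exact hk
  -- minimality of the first column
  have hy : sq (col N1 0) ≤ sq (col N1 1) := by
    have h2 := h0' (g1 * SIE_E k * SIE_P)
    rw [ic_mul, ic_mul, ← Matrix.mul_assoc, ← Matrix.mul_assoc, ← hN, ← hN1] at h2
    have h3 : sq (col (N1 * ic SIE_P) 0) = sq (col N1 1) := by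
      simp only [SIE_sq, col, (SIE_mulP N1 _).1]
    rw [h3, ← hg1', ← hs1] at h2
    exact h2
  have hgr34 : 3 * sq (col N1 0) ^ 2 ≤ 4 * gr (col N1 0) (col N1 1) := by
    have h3 : (2 * (col N1 0 ⬝ᵥ col N1 1)) ^ 2 ≤ sq (col N1 0) ^ 2 := by
      rw [← sq_abs, abs_mul, abs_two]
      exact pow_le_pow_left₀ (by positivity) hk1 2
    have h4 : sq (col N1 0) * sq (col N1 0) ≤ sq (col N1 0) * sq (col N1 1) :=
      mul_le_mul_of_nonneg_left hy (by rw [hs1]; exact hsx.le)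
    unfold gr
    nlinarith
  -- second reduction
  set w1 := sq (col N1 0) * (col N1 1 ⬝ᵥ col N1 2) -
    (col N1 0 ⬝ᵥ col N1 1) * (col N1 0 ⬝ᵥ col N1 2) with hw1
  have hgrp1 : 0 < gr (col N1 0) (col N1 1) := by rw [hgr1]; exact hgrp
  have hsx1 : 0 < sq (col N1 0) := by rw [hs1]; exact hsx
  obtain ⟨l, hl⟩ := SIE_round w1 (gr (col N1 0) (col N1 1)) hgrp1
  obtain ⟨j, hj⟩ := SIE_round (col N1 0 ⬝ᵥ col N1 2 + l * (col N1 0 ⬝ᵥ col N1 1))
    (sq (col N1 0)) hsx1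
  set N2 := N1 * ic (SIE_F j l) with hN2
  have f0 : ∀ i, N2 i 0 = N1 i 0 := fun i => (SIE_mulF N1 j l i).1
  have f1 : ∀ i, N2 i 1 = N1 i 1 := fun i => (SIE_mulF N1 j l i).2.1
  have f2 : ∀ i, N2 i 2 = N1 i 2 + l * N1 i 1 + j * N1 i 0 := fun i => (SIE_mulF N1 j l i).2.2
  have hs2 : sq (col N2 0) = sq (col N1 0) := by simp only [SIE_sq, col, f0]
  have hd2 : col N2 0 ⬝ᵥ col N2 1 = col N1 0 ⬝ᵥ col N1 1 := by
    simp only [SIE_dot, col, f0, f1]
  have hgr2 : gr (col N2 0) (col N2 1) = gr (col N1 0) (col N1 1) := by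
    simp only [gr, SIE_sq, SIE_dot, col, f0, f1]
  have hw2 : sq (col N2 0) * (col N2 1 ⬝ᵥ col N2 2) -
      (col N2 0 ⬝ᵥ col N2 1) * (col N2 0 ⬝ᵥ col N2 2) =
      w1 + l * gr (col N1 0) (col N1 1) := by
    rw [hw1]
    simp only [gr, SIE_sq, SIE_dot, col, f0, f1, f2]; ring
  have hz2 : col N2 0 ⬝ᵥ col N2 2 = col N1 0 ⬝ᵥ col N1 2 +
      l * (col N1 0 ⬝ᵥ col N1 1) + j * sq (col N1 0) := by
    simp only [SIE_sq, SIE_dot, col, f0, f2]; ring
  have hdet2 : N2.det = M.det := by rw [hN2, det_mul_ic, hN1, det_mul_ic, hN, det_mul_ic]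
  have hzy : gr (col N2 0) (col N2 1) ≤ gr (col N2 0) (col N2 2) := by
    have h2 := h1' (g1 * SIE_E k * SIE_F j l * SIE_Q)
    rw [ic_mul, ic_mul, ic_mul, ← Matrix.mul_assoc, ← Matrix.mul_assoc, ← Matrix.mul_assoc,
      ← hN, ← hN1, ← hN2] at h2
    have h3 : sq (col (N2 * ic SIE_Q) 0) = sq (col N2 0) := by
      simp only [SIE_sq, col, (SIE_mulQ N2 _).1]
    have h4 : gr (col (N2 * ic SIE_Q) 0) (col (N2 * ic SIE_Q) 1) =
        gr (col N2 0) (col N2 2) := by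
      simp only [gr, SIE_sq, SIE_dot, col, (SIE_mulQ N2 _).1, (SIE_mulQ N2 _).2.1]
    rw [h3, h4] at h2
    rw [hgr2, hgr1]
    exact h2 (by rw [hs2, hs1, hg1'])
  have hgram2 := SIE_gram N2
  refine ⟨g1 * SIE_E k * SIE_F j l, ?_⟩
  have hfin : M * ic (g1 * SIE_E k * SIE_F j l) = N2 := by
    rw [ic_mul, ic_mul, ← Matrix.mul_assoc, ← Matrix.mul_assoc]
  rw [hfin]
  refine ⟨by rw [hdet2]; exact hM, ?_, ?_, ?_, ?_, ?_⟩
  · rw [hd2, hs2]; exact hk1
  · rw [hgr2, hs2]; exact hgr34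
  · rw [hz2, hs2]; exact hj
  · rw [hw2, hgr2]; exact hl
  · have h5 : (2 * (w1 + l * gr (col N1 0) (col N1 1))) ^ 2 ≤ gr (col N1 0) (col N1 1) ^ 2 := by
      rw [← sq_abs, abs_mul, abs_two]
      exact pow_le_pow_left₀ (by positivity) hl 2
    rw [hw2] at hgram2
    have h6 : gr (col N2 0) (col N2 1) * gr (col N2 0) (col N2 1) ≤
        gr (col N2 0) (col N2 1) * gr (col N2 0) (col N2 2) :=
      mul_le_mul_of_nonneg_left hzy (by rw [hgr2]; exact hgrp1.le)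
    rw [← hgr2] at h5
    rw [← hgr2] at hgram2
    nlinarith

end SAIL
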