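import Pool.Agent.SAIL.ERG.Targets

/-!
# SAIL, part G: transposition preserves volume
-/

open MeasureTheory Set Filter Topology

namespace SAIL

namespace TR_

/-- transposition as a linear map -/
def trl : M3 →ₗ[ℝ] M3 where
  toFun M := M.transpose
  map_add' A B := Matrix.transpose_add A B
  map_smul' c A := Matrix.transpose_smul c A

lemma det_sq : LinearMap.det trl * LinearMap.det trl = 1 := by
  rw [← LinearMap.det_comp]
  have h : trl ∘ₗ trl = LinearMap.id := by
    ext M i j
    rfl
  rw [h, LinearMap.det_id]

lemma abs_det : |(LinearMap.det trl)⁻¹| = 1 := by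
  have h1 : |LinearMap.det trl| * |LinearMap.det trl| = 1 := by
    rw [← abs_mul, det_sq, abs_one]
  have h2 : |LinearMap.det trl| = 1 := by
    have h0 := abs_nonneg (LinearMap.det trl)
    nlinarith
  rw [abs_inv, h2, inv_one]

lemma det_ne : LinearMap.det trl ≠ 0 := by
  intro h
  have := det_sq
  rw [h] at this
  norm_num at this

end TR_

open TR_

theorem p_TR : T_TR := by
  have hm : Measurable (fun M : M3 => M.transpose) :=
    (Continuous.matrix_transpose continuous_id).measurable
  refine ⟨hm, ?_⟩
  have h : Measure.map (fun M : M3 => M.transpose) (volume : Measure M3) =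
      ENNReal.ofReal |(LinearMap.det trl)⁻¹| • (volume : Measure M3) :=
    @Measure.map_linearMap_addHaar_eq_smul_addHaar M3 instNAG instNS instMS instBS instFinDim
      (volume : Measure M3) instHaar trl det_ne
  rw [abs_det, ENNReal.ofReal_one, one_smul] at h
  exact h

end SAIL
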