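import Pool.Agent.SAIL.ERG.Targets

/-!
# SAIL, part G: which transvections are contracted
-/

open MeasureTheory Set Filter Topology

namespace SAIL

private lemma conj_formula (v w : Fin 3 → ℝ) (hvw : ∀ i, v i * w i = 1) (i j : Fin 3) (t : ℝ)
    (k : ℕ) :
    Matrix.diagonal v ^ k * Matrix.transvection i j t * Matrix.diagonal w ^ k =
      (1 : M3) + (v i * w j) ^ k • Matrix.single i j t := by
  rw [Matrix.diagonal_pow, Matrix.diagonal_pow]
  ext p q
  rw [Matrix.mul_diagonal, Matrix.diagonal_mul]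
  simp only [Matrix.transvection, Matrix.add_apply, Pi.pow_apply, Matrix.smul_apply, smul_eq_mul]
  by_cases hpq : p = q
  · subst hpq
    have h1 : v p ^ k * w p ^ k = 1 := by rw [← mul_pow, hvw, one_pow]
    by_cases hi : i = p
    · subst hi
      by_cases hj : j = i
      · subst hj
        simp only [Matrix.one_apply_eq, Matrix.single_apply_same]
        rw [mul_pow]
        linear_combination h1
      · rw [Matrix.single_apply_of_ne _ _ _ _ _ (by tauto)]
        simp only [Matrix.one_apply_eq]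
        linear_combination h1
    · rw [Matrix.single_apply_of_ne _ _ _ _ _ (by tauto)]
      simp only [Matrix.one_apply_eq]
      linear_combination h1
  · rw [Matrix.one_apply_ne hpq]
    by_cases hij : i = p ∧ j = q
    · obtain ⟨rfl, rfl⟩ := hij
      rw [Matrix.single_apply_same, mul_pow]
      ring
    · rw [Matrix.single_apply_of_ne _ _ _ _ _ hij]
      ring

private lemma conj_tendsto (v w : Fin 3 → ℝ) (hvw : ∀ i, v i * w i = 1) (i j : Fin 3) (t : ℝ)
    (h0 : 0 ≤ v i * w j) (h1 : v i * w j < 1) (B : M3) (hB : B = Matrix.diagonal w) :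
    Tendsto (fun k : ℕ => (Matrix.diagonal v : M3) ^ k * Matrix.transvection i j t * B ^ k)
      atTop (𝓝 1) := by
  subst hB
  have e : (fun k : ℕ => (Matrix.diagonal v : M3) ^ k * Matrix.transvection i j t *
      (Matrix.diagonal w : M3) ^ k) =
      fun k : ℕ => (1 : M3) + (v i * w j) ^ k • Matrix.single i j t := by
    funext k
    exact conj_formula v w hvw i j t k
  rw [e]
  have h2 : Tendsto (fun k : ℕ => (v i * w j) ^ k) atTop (𝓝 0) :=
    tendsto_pow_atTop_nhds_zero_of_lt_one h0 h1
  have h3 : Tendsto (fun k : ℕ => (v i * w j) ^ k • (Matrix.single i j t : M3)) atTop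
      (𝓝 ((0 : ℝ) • (Matrix.single i j t : M3))) := h2.smul_const _
  rw [zero_smul] at h3
  have h4 := (tendsto_const_nhds (x := (1 : M3))).add h3
  rwa [add_zero] at h4

theorem p_TRV : T_TRV := by
  intro i j t hij
  have ha : aa⁻¹ = ai := Matrix.inv_eq_right_inv aa_mul_ai
  have hb : ai⁻¹ = aa := Matrix.inv_eq_right_inv ai_mul_aa
  have hvw : ∀ i : Fin 3, (![2, 1, 1 / 2] : Fin 3 → ℝ) i * (![1 / 2, 1, 2] : Fin 3 → ℝ) i = 1 := by
    intro i; fin_cases i <;> simp
  have hwv : ∀ i : Fin 3, (![1 / 2, 1, 2] : Fin 3 → ℝ) i * (![2, 1, 1 / 2] : Fin 3 → ℝ) i = 1 := by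
    intro i; fin_cases i <;> simp
  rw [ha, hb]
  by_cases hlt : j < i
  · left
    refine conj_tendsto ![2, 1, 1 / 2] ![1 / 2, 1, 2] hvw i j t ?_ ?_ ai rfl
    · fin_cases i <;> fin_cases j <;> simp
    · revert hlt
      fin_cases i <;> fin_cases j <;> simp <;> norm_num
  · right
    refine conj_tendsto ![1 / 2, 1, 2] ![2, 1, 1 / 2] hwv i j t ?_ ?_ aa rfl
    · fin_cases i <;> fin_cases j <;> simp
    · revert hlt hij
      fin_cases i <;> fin_cases j <;> simp <;> norm_num

end SAIL
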