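import Pool.Agent.SAIL.ERG.Targets

/-!
# SAIL, part G: unfolding
-/

open MeasureTheory Set Filter Topology

namespace SAIL

theorem p_UNF (hR : T_RMUL) : T_UNF := by
  intro s hs F ψ hF hψ hFi
  -- right multiplication by an element of the lattice preserves the measure
  have hmp : ∀ γ : GZ, MeasurePreserving (fun M : M3 => M * ic γ) volume volume := by
    intro γ
    refine ⟨measurable_rmul (ic γ), ?_⟩
    ext E hE
    rw [Measure.map_apply (measurable_rmul (ic γ)) hE,
      hR (ic γ) (by rw [det_ic]; exact one_ne_zero) E, det_ic]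
    simp
  -- the translates of the fundamental domain
  set A : GZ → Set M3 := fun γ => (fun M : M3 => M * ic γ) ⁻¹' s with hA
  have hAm : ∀ γ, MeasurableSet (A γ) := fun γ => measurable_rmul (ic γ) hs.meas
  have hAU : Co = ⋃ γ, A γ := by
    ext M
    simp only [mem_iUnion]
    constructor
    · intro hM
      obtain ⟨γ, hγ⟩ := hs.ex M hM
      exact ⟨γ, hγ⟩
    · rintro ⟨γ, hγ⟩
      exact (mul_ic_mem_Co γ).1 (hs.sub hγ)
  have hAd : Pairwise (Function.onFun Disjoint A) := by
    intro γ δ hγδ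
    rw [Function.onFun, Set.disjoint_left]
    intro M h1 h2
    apply hγδ
    have h1' : M * ic γ ∈ s := h1
    have h2' : M * ic δ ∈ s := h2
    have h3 : M * ic γ * ic (γ⁻¹ * δ) ∈ s := by
      rw [ic_mul, ← Matrix.mul_assoc, Matrix.mul_assoc M (ic γ) (ic γ⁻¹), ic_mul_inv,
        Matrix.mul_one]
      exact h2'
    have h4 := hs.uni _ h1' _ h3
    rw [inv_mul_eq_one] at h4
    exact h4
  have hterm : ∀ γ : GZ, ∫⁻ M in A γ, F M * ψ M = ∫⁻ M in s, F M * ψ (M * ic γ⁻¹) := by
    intro γ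
    have hm : Measurable (fun N : M3 => F N * ψ (N * ic γ⁻¹)) :=
      hF.mul (hψ.comp (measurable_rmul (ic γ⁻¹)))
    have h := (hmp γ).setLIntegral_comp_preimage hs.meas hm
    rw [← h]
    refine lintegral_congr fun M => ?_
    simp only [hFi γ M]
    rw [Matrix.mul_assoc, ic_mul_inv, Matrix.mul_one]
  rw [hAU, lintegral_iUnion hAm hAd]
  simp only [hterm]
  have hre : ∑' γ : GZ, ∫⁻ M in s, F M * ψ (M * ic γ⁻¹) =
      ∑' γ : GZ, ∫⁻ M in s, F M * ψ (M * ic γ) :=
    (Equiv.inv GZ).tsum_eq (fun γ : GZ => ∫⁻ M in s, F M * ψ (M * ic γ))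
  rw [hre, ← lintegral_tsum]
  · refine lintegral_congr fun M => ?_
    rw [ENNReal.tsum_mul_left]
  · intro γ
    exact (hF.mul (hψ.comp (measurable_rmul (ic γ)))).aemeasurable

end SAIL
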