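import Pool.Agent.SAIL.ERG.Targets

/-!
# SAIL, part G: the Siegel set has finite volume in the cone
-/

set_option autoImplicit false
set_option maxHeartbeats 4000000

open MeasureTheory Set Filter Topology

namespace SAIL

namespace VOL_

/-- vectors -/
abbrev V := Fin 3 → ℝ

lemma dp (x y : V) : x ⬝ᵥ y = x 0 * y 0 + x 1 * y 1 + x 2 * y 2 := by
  simp [dotProduct, Fin.sum_univ_three]

/-- determinant of three rows -/
def dt (x y z : V) : ℝ :=
  x 0 * (y 1 * z 2 - y 2 * z 1) - x 1 * (y 0 * z 2 - y 2 * z 0) + x 2 * (y 0 * z 1 - y 1 * z 0)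

/-- the conditions of the Siegel set -/
def SS (x y z : V) : Prop :=
  0 < dt x y z ∧ dt x y z ≤ 1 ∧ 2 * |x ⬝ᵥ y| ≤ sq x ∧ 3 * sq x ^ 2 ≤ 4 * gr x y ∧
  2 * |x ⬝ᵥ z| ≤ sq x ∧
  2 * |sq x * (y ⬝ᵥ z) - (x ⬝ᵥ y) * (x ⬝ᵥ z)| ≤ gr x y ∧
  3 * gr x y ^ 2 ≤ 4 * sq x * dt x y z ^ 2

lemma mem_iff (N : M3) : N.transpose ∈ Sg ∩ Co ↔ SS (N 0) (N 1) (N 2) := by
  have hc : ∀ j, col N.transpose j = N j := fun j => rfl
  have hd : N.transpose.det = dt (N 0) (N 1) (N 2) := by
    rw [Matrix.det_transpose, Matrix.det_fin_three]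
    unfold dt
    ring
  constructor
  · rintro ⟨⟨h1, h2, h3, h4, h5, h6⟩, h7, h8⟩
    rw [hc, hc] at h2 h3 h4
    rw [hc, hc, hc] at h5
    rw [hc, hc, hd] at h6
    rw [hd] at h7 h8
    exact ⟨h7, h8, h2, h3, h4, h5, h6⟩
  · rintro ⟨h7, h8, h2, h3, h4, h5, h6⟩
    refine ⟨⟨?_, ?_, ?_, ?_, ?_, ?_⟩, ?_, ?_⟩
    · rw [hd]; exact h7
    · rw [hc, hc]; exact h2
    · rw [hc, hc]; exact h3
    · rw [hc, hc]; exact h4
    · rw [hc, hc, hc]; exact h5
    · rw [hc, hc, hd]; exact h6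
    · rw [hd]; exact h7
    · rw [hd]; exact h8

lemma gr_eq (x y : V) : gr x y = (x 1 * y 2 - x 2 * y 1) ^ 2 + (x 2 * y 0 - x 0 * y 2) ^ 2 +
    (x 0 * y 1 - x 1 * y 0) ^ 2 := by
  unfold gr sq
  simp only [dp]
  ring

/-- the measure of the set of the third rows -/
lemma zset (x y : V) : volume {z : V | SS x y z} ≤ 1 := by
  by_cases hg : gr x y ≤ 0
  · have hemp : {z : V | SS x y z} = ∅ := by
      rw [Set.eq_empty_iff_forall_notMem]
      rintro z ⟨h1, -, -, h4, -⟩
      have hs : sq x = 0 := by nlinarith [sq_nonneg (sq x)]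
      have hs' : x 0 * x 0 + x 1 * x 1 + x 2 * x 2 = 0 := by
        have := hs
        unfold sq at this
        rwa [dp] at this
      have h0 : x 0 = 0 := by nlinarith [mul_self_nonneg (x 0), mul_self_nonneg (x 1), mul_self_nonneg (x 2)]
      have h1' : x 1 = 0 := by nlinarith [mul_self_nonneg (x 0), mul_self_nonneg (x 1), mul_self_nonneg (x 2)]
      have h2' : x 2 = 0 := by nlinarith [mul_self_nonneg (x 0), mul_self_nonneg (x 1), mul_self_nonneg (x 2)]
      unfold dt at h1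
      rw [h0, h1', h2'] at h1
      simp at h1
    rw [hemp]
    simp
  push Not at hg
  have hspos : 0 < sq x := by
    by_contra hs
    push Not at hs
    have hs' : x 0 * x 0 + x 1 * x 1 + x 2 * x 2 ≤ 0 := by
      have := hs
      unfold sq at this
      rwa [dp] at this
    have h0 : x 0 = 0 := by nlinarith [mul_self_nonneg (x 0), mul_self_nonneg (x 1), mul_self_nonneg (x 2)]
    have h1' : x 1 = 0 := by nlinarith [mul_self_nonneg (x 0), mul_self_nonneg (x 1), mul_self_nonneg (x 2)]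
    have h2' : x 2 = 0 := by nlinarith [mul_self_nonneg (x 0), mul_self_nonneg (x 1), mul_self_nonneg (x 2)]
    rw [gr_eq, h0, h1', h2'] at hg
    simp at hg
  set s := sq x with hs
  set g := gr x y with hgdef
  set p := x ⬝ᵥ y with hp
  let A : Matrix (Fin 3) (Fin 3) ℝ := Matrix.of ![fun i => x i / s, fun i => (s * y i - p * x i) / g,
    ![x 1 * y 2 - x 2 * y 1, x 2 * y 0 - x 0 * y 2, x 0 * y 1 - x 1 * y 0]]
  have hdet : A.det = 1 := by
    rw [Matrix.det_fin_three]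
    simp only [A, Matrix.of_apply, Matrix.cons_val_zero, Matrix.cons_val_one, Matrix.cons_val]
    have hg2 := gr_eq x y
    rw [← hgdef] at hg2
    field_simp
    nlinarith [hg2]
  have hdl : LinearMap.det (Matrix.toLin' A) = 1 := by rw [LinearMap.det_toLin', hdet]
  have hsub : {z : V | SS x y z} ⊆ (Matrix.toLin' A) ⁻¹' (Icc ![-(1/2), -(1/2), 0] ![1/2, 1/2, 1]) := by
    rintro z ⟨h1, h2, h3, h4, h5, h6, h7⟩
    have e0 : Matrix.toLin' A z 0 = (x ⬝ᵥ z) / s := by
      rw [Matrix.toLin'_apply, Matrix.mulVec, dp, dp]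
      simp only [A, Matrix.of_apply, Matrix.cons_val_zero]
      ring
    have e1 : Matrix.toLin' A z 1 = (s * (y ⬝ᵥ z) - p * (x ⬝ᵥ z)) / g := by
      rw [Matrix.toLin'_apply, Matrix.mulVec, dp, dp, dp,
        show A 1 0 = (s * y 0 - p * x 0) / g from rfl,
        show A 1 1 = (s * y 1 - p * x 1) / g from rfl,
        show A 1 2 = (s * y 2 - p * x 2) / g from rfl]
      ring
    have e2 : Matrix.toLin' A z 2 = dt x y z := by
      rw [Matrix.toLin'_apply, Matrix.mulVec, dp]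
      simp only [A, Matrix.of_apply, Matrix.cons_val]
      unfold dt
      ring
    have b0 := abs_le.mp (show |x ⬝ᵥ z| ≤ s / 2 by linarith)
    have b1 := abs_le.mp (show |s * (y ⬝ᵥ z) - p * (x ⬝ᵥ z)| ≤ g / 2 by linarith)
    have c0 : -(1 / 2) ≤ (x ⬝ᵥ z) / s ∧ (x ⬝ᵥ z) / s ≤ 1 / 2 := by
      constructor
      · rw [le_div_iff₀ hspos]; linarith [b0.1]
      · rw [div_le_iff₀ hspos]; linarith [b0.2]
    have c1 : -(1 / 2) ≤ (s * (y ⬝ᵥ z) - p * (x ⬝ᵥ z)) / g ∧
        (s * (y ⬝ᵥ z) - p * (x ⬝ᵥ z)) / g ≤ 1 / 2 := by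
      constructor
      · rw [le_div_iff₀ hg]; linarith [b1.1]
      · rw [div_le_iff₀ hg]; linarith [b1.2]
    rw [mem_preimage, mem_Icc, Pi.le_def, Pi.le_def]
    constructor
    · intro i
      fin_cases i
      · change -(1 / 2) ≤ Matrix.toLin' A z 0
        rw [e0]; exact c0.1
      · change -(1 / 2) ≤ Matrix.toLin' A z 1
        rw [e1]; exact c1.1
      · change 0 ≤ Matrix.toLin' A z 2
        rw [e2]; exact h1.le
    · intro i
      fin_cases i
      · change Matrix.toLin' A z 0 ≤ 1 / 2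
        rw [e0]; exact c0.2
      · change Matrix.toLin' A z 1 ≤ 1 / 2
        rw [e1]; exact c1.2
      · change Matrix.toLin' A z 2 ≤ 1
        rw [e2]; exact h2
  calc volume {z : V | SS x y z} ≤ volume ((Matrix.toLin' A) ⁻¹' (Icc ![-(1/2), -(1/2), 0] ![1/2, 1/2, 1])) :=
        measure_mono hsub
    _ = ENNReal.ofReal |(LinearMap.det (Matrix.toLin' A))⁻¹| * volume (Icc ![-(1/2), -(1/2), 0] ![1/2, 1/2, (1:ℝ)]) := by
        rw [Measure.addHaar_preimage_linearMap volume (by rw [hdl]; norm_num)]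
    _ ≤ 1 := by
        rw [hdl, Real.volume_Icc_pi]
        simp [Fin.prod_univ_three]
        norm_num

/-- bounds for the first two rows -/
lemma bounds (x y z : V) (h : SS x y z) : 0 < ‖x‖ ∧ ‖x‖ < 2 ∧ ∀ i, |y i| ≤ 2 * ‖x‖ ^ (-(1 / 2) : ℝ) := by
  obtain ⟨h1, h2, h3, h4, h5, h6, h7⟩ := h
  have hsq : ∀ u : V, sq u = u 0 * u 0 + u 1 * u 1 + u 2 * u 2 := fun u => dp u u
  have hle : ∀ (u : V) (i : Fin 3), u i * u i ≤ sq u := by
    intro u i
    rw [hsq]
    fin_cases i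
    · change u 0 * u 0 ≤ _
      nlinarith [mul_self_nonneg (u 1), mul_self_nonneg (u 2)]
    · change u 1 * u 1 ≤ _
      nlinarith [mul_self_nonneg (u 0), mul_self_nonneg (u 2)]
    · change u 2 * u 2 ≤ _
      nlinarith [mul_self_nonneg (u 0), mul_self_nonneg (u 1)]
  have hgr : gr x y = sq x * sq y - (x ⬝ᵥ y) ^ 2 := rfl
  set s := sq x with hs
  set t := sq y with ht
  set g := gr x y with hg
  set p := x ⬝ᵥ y with hp
  set D := dt x y z with hD
  have ht0 : 0 ≤ t := (mul_self_nonneg (y 0)).trans (hle y 0)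
  have hs0 : 0 ≤ s := (mul_self_nonneg (x 0)).trans (hle x 0)
  -- `x` is not zero
  have hx0 : 0 < ‖x‖ := by
    rw [norm_pos_iff]
    rintro rfl
    have : D = 0 := by
      rw [hD]
      unfold dt
      simp
    linarith
  -- the norm is at most the length
  have hxs : ‖x‖ ^ 2 ≤ s := by
    have hfin : ∃ i, ‖x‖ = ‖x i‖ := by
      obtain ⟨i, hi⟩ := Finite.exists_max (fun i => ‖x i‖)
      refine ⟨i, le_antisymm ?_ (norm_le_pi_norm x i)⟩
      exact (pi_norm_le_iff_of_nonneg (norm_nonneg _)).mpr hi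
    obtain ⟨i, hi⟩ := hfin
    rw [hi, Real.norm_eq_abs, sq_abs, pow_two]
    exact hle x i
  have hspos : 0 < s := lt_of_lt_of_le (by positivity) hxs
  have hD2 : D ^ 2 ≤ 1 := by nlinarith
  have h8 : 3 * g ^ 2 ≤ 4 * s := by nlinarith
  have hp2 : p ^ 2 ≤ s ^ 2 / 4 := by
    have h9 := abs_le.mp (show |p| ≤ s / 2 by linarith)
    nlinarith [h9.1, h9.2]
  have hg0 : 0 ≤ g := by nlinarith [sq_nonneg s]
  -- `s ^ 3 ≤ 64 / 27`
  have h10 : 9 * s ^ 4 ≤ 16 * g ^ 2 := by
    have : (3 * s ^ 2) * (3 * s ^ 2) ≤ (4 * g) * (4 * g) :=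
      mul_self_le_mul_self (by positivity) h4
    nlinarith [this]
  have h11 : 27 * s ^ 3 ≤ 64 := by
    have h12 : s * (27 * s ^ 3) ≤ s * 64 := by nlinarith
    exact le_of_mul_le_mul_left h12 hspos
  have h13 : s ≤ 4 / 3 := by
    by_contra hc
    push Not at hc
    have : (4 / 3 : ℝ) ^ 3 < s ^ 3 := by gcongr
    norm_num at this
    linarith
  have hn2 : ‖x‖ < 2 := by
    by_contra hc
    push Not at hc
    nlinarith
  refine ⟨hx0, hn2, ?_⟩
  -- `t ^ 2 s ≤ 3`
  have h14 : s * t ≤ g + s ^ 2 / 4 := by linarith [hgr]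
  have h15 : (s * t) ^ 2 ≤ 2 * g ^ 2 + s ^ 4 / 8 := by
    have : (s * t) ^ 2 ≤ (g + s ^ 2 / 4) ^ 2 := by gcongr
    nlinarith [sq_nonneg (g - s ^ 2 / 4)]
  have h16 : s * (s * t ^ 2) ≤ s * 3 := by
    have h17 : s ^ 4 ≤ 64 / 27 * s := by nlinarith
    nlinarith
  have h18 : s * t ^ 2 ≤ 3 := le_of_mul_le_mul_left h16 hspos
  have h19 : (t * ‖x‖) ^ 2 ≤ 3 := by
    have : (t * ‖x‖) ^ 2 = ‖x‖ ^ 2 * t ^ 2 := by ring
    rw [this]
    exact (mul_le_mul_of_nonneg_right hxs (sq_nonneg t)).trans h18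
  have h20 : t * ‖x‖ ≤ 2 := by
    by_contra hc
    push Not at hc
    nlinarith
  set r : ℝ := ‖x‖ ^ (-(1 / 2) : ℝ) with hr
  have hrpos : 0 < r := Real.rpow_pos_of_pos hx0 _
  have hr2 : r ^ 2 * ‖x‖ = 1 := by
    rw [hr, ← Real.rpow_natCast, ← Real.rpow_mul hx0.le]
    norm_num
    rw [Real.rpow_neg_one]
    exact inv_mul_cancel₀ hx0.ne'
  intro i
  have h21 : (y i) ^ 2 ≤ (2 * r) ^ 2 := by
    have h22 : (y i) ^ 2 ≤ t := by rw [pow_two]; exact hle y i
    have h23 : t ≤ 2 * r ^ 2 := by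
      have : t * ‖x‖ ≤ (2 * r ^ 2) * ‖x‖ := by nlinarith
      exact le_of_mul_le_mul_right this hx0
    nlinarith
  exact abs_le_of_sq_le_sq h21 (by positivity)

lemma rpow3 {a : ℝ} (ha : 0 < a) : (4 * a ^ (-(1 / 2) : ℝ)) ^ 3 = 64 * a ^ (-(3 / 2) : ℝ) := by
  rw [mul_pow, ← Real.rpow_natCast (a ^ (-(1 / 2) : ℝ)) 3, ← Real.rpow_mul ha.le]
  norm_num

/-- the sets of rows -/
def TT : Set (V × (V × V)) := {q | SS q.1 q.2.1 q.2.2}

lemma measTT : MeasurableSet TT := by
  have c1 : Continuous (fun q : V × (V × V) => dt q.1 q.2.1 q.2.2) := by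
    unfold dt
    fun_prop
  have c2 : Continuous (fun q : V × (V × V) => sq q.1) := by
    unfold sq
    simp only [dp]
    fun_prop
  have c3 : Continuous (fun q : V × (V × V) => gr q.1 q.2.1) := by
    simp only [gr_eq]
    fun_prop
  have c4 : Continuous (fun q : V × (V × V) => q.1 ⬝ᵥ q.2.1) := by
    simp only [dp]
    fun_prop
  have c5 : Continuous (fun q : V × (V × V) => q.1 ⬝ᵥ q.2.2) := by
    simp only [dp]
    fun_prop
  have c6 : Continuous (fun q : V × (V × V) => q.2.1 ⬝ᵥ q.2.2) := by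
    simp only [dp]
    fun_prop
  have m1 : MeasurableSet {q : V × (V × V) | 0 < dt q.1 q.2.1 q.2.2} :=
    (isOpen_lt continuous_const c1).measurableSet
  have m2 : MeasurableSet {q : V × (V × V) | dt q.1 q.2.1 q.2.2 ≤ 1} :=
    (isClosed_le c1 continuous_const).measurableSet
  have m3 : MeasurableSet {q : V × (V × V) | 2 * |q.1 ⬝ᵥ q.2.1| ≤ sq q.1} :=
    (isClosed_le (continuous_const.mul c4.abs) c2).measurableSet
  have m4 : MeasurableSet {q : V × (V × V) | 3 * sq q.1 ^ 2 ≤ 4 * gr q.1 q.2.1} :=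
    (isClosed_le (continuous_const.mul (c2.pow 2)) (continuous_const.mul c3)).measurableSet
  have m5 : MeasurableSet {q : V × (V × V) | 2 * |q.1 ⬝ᵥ q.2.2| ≤ sq q.1} :=
    (isClosed_le (continuous_const.mul c5.abs) c2).measurableSet
  have m6 : MeasurableSet {q : V × (V × V) |
      2 * |sq q.1 * (q.2.1 ⬝ᵥ q.2.2) - (q.1 ⬝ᵥ q.2.1) * (q.1 ⬝ᵥ q.2.2)| ≤ gr q.1 q.2.1} :=
    (isClosed_le (continuous_const.mul (((c2.mul c6).sub (c4.mul c5)).abs)) c3).measurableSet
  have m7 : MeasurableSet {q : V × (V × V) |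
      3 * gr q.1 q.2.1 ^ 2 ≤ 4 * sq q.1 * dt q.1 q.2.1 q.2.2 ^ 2} :=
    (isClosed_le (continuous_const.mul (c3.pow 2))
      ((continuous_const.mul c2).mul (c1.pow 2))).measurableSet
  exact m1.inter (m2.inter (m3.inter (m4.inter (m5.inter (m6.inter m7)))))

/-- the set of the last two rows, for a fixed first row -/
lemma yzset (x : V) : volume (Prod.mk x ⁻¹' TT) ≤
    (Metric.ball (0 : V) 2).indicator (fun x => ENNReal.ofReal (64 * ‖x‖ ^ (-(3 / 2) : ℝ))) x := by
  by_cases hne : ∃ y z, SS x y z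
  · obtain ⟨y₀, z₀, h₀⟩ := hne
    obtain ⟨hx0, hx2, -⟩ := bounds x y₀ z₀ h₀
    have hball : x ∈ Metric.ball (0 : V) 2 := by rwa [mem_ball_zero_iff]
    rw [Set.indicator_of_mem hball]
    set r : ℝ := ‖x‖ ^ (-(1 / 2) : ℝ) with hr
    have hrpos : 0 < r := Real.rpow_pos_of_pos hx0 _
    have hm : MeasurableSet (Prod.mk x ⁻¹' TT) := measurable_prodMk_left measTT
    rw [show (volume : Measure (V × V)) = (volume : Measure V).prod volume from rfl,
      Measure.prod_apply hm]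
    have hle : ∀ y : V, volume (Prod.mk y ⁻¹' (Prod.mk x ⁻¹' TT)) ≤
        (Icc (fun _ => -(2 * r)) (fun _ => 2 * r) : Set V).indicator (fun _ => 1) y := by
      intro y
      by_cases hy : y ∈ (Icc (fun _ => -(2 * r)) (fun _ => 2 * r) : Set V)
      · rw [Set.indicator_of_mem hy]
        exact zset x y
      · rw [Set.indicator_of_notMem hy]
        have hemp : Prod.mk y ⁻¹' (Prod.mk x ⁻¹' TT) = (∅ : Set V) := by
          rw [Set.eq_empty_iff_forall_notMem]
          intro z hz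
          apply hy
          have hb := (bounds x y z hz).2.2
          rw [mem_Icc, Pi.le_def, Pi.le_def]
          exact ⟨fun i => (abs_le.mp (hb i)).1, fun i => (abs_le.mp (hb i)).2⟩
        rw [hemp]
        simp
    calc ∫⁻ y : V, volume (Prod.mk y ⁻¹' (Prod.mk x ⁻¹' TT))
        ≤ ∫⁻ y : V, (Icc (fun _ => -(2 * r)) (fun _ => 2 * r) : Set V).indicator (fun _ => 1) y :=
          lintegral_mono hle
      _ = volume (Icc (fun _ => -(2 * r)) (fun _ => 2 * r) : Set V) := by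
          rw [lintegral_indicator measurableSet_Icc]
          simp
      _ = ENNReal.ofReal (64 * ‖x‖ ^ (-(3 / 2) : ℝ)) := by
          rw [Real.volume_Icc_pi, ← rpow3 hx0, ← hr, Fin.prod_univ_three,
            ← ENNReal.ofReal_mul (by linarith), ← ENNReal.ofReal_mul (by nlinarith)]
          congr 1
          ring
  · have hemp : Prod.mk x ⁻¹' TT = (∅ : Set (V × V)) := by
      rw [Set.eq_empty_iff_forall_notMem]
      rintro ⟨y, z⟩ hz
      exact hne ⟨y, z, hz⟩
    rw [hemp]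
    simp

lemma finTT : volume TT < ⊤ := by
  rw [show (volume : Measure (V × (V × V))) = (volume : Measure V).prod volume from rfl,
    Measure.prod_apply measTT]
  refine lt_of_le_of_lt (lintegral_mono yzset) ?_
  rw [lintegral_indicator Metric.isOpen_ball.measurableSet]
  have hi : IntegrableOn (fun x : V => 64 * ‖x‖ ^ (-(3 / 2) : ℝ)) (Metric.ball 0 2) volume := by
    refine integrableOn_ball_of_norm_le_rpow (C := 64) (α := 3 / 2) ?_ ?_ ?_ ?_
    · simp
    · simp
    · refine Filter.Eventually.of_forall fun x => ?_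
      rw [Real.norm_eq_abs, abs_of_nonneg (by positivity)]
    · apply Measurable.aestronglyMeasurable
      fun_prop
  exact hi.lintegral_lt_top

/-- the splitting of the rows -/
noncomputable def ev : (Fin 3 → V) ≃ᵐ V × (V × V) :=
  (MeasurableEquiv.piFinSuccAbove (fun _ => V) 0).trans
    ((MeasurableEquiv.refl V).prodCongr MeasurableEquiv.finTwoArrow)

lemma ev_mp : MeasurePreserving ev (volume : Measure (Fin 3 → V)) (volume : Measure (V × (V × V))) := by
  have h1 := volume_preserving_piFinSuccAbove (fun _ : Fin 3 => V) 0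
  have h2 : MeasurePreserving ((MeasurableEquiv.refl V).prodCongr MeasurableEquiv.finTwoArrow)
      (volume : Measure (V × (Fin 2 → V))) (volume : Measure (V × (V × V))) :=
    (MeasurePreserving.id volume).prod (volume_preserving_finTwoArrow V)
  exact h2.comp h1

lemma ev_apply (N : Fin 3 → V) : ev N = (N 0, (N 1, N 2)) := rfl

end VOL_

theorem p_VOL (hTR : T_TR) : T_VOL := by
  unfold T_VOL
  let WW : Set M3 := {N : M3 | VOL_.SS (N 0) (N 1) (N 2)}
  have hm : MeasurableSet WW := VOL_.ev.measurable VOL_.measTT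
  have e2 : Sg ∩ Co = (fun M : M3 => M.transpose) ⁻¹' WW := by
    ext M
    exact (VOL_.mem_iff M.transpose)
  have e3 : volume WW = volume VOL_.TT :=
    VOL_.ev_mp.measure_preimage VOL_.measTT.nullMeasurableSet
  rw [e2, hTR.measure_preimage hm.nullMeasurableSet, e3]
  exact VOL_.finTT

end SAIL
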