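import Pool.Agent.SAIL.ERG.P_LMUL
import Pool.Agent.SAIL.ERG.P_RMUL
import Pool.Agent.SAIL.ERG.P_TR
import Pool.Agent.SAIL.ERG.P_NBHD
import Pool.Agent.SAIL.ERG.P_FD
import Pool.Agent.SAIL.ERG.P_UNF
import Pool.Agent.SAIL.ERG.P_LINV
import Pool.Agent.SAIL.ERG.P_SIE
import Pool.Agent.SAIL.ERG.P_VOL
import Pool.Agent.SAIL.ERG.P_FV
import Pool.Agent.SAIL.ERG.P_MAH
import Pool.Agent.SAIL.ERG.P_MAHDx
import Pool.Agent.SAIL.ERG.P_FIN
import Pool.Agent.SAIL.ERG.P_CUT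
import Pool.Agent.SAIL.ERG.P_CSF
import Pool.Agent.SAIL.ERG.P_PS
import Pool.Agent.SAIL.ERG.P_INT
import Pool.Agent.SAIL.ERG.P_MET
import Pool.Agent.SAIL.ERG.P_CON
import Pool.Agent.SAIL.ERG.P_TRV
import Pool.Agent.SAIL.ERG.P_GEN
import Pool.Agent.SAIL.ERG.P_FUB
import Pool.Agent.SAIL.ERG.P_ERG
import Pool.Agent.SAIL.ERG.P_CORx

/-!
# SAIL, part G: everything unconditionally
-/

namespace SAIL

namespace ERGA

theorem TR : T_TR := p_TR
theorem LMUL : T_LMUL := p_LMUL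
theorem RMUL : T_RMUL := p_RMUL
theorem NBHD : T_NBHD := p_NBHD
theorem FDE : T_FD := p_FD NBHD
theorem UNF : T_UNF := p_UNF RMUL
theorem LINV : T_LINV := p_LINV UNF LMUL
theorem SIE : T_SIE := p_SIE
theorem VOL : T_VOL := p_VOL TR
theorem FV : T_FV := p_FV UNF SIE VOL
theorem MAH : T_MAH := p_MAH SIE
theorem MAHD : T_MAHD := p_MAHDx MAH
theorem FIN : T_FIN := p_FIN
theorem CUT : T_CUT := p_CUT
theorem CSFu : T_CSF := p_CSF
theorem PSl : T_PS := p_PS FIN CSFu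
theorem INT : T_INT := p_INT UNF FIN CSFu
theorem MET : T_MET := p_MET
theorem CON : T_CON := p_CON
theorem TRV : T_TRV := p_TRV
theorem GEN : T_GEN := p_GEN
theorem FUB : T_FUB := p_FUB RMUL
theorem MES : T_MES := p_MES MET LINV FV RMUL
theorem ERG : T_ERG := p_ERG MES CON TRV GEN FUB LMUL LINV FV
theorem COR : T_COR := p_CORx ERG INT PSl FV
theorem MN : T_MN := p_MNx INT

end ERGA

end SAIL
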