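import Mathlib

/-!
# SAIL, part G (ergodic side): the cone model of the space of lattices

`M3` is the space of real 3 x 3 matrices with Lebesgue measure, `GZ = SL(3,Z)` acts on the right,
`Om` is the set of positive determinant, `Co` the cone `0 < det <= 1`.
-/

open MeasureTheory Set Filter Topology

namespace SAIL

/-- real 3 x 3 matrices -/
abbrev M3 := Matrix (Fin 3) (Fin 3) ℝ
/-- `SL(3,Z)` -/
abbrev GZ := Matrix.SpecialLinearGroup (Fin 3) ℤ

/-- sup norm of the entries -/
noncomputable instance instNAG : NormedAddCommGroup M3 := Matrix.normedAddCommGroup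
noncomputable instance instNS : NormedSpace ℝ M3 := Matrix.normedSpace
noncomputable instance instMS : MeasurableSpace M3 :=
  inferInstanceAs (MeasurableSpace (Fin 3 → Fin 3 → ℝ))
instance instBS : BorelSpace M3 := inferInstanceAs (BorelSpace (Fin 3 → Fin 3 → ℝ))
/-- Lebesgue measure on the nine entries -/
noncomputable instance instMeS : MeasureSpace M3 :=
  inferInstanceAs (MeasureSpace (Fin 3 → Fin 3 → ℝ))
instance instHaar : Measure.IsAddHaarMeasure (volume : Measure M3) := by
  have h : Measure.IsAddHaarMeasure (volume : Measure (Fin 3 → Fin 3 → ℝ)) := by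
    have := MeasureTheory.Measure.pi.isAddHaarMeasure
      (fun _ : Fin 3 => (volume : Measure (Fin 3 → ℝ)))
    exact this
  exact h
instance instFinDim : FiniteDimensional ℝ M3 := inferInstance
instance instSF : SigmaFinite (volume : Measure M3) :=
  inferInstanceAs (SigmaFinite (volume : Measure (Fin 3 → Fin 3 → ℝ)))
instance instSCT : SecondCountableTopology M3 :=
  inferInstanceAs (SecondCountableTopology (Fin 3 → Fin 3 → ℝ))
instance instCountM : Countable (Matrix (Fin 3) (Fin 3) ℤ) :=
  inferInstanceAs (Countable (Fin 3 → Fin 3 → ℤ))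
instance instCountG : Countable GZ :=
  inferInstanceAs (Countable {A : Matrix (Fin 3) (Fin 3) ℤ // A.det = 1})

/-- the topology of the norm (definitionally equal to the topology of matrices, but not found by
unification, so the facts are repeated for it) -/
noncomputable abbrev topN : TopologicalSpace M3 :=
  instNAG.toPseudoMetricSpace.toUniformSpace.toTopologicalSpace
instance instBS2 : @BorelSpace M3 topN instMS := instBS
instance instSCT2 : @SecondCountableTopology M3 topN := instSCT
instance instHaar2 : @Measure.IsAddHaarMeasure M3 instNAG.toAddCommGroup.toAddGroup topN instMS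
    volume := instHaar
instance instFMC : IsFiniteMeasureOnCompacts (volume : Measure M3) := inferInstance
instance instFMC2 : @IsFiniteMeasureOnCompacts M3 instMS topN volume := instFMC
instance instOP : Measure.IsOpenPosMeasure (volume : Measure M3) := inferInstance
instance instOP2 : @Measure.IsOpenPosMeasure M3 topN instMS volume := instOP

/-- the real matrix of an element of `SL(3,Z)` -/
def ic (γ : GZ) : M3 := (γ : Matrix (Fin 3) (Fin 3) ℤ).map (fun z : ℤ => (z : ℝ))

/-- positive determinant -/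
def Om : Set M3 := {M | 0 < M.det}
/-- the cone over `SL(3,R)` -/
def Co : Set M3 := {M | 0 < M.det ∧ M.det ≤ 1}
/-- the closed cone over a compact subset of `SL(3,R)` -/
def KK (R : ℝ) : Set M3 := {M | 0 < M.det ∧ ‖M‖ ^ 3 ≤ R * M.det}

/-- sum over the orbit of `SL(3,Z)` -/
noncomputable def PS (ψ : M3 → ℝ) (M : M3) : ℝ := ∑' γ : GZ, ψ (M * ic γ)

/-- continuous functions on `SL(3,R)` with compact support, as scale invariant functions -/
structure CSF (R : ℝ) (ψ : M3 → ℝ) : Prop where
  cont : ContinuousOn ψ Om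
  scale : ∀ t : ℝ, 0 < t → ∀ M, ψ (t • M) = ψ M
  supp : ∀ M, ψ M ≠ 0 → M ∈ KK R

/-- bounded continuous functions on the space of lattices, uniformly continuous on the left -/
structure LF (F : M3 → ℝ) : Prop where
  gam : ∀ (γ : GZ) (M : M3), F (M * ic γ) = F M
  scale : ∀ t : ℝ, 0 < t → ∀ M, F (t • M) = F M
  cont : ContinuousOn F Om
  bdd : ∃ B : ℝ, ∀ M, |F M| ≤ B
  unif : ∀ ε : ℝ, 0 < ε → ∃ δ : ℝ, 0 < δ ∧ ∀ u : M3, ‖u - 1‖ < δ →
    ∀ M ∈ Om, |F (u * M) - F M| ≤ ε

/-- exact fundamental domain of the right action of `SL(3,Z)` on the cone -/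
structure FD (s : Set M3) : Prop where
  meas : MeasurableSet s
  sub : s ⊆ Co
  ex : ∀ M ∈ Co, ∃ γ : GZ, M * ic γ ∈ s
  uni : ∀ M ∈ s, ∀ γ : GZ, M * ic γ ∈ s → γ = 1

/-- average of `F` along the first `n` points of the orbit of `M` under left multiplication -/
noncomputable def BA (g : M3) (F : M3 → ℝ) (n : ℕ) (M : M3) : ℝ :=
  (∑ k ∈ Finset.range n, F (g ^ k * M)) / n

/-- the regular diagonal element -/
noncomputable def aa : M3 := Matrix.diagonal ![2, 1, 1 / 2]
/-- its inverse -/
noncomputable def ai : M3 := Matrix.diagonal ![1 / 2, 1, 2]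

/-- mean of `F` over the space of lattices -/
noncomputable def mn (s : Set M3) (F : M3 → ℝ) : ℝ := (∫ M in s, F M) / (volume s).toReal

/-! ### elementary facts -/

lemma ic_one : ic 1 = 1 := by
  unfold ic
  ext i j
  by_cases h : i = j
  · subst h; simp
  · simp [Matrix.one_apply_ne h]

lemma ic_mul (γ δ : GZ) : ic (γ * δ) = ic γ * ic δ := by
  unfold ic
  ext i j
  simp [Matrix.mul_apply]

lemma ic_mul_inv (γ : GZ) : ic γ * ic γ⁻¹ = 1 := by rw [← ic_mul, mul_inv_cancel, ic_one]

lemma ic_inv_mul (γ : GZ) : ic γ⁻¹ * ic γ = 1 := by rw [← ic_mul, inv_mul_cancel, ic_one]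

lemma det_ic (γ : GZ) : (ic γ).det = 1 := by
  have h : (ic γ) = (Int.castRingHom ℝ).mapMatrix (γ : Matrix (Fin 3) (Fin 3) ℤ) := by
    ext i j; rfl
  rw [h, ← RingHom.map_det, γ.2]
  simp

lemma det_mul_ic (M : M3) (γ : GZ) : (M * ic γ).det = M.det := by
  rw [Matrix.det_mul, det_ic, mul_one]

lemma mul_ic_mem_Om {M : M3} (γ : GZ) : M * ic γ ∈ Om ↔ M ∈ Om := by
  simp only [Om, mem_ofPred_eq, det_mul_ic]

lemma mul_ic_mem_Co {M : M3} (γ : GZ) : M * ic γ ∈ Co ↔ M ∈ Co := by
  simp only [Co, mem_ofPred_eq, det_mul_ic]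

lemma Co_subset_Om : Co ⊆ Om := fun _ h => h.1

lemma continuous_det : Continuous (fun M : M3 => M.det) := Continuous.matrix_det continuous_id

lemma isOpen_Om : IsOpen Om := isOpen_lt continuous_const continuous_det

lemma measurableSet_Om : MeasurableSet Om := isOpen_Om.measurableSet

lemma measurableSet_Co : MeasurableSet Co :=
  measurableSet_Om.inter (isClosed_le continuous_det continuous_const).measurableSet

lemma KK_subset_Om (R : ℝ) : KK R ⊆ Om := fun _ h => h.1

lemma continuous_lmul (g : M3) : Continuous (fun M : M3 => g * M) := by fun_prop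

lemma continuous_rmul (g : M3) : Continuous (fun M : M3 => M * g) := by fun_prop

lemma measurable_lmul (g : M3) : Measurable (fun M : M3 => g * M) := (continuous_lmul g).measurable

lemma measurable_rmul (g : M3) : Measurable (fun M : M3 => M * g) := (continuous_rmul g).measurable

lemma det_smul3 (t : ℝ) (M : M3) : (t • M).det = t ^ 3 * M.det := by
  rw [Matrix.det_smul]; simp

lemma smul_mem_Om {t : ℝ} (ht : 0 < t) (M : M3) : t • M ∈ Om ↔ M ∈ Om := by
  simp only [Om, mem_ofPred_eq, det_smul3]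
  exact mul_pos_iff_of_pos_left (pow_pos ht 3)

lemma entry_le_norm (M : M3) (i j : Fin 3) : |M i j| ≤ ‖M‖ := by
  have := Matrix.norm_entry_le_entrywise_sup_norm M (i := i) (j := j)
  simpa using this

lemma norm_le_iff3 {r : ℝ} (hr : 0 ≤ r) {M : M3} : ‖M‖ ≤ r ↔ ∀ i j, |M i j| ≤ r := by
  rw [Matrix.norm_le_iff hr]
  simp

lemma norm_mul3 (A B : M3) : ‖A * B‖ ≤ 3 * ‖A‖ * ‖B‖ := by
  rw [norm_le_iff3 (by positivity)]
  intro i j
  rw [Matrix.mul_apply]
  calc |∑ k, A i k * B k j| ≤ ∑ k, |A i k * B k j| := Finset.abs_sum_le_sum_abs _ _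
    _ ≤ ∑ _k : Fin 3, ‖A‖ * ‖B‖ := by
        refine Finset.sum_le_sum fun k _ => ?_
        rw [abs_mul]
        exact mul_le_mul (entry_le_norm A i k) (entry_le_norm B k j) (abs_nonneg _) (norm_nonneg _)
    _ = 3 * ‖A‖ * ‖B‖ := by simp; ring

lemma det_aa : aa.det = 1 := by
  unfold aa; rw [Matrix.det_diagonal]; simp [Fin.prod_univ_three]

lemma det_ai : ai.det = 1 := by
  unfold ai; rw [Matrix.det_diagonal]; simp [Fin.prod_univ_three]

lemma aa_mul_ai : aa * ai = 1 := by
  unfold aa ai
  rw [Matrix.diagonal_mul_diagonal, ← Matrix.diagonal_one]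
  congr 1
  ext i; fin_cases i <;> simp

lemma ai_mul_aa : ai * aa = 1 := by
  unfold aa ai
  rw [Matrix.diagonal_mul_diagonal, ← Matrix.diagonal_one]
  congr 1
  ext i; fin_cases i <;> simp

lemma mul_mem_Om {g M : M3} (hg : 0 < g.det) (hM : M ∈ Om) : g * M ∈ Om := by
  simp only [Om, mem_ofPred_eq, Matrix.det_mul] at *
  exact mul_pos hg hM

/-- reindexing: the orbit sum is invariant -/
lemma PS_gam (ψ : M3 → ℝ) (γ : GZ) (M : M3) : PS ψ (M * ic γ) = PS ψ M := by
  unfold PS
  rw [← (Equiv.mulLeft γ).tsum_eq (fun δ : GZ => ψ (M * ic δ))]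
  refine tsum_congr fun δ => ?_
  simp only [Equiv.coe_mulLeft, ic_mul, Matrix.mul_assoc]

end SAIL
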