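import Pool.Agent.SAIL.ERG.Targets

/-!
# SAIL, part G: cutoff functions (target T_CUT)
-/

set_option autoImplicit false

open MeasureTheory Set Filter Topology

namespace SAIL

/-- the cutoff function -/
noncomputable def cutEta (r : ℝ) (M : M3) : ℝ :=
  if 0 < M.det then max 0 (min 1 (2 - ‖M‖ ^ 3 / (r * M.det))) else 0

theorem p_CUT : T_CUT := by
  intro R
  set r : ℝ := max R 1 with hr
  have hr1 : 1 ≤ r := le_max_right _ _
  have hr0 : 0 < r := by linarith
  have hRr : R ≤ r := le_max_left _ _
  refine ⟨2 * r, cutEta r, ⟨?_, ?_, ?_⟩, ?_, ?_, ?_⟩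
  · -- continuity
    have h1 : ContinuousOn (fun M : M3 => max 0 (min 1 (2 - ‖M‖ ^ 3 / (r * M.det)))) Om := by
      have hd : ContinuousOn (fun M : M3 => ‖M‖ ^ 3 / (r * M.det)) Om := ?_
      · exact ContinuousOn.sup continuousOn_const
          (ContinuousOn.inf continuousOn_const (continuousOn_const.sub hd))
      refine ContinuousOn.div ?_ ?_ ?_
      · exact (continuous_norm.pow 3).continuousOn
      · exact (continuous_const.mul continuous_det).continuousOn
      · intro M hM
        have hM' : 0 < M.det := hM
        positivity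
    refine h1.congr fun M hM => ?_
    have hM' : 0 < M.det := hM
    simp only [cutEta, if_pos hM']
  · -- scaling
    intro t ht M
    have h3 : (0 < (t • M).det) ↔ 0 < M.det := by
      rw [det_smul3]
      exact mul_pos_iff_of_pos_left (pow_pos ht 3)
    by_cases hM : 0 < M.det
    · simp only [cutEta, if_pos hM, if_pos (h3.2 hM)]
      rw [norm_smul, det_smul3, Real.norm_of_nonneg ht.le]
      have e : (t * ‖M‖) ^ 3 / (r * (t ^ 3 * M.det)) = ‖M‖ ^ 3 / (r * M.det) := by
        field_simp
      rw [e]
    · simp only [cutEta, if_neg hM, if_neg (fun h => hM (h3.1 h))]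
  · -- support
    intro M hM
    by_cases hd : 0 < M.det
    · refine ⟨hd, ?_⟩
      by_contra hlt
      push Not at hlt
      apply hM
      simp only [cutEta, if_pos hd]
      have hq : 2 ≤ ‖M‖ ^ 3 / (r * M.det) := by
        rw [le_div_iff₀ (by positivity)]
        nlinarith
      have : min 1 (2 - ‖M‖ ^ 3 / (r * M.det)) ≤ 0 := (min_le_right _ _).trans (by linarith)
      exact max_eq_left this
    · exact absurd (by simp only [cutEta, if_neg hd]) hM
  · intro M
    unfold cutEta
    split_ifs
    · exact le_max_left _ _
    · exact le_rfl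
  · intro M
    unfold cutEta
    split_ifs
    · exact max_le zero_le_one (min_le_left _ _)
    · exact zero_le_one
  · intro M hM
    have hd : 0 < M.det := hM.1
    have h2 : ‖M‖ ^ 3 ≤ R * M.det := hM.2
    have hq : ‖M‖ ^ 3 / (r * M.det) ≤ 1 := by
      rw [div_le_one (by positivity)]
      exact h2.trans (mul_le_mul_of_nonneg_right hRr hd.le)
    simp only [cutEta, if_pos hd]
    rw [min_eq_left (by linarith), max_eq_right zero_le_one]

end SAIL
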