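import Pool.Agent.SAIL.ERG.Targets

/-!
# SAIL, part G: left multiplication scales the volume by the cube of the determinant (helper76)
-/

open MeasureTheory Set Filter Topology

namespace SAIL

namespace LMUL_

/-- left multiplication on matrices, transported to functions by transposition -/
noncomputable def tau : (Fin 3 → Fin 3 → ℝ) ≃ₗ[ℝ] M3 :=
  { toFun := fun N => Matrix.of fun i j => N j i
    invFun := fun M => fun j i => M i j
    map_add' := fun _ _ => rfl
    map_smul' := fun _ _ => rfl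
    left_inv := fun _ => rfl
    right_inv := fun _ => rfl }

theorem tau_conj (g : M3) :
    (tau : (Fin 3 → Fin 3 → ℝ) →ₗ[ℝ] M3) ∘ₗ
      (LinearMap.pi fun i : Fin 3 => (Matrix.toLin' g).comp (LinearMap.proj i)) ∘ₗ
      (tau.symm : M3 →ₗ[ℝ] (Fin 3 → Fin 3 → ℝ)) = LinearMap.mulLeft ℝ g := by
  ext M i j
  rfl

theorem det_mulLeft (g : M3) : LinearMap.det (LinearMap.mulLeft ℝ g : M3 →ₗ[ℝ] M3) = g.det ^ 3 := by
  rw [← tau_conj, LinearMap.det_conj, LinearMap.det_pi]
  simp [LinearMap.det_toLin']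

end LMUL_

/-- the target `T_LMUL` -/
theorem p_LMUL : T_LMUL := by
  intro g hg E
  have hd : LinearMap.det (LinearMap.mulLeft ℝ g : M3 →ₗ[ℝ] M3) ≠ 0 := by
    rw [LMUL_.det_mulLeft]
    exact pow_ne_zero 3 hg
  have h := @Measure.addHaar_preimage_linearMap M3 instNAG instNS instMS instBS instFinDim
    (volume : Measure M3) instHaar _ hd E
  rw [LMUL_.det_mulLeft] at h
  have e : |(g.det ^ 3)⁻¹| = |g.det|⁻¹ ^ 3 := by
    rw [abs_inv, abs_pow, inv_pow]
  rw [e] at h
  exact h

end SAIL
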