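import Pool.Agent.SAIL.ERG.Targets

/-!
# SAIL, part G: the mean ergodic theorem on the space of lattices
-/

open MeasureTheory Set Filter Topology

namespace SAIL

/-! ### the space of lattices as a measurable space -/

/-- type synonym of `M3`, with the sigma algebra of `SL(3,Z)`-invariant Borel sets -/
def XL : Type := M3

instance instXL : MeasurableSpace XL where
  MeasurableSet' E := @MeasurableSet M3 instMS E ∧ ∀ (γ : GZ) (M : M3), M * ic γ ∈ (show Set M3 from E) ↔ M ∈ (show Set M3 from E)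
  measurableSet_empty := ⟨MeasurableSet.empty, fun _ _ => Iff.rfl⟩
  measurableSet_compl := fun E hE => ⟨hE.1.compl, fun γ M => not_congr (hE.2 γ M)⟩
  measurableSet_iUnion := fun f hf => by
    refine ⟨MeasurableSet.iUnion fun i => (hf i).1, fun γ M => ?_⟩
    constructor
    · intro h
      obtain ⟨i, hi⟩ := mem_iUnion.mp h
      exact mem_iUnion.mpr ⟨i, ((hf i).2 γ M).mp hi⟩
    · intro h
      obtain ⟨i, hi⟩ := mem_iUnion.mp h
      exact mem_iUnion.mpr ⟨i, ((hf i).2 γ M).mpr hi⟩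

/-- the identity map -/
def toXL : M3 → XL := fun M => M

lemma measurable_toXL : Measurable toXL := fun _ hE => hE.1

/-- left multiplication on the space of lattices -/
def lX (g : M3) : XL → XL := fun M => (g * (show M3 from M) : M3)

lemma measurable_lX (g : M3) : Measurable (lX g) := by
  intro E hE
  refine ⟨(measurable_lmul g) hE.1, fun γ M => ?_⟩
  show g * (M * ic γ) ∈ E ↔ g * M ∈ E
  rw [← Matrix.mul_assoc]
  exact hE.2 γ (g * M)

/-- a function on the space of lattices -/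
def fX (F : M3 → ℝ) : XL → ℝ := fun M => F (show M3 from M)

/-- the measure of the space of lattices -/
noncomputable def nuX (s : Set M3) : Measure XL := Measure.map toXL (volume.restrict s)

lemma nuX_apply (s : Set M3) {E : Set XL} (hE : MeasurableSet E) :
    nuX s E = volume ((show Set M3 from E) ∩ s) := by
  unfold nuX
  rw [Measure.map_apply measurable_toXL hE]
  exact Measure.restrict_apply hE.1

lemma mp_lX (hLINV : T_LINV) {s : Set M3} (hs : FD s) {g : M3} (hg : g.det = 1) :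
    MeasurePreserving (lX g) (nuX s) (nuX s) := by
  refine ⟨measurable_lX g, ?_⟩
  refine Measure.ext fun E hE => ?_
  rw [Measure.map_apply (measurable_lX g) hE, nuX_apply s (measurable_lX g hE), nuX_apply s hE]
  have := hLINV s hs g hg (show Set M3 from E) hE.1 hE.2
  rw [inter_comm, inter_comm (show Set M3 from E)]
  exact this

/-! ### averages -/

lemma iterate_lmul (g : M3) (k : ℕ) (M : M3) : (fun N : M3 => g * N)^[k] M = g ^ k * M := by
  induction k with
  | zero => simp
  | succ k ih => rw [Function.iterate_succ_apply', ih, pow_succ', Matrix.mul_assoc]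

lemma birk_eq (g : M3) (F : M3 → ℝ) (n : ℕ) (M : M3) :
    birkhoffAverage ℝ (fun N : M3 => g * N) F n M = BA g F n M := by
  unfold birkhoffAverage birkhoffSum BA
  simp only [iterate_lmul, smul_eq_mul]
  rw [div_eq_inv_mul]

lemma birk_eqX (g : M3) (F : M3 → ℝ) (n : ℕ) (M : M3) :
    birkhoffAverage ℝ (lX g) (fX F) n (toXL M) = BA g F n M := birk_eq g F n M

lemma pow_det_pos {g : M3} (hg : 0 < g.det) (k : ℕ) : 0 < (g ^ k).det := by
  rw [Matrix.det_pow]; exact pow_pos hg k

/-- on `Om` only the values on `Om` matter -/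
lemma BA_indicator {g : M3} (hg : 0 < g.det) (F : M3 → ℝ) (n : ℕ) {M : M3} (hM : M ∈ Om) :
    BA g (Om.indicator F) n M = BA g F n M := by
  unfold BA
  congr 1
  refine Finset.sum_congr rfl fun k _ => ?_
  exact indicator_of_mem (mul_mem_Om (pow_det_pos hg k) hM) F

lemma BA_gam {F : M3 → ℝ} (hF : ∀ (γ : GZ) (M : M3), F (M * ic γ) = F M) (g : M3) (n : ℕ)
    (γ : GZ) (M : M3) : BA g F n (M * ic γ) = BA g F n M := by
  unfold BA
  congr 1
  refine Finset.sum_congr rfl fun k _ => ?_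
  rw [← Matrix.mul_assoc, hF]

lemma BA_scale {F : M3 → ℝ} (hF : ∀ t : ℝ, 0 < t → ∀ M, F (t • M) = F M) (g : M3) (n : ℕ)
    {t : ℝ} (ht : 0 < t) (M : M3) : BA g F n (t • M) = BA g F n M := by
  unfold BA
  congr 1
  refine Finset.sum_congr rfl fun k _ => ?_
  rw [Matrix.mul_smul, hF t ht]

lemma LF.measurable_indicator {F : M3 → ℝ} (hF : LF F) : Measurable (Om.indicator F) := by
  classical
  have h := ContinuousOn.measurable_piecewise (f := F) (g := fun _ => (0 : ℝ)) (s := Om) hF.cont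
    continuousOn_const measurableSet_Om
  have e : Om.piecewise F (fun _ => (0 : ℝ)) = Om.indicator F := by
    ext M
    by_cases hM : M ∈ Om
    · rw [piecewise_eq_of_mem _ _ _ hM, indicator_of_mem hM]
    · rw [piecewise_eq_of_notMem _ _ _ hM, indicator_of_notMem hM]
  rwa [e] at h

lemma indicator_gam {F : M3 → ℝ} (hF : ∀ (γ : GZ) (M : M3), F (M * ic γ) = F M) (γ : GZ) (M : M3) :
    Om.indicator F (M * ic γ) = Om.indicator F M := by
  by_cases hM : M ∈ Om
  · rw [indicator_of_mem hM, indicator_of_mem ((mul_ic_mem_Om γ).mpr hM), hF]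
  · rw [indicator_of_notMem hM, indicator_of_notMem (fun h => hM ((mul_ic_mem_Om γ).mp h))]

lemma indicator_scale {F : M3 → ℝ} (hF : ∀ t : ℝ, 0 < t → ∀ M, F (t • M) = F M) (t : ℝ)
    (ht : 0 < t) (M : M3) : Om.indicator F (t • M) = Om.indicator F M := by
  by_cases hM : M ∈ Om
  · rw [indicator_of_mem hM, indicator_of_mem ((smul_mem_Om ht M).mpr hM), hF t ht]
  · rw [indicator_of_notMem hM, indicator_of_notMem (fun h => hM ((smul_mem_Om ht M).mp h))]

/-! ### spreading null sets -/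

lemma null_spread (hRMUL : T_RMUL) {s : Set M3} (hs : FD s) {p : M3 → Prop}
    (hp : ∀ (γ : GZ) (M : M3), p (M * ic γ) ↔ p M)
    (hp2 : ∀ t : ℝ, 0 < t → ∀ M, p (t • M) ↔ p M)
    (h : ∀ᵐ M ∂(volume.restrict s), p M) : ∀ᵐ M ∂(volume.restrict Om), p M := by
  rw [ae_restrict_iff' hs.meas] at h
  rw [ae_restrict_iff' measurableSet_Om]
  have h0 : volume {M : M3 | M ∈ s ∧ ¬ p M} = 0 := by
    rw [ae_iff] at h
    convert h using 2
    ext M; simp
  have h1 : ∀ γ : GZ, volume ((fun M : M3 => M * ic γ) ⁻¹' {M : M3 | M ∈ s ∧ ¬ p M}) = 0 := by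
    intro γ
    rw [hRMUL (ic γ) (by rw [det_ic]; norm_num), h0, mul_zero]
  have h2 : volume {M : M3 | M ∈ Co ∧ ¬ p M} = 0 := by
    refine measure_mono_null ?_ (measure_iUnion_null h1)
    intro M hM
    obtain ⟨γ, hγ⟩ := hs.ex M hM.1
    refine mem_iUnion.mpr ⟨γ, ?_⟩
    exact ⟨hγ, fun h => hM.2 ((hp γ M).mp h)⟩
  have h3 : ∀ n : ℕ, volume ((fun M : M3 => ((2 : ℝ)⁻¹ ^ n) • M) ⁻¹' {M : M3 | M ∈ Co ∧ ¬ p M})
      = 0 := by
    intro n
    have hne : ((2 : ℝ)⁻¹ ^ n) ≠ 0 := by positivity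
    have := Measure.addHaar_preimage_smul (volume : Measure M3) hne {M : M3 | M ∈ Co ∧ ¬ p M}
    rw [this, h2, mul_zero]
  rw [ae_iff]
  refine measure_mono_null ?_ (measure_iUnion_null h3)
  intro M hM
  have hM' : M ∈ Om ∧ ¬ p M := by
    simpa using hM
  have hdet : 0 < M.det := hM'.1
  obtain ⟨n, hn⟩ := exists_pow_lt_of_lt_one (show (0 : ℝ) < 1 / (M.det + 1) by positivity)
    (show (2 : ℝ)⁻¹ < 1 by norm_num)
  refine mem_iUnion.mpr ⟨n, ?_⟩
  have hpos : (0 : ℝ) < (2 : ℝ)⁻¹ ^ n := by positivity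
  refine ⟨⟨?_, ?_⟩, fun h => hM'.2 ((hp2 _ hpos M).mp h)⟩
  · rw [det_smul3]; positivity
  · rw [det_smul3]
    have hle : (2 : ℝ)⁻¹ ^ n ≤ 1 := pow_le_one₀ (by norm_num) (by norm_num)
    have h3' : ((2 : ℝ)⁻¹ ^ n) ^ 3 ≤ (2 : ℝ)⁻¹ ^ n := by
      calc ((2 : ℝ)⁻¹ ^ n) ^ 3 = (2 : ℝ)⁻¹ ^ n * ((2 : ℝ)⁻¹ ^ n) ^ 2 := by ring
        _ ≤ (2 : ℝ)⁻¹ ^ n * 1 := by
            refine mul_le_mul_of_nonneg_left ?_ hpos.le
            exact pow_le_one₀ hpos.le hle
        _ = _ := mul_one _
    calc ((2 : ℝ)⁻¹ ^ n) ^ 3 * M.det ≤ (2 : ℝ)⁻¹ ^ n * M.det :=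
          mul_le_mul_of_nonneg_right h3' hdet.le
      _ ≤ 1 / (M.det + 1) * M.det := mul_le_mul_of_nonneg_right hn.le hdet.le
      _ ≤ 1 := by
          rw [div_mul_eq_mul_div, one_mul, div_le_one (by positivity)]
          linarith

/-- **mean ergodic theorem on the space of lattices**. -/
theorem p_MES (hMET : T_MET) (hLINV : T_LINV) (hFV : T_FV) (hRMUL : T_RMUL) : T_MES := by
  intro s hs F hF
  set F0 : M3 → ℝ := Om.indicator F with hF0
  have hF0m : Measurable F0 := hF.measurable_indicator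
  have hF0g : ∀ (γ : GZ) (M : M3), F0 (M * ic γ) = F0 M := indicator_gam hF.gam
  have hF0s : ∀ t : ℝ, 0 < t → ∀ M, F0 (t • M) = F0 M := fun t ht M =>
    indicator_scale hF.scale t ht M
  have hF0X : Measurable (fX F0) := by
    intro E hE
    refine ⟨hF0m hE, fun γ M => ?_⟩
    show F0 (M * ic γ) ∈ E ↔ F0 M ∈ E
    rw [hF0g]
  obtain ⟨B, hB⟩ := hF.bdd
  have hF0b' : ∀ M : M3, |F0 M| ≤ B := by
    intro M
    by_cases hM : M ∈ Om
    · rw [hF0, indicator_of_mem hM]; exact hB M
    · rw [hF0, indicator_of_notMem hM, abs_zero]; exact (abs_nonneg _).trans (hB (1 : M3))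
  have hF0b : ∃ B : ℝ, ∀ x : XL, |fX F0 x| ≤ B := ⟨B, fun M => hF0b' M⟩
  have hfin : IsFiniteMeasure (nuX s) := by
    refine ⟨?_⟩
    rw [nuX_apply s MeasurableSet.univ]
    refine lt_of_le_of_lt (measure_mono inter_subset_right) (hFV s hs).1
  have h1X : ∀ M : M3, aa * (ai * M) = M := fun M => by
    rw [← Matrix.mul_assoc, aa_mul_ai, Matrix.one_mul]
  have h2X : ∀ M : M3, ai * (aa * M) = M := fun M => by
    rw [← Matrix.mul_assoc, ai_mul_aa, Matrix.one_mul]
  obtain ⟨Q0, hQi, hL1, φ, hφ, hc1, hc2⟩ := hMET XL (nuX s) (lX aa) (lX ai)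
    (mp_lX hLINV hs det_aa) (mp_lX hLINV hs det_ai)
    (fun x => h1X x) (fun x => h2X x) (fX F0) hF0X hF0b
  have hc1' : ∀ᵐ M ∂(volume.restrict s), Tendsto (fun k => BA aa F0 (φ k) M) atTop
      (𝓝 (Q0 (toXL M))) := by
    have h := ae_of_ae_map measurable_toXL.aemeasurable hc1
    simpa only [birk_eqX] using h
  have hc2' : ∀ᵐ M ∂(volume.restrict s), Tendsto (fun k => BA ai F0 (φ k) M) atTop
      (𝓝 (Q0 (toXL M))) := by
    have h := ae_of_ae_map measurable_toXL.aemeasurable hc2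
    simpa only [birk_eqX] using h
  set Q : M3 → ℝ := fun M => limsup (fun k => BA aa F0 (φ k) M) atTop with hQ
  have hQQ : ∀ᵐ M ∂(volume.restrict s), Q M = Q0 (toXL M) := by
    filter_upwards [hc1'] with M hM
    exact hM.limsup_eq
  have hQg : ∀ (γ : GZ) (M : M3), Q (M * ic γ) = Q M := by
    intro γ M
    simp only [hQ, BA_gam hF0g]
  have hQs : ∀ t : ℝ, 0 < t → ∀ M, Q (t • M) = Q M := by
    intro t ht M
    simp only [hQ, BA_scale hF0s _ _ ht]
  have hQ0i : Integrable (fun M => Q0 (toXL M)) (volume.restrict s) :=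
    (integrable_map_measure hQi.aestronglyMeasurable measurable_toXL.aemeasurable).mp hQi
  have hs' : ∀ᵐ M ∂(volume.restrict s), M ∈ Om := by
    filter_upwards [ae_restrict_mem hs.meas] with M hM
    exact Co_subset_Om (hs.sub hM)
  refine ⟨Q, φ, hφ, hQ0i.congr ?_, ?_, ?_, ?_⟩
  · filter_upwards [hQQ] with M hM
    exact hM.symm
  · refine hL1.congr fun n => ?_
    have hmeas : AEStronglyMeasurable
        (fun x : XL => |birkhoffAverage ℝ (lX aa) (fX F0) n x - Q0 x|) (nuX s) := by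
      have h1 : Measurable (fun x : XL => birkhoffAverage ℝ (lX aa) (fX F0) n x) := by
        unfold birkhoffAverage birkhoffSum
        simp only [smul_eq_mul]
        refine Measurable.const_mul ?_ _
        refine Finset.measurable_fun_sum _ fun k _ => ?_
        exact hF0X.comp ((measurable_lX aa).iterate k)
      exact (h1.aestronglyMeasurable.sub hQi.aestronglyMeasurable).norm
    have h2 : ∫ x, |birkhoffAverage ℝ (lX aa) (fX F0) n x - Q0 x| ∂(nuX s)
        = ∫ M in s, |BA aa F0 n M - Q0 (toXL M)| := by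
      unfold nuX at hmeas ⊢
      rw [integral_map measurable_toXL.aemeasurable hmeas]
      simp only [birk_eqX]
    rw [h2]
    refine integral_congr_ae ?_
    filter_upwards [hQQ, hs'] with M hM hM2
    rw [hM, BA_indicator (by rw [det_aa]; norm_num) F n hM2]
  · have h3 : ∀ᵐ M ∂(volume.restrict Om), Tendsto (fun k => BA aa F0 (φ k) M) atTop (𝓝 (Q M)) := by
      refine null_spread hRMUL hs ?_ ?_ ?_
      · intro γ M
        simp only [BA_gam hF0g, hQg]
      · intro t ht M
        simp only [BA_scale hF0s _ _ ht, hQs t ht]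
      · filter_upwards [hc1', hQQ] with M h1 h2
        rw [h2]; exact h1
    filter_upwards [h3, ae_restrict_mem measurableSet_Om] with M h1 h2
    refine h1.congr fun k => ?_
    exact BA_indicator (by rw [det_aa]; norm_num) F _ h2
  · have h3 : ∀ᵐ M ∂(volume.restrict Om), Tendsto (fun k => BA ai F0 (φ k) M) atTop (𝓝 (Q M)) := by
      refine null_spread hRMUL hs ?_ ?_ ?_
      · intro γ M
        simp only [BA_gam hF0g, hQg]
      · intro t ht M
        simp only [BA_scale hF0s _ _ ht, hQs t ht]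
      · filter_upwards [hc2', hQQ] with M h1 h2
        rw [h2]; exact h1
    filter_upwards [h3, ae_restrict_mem measurableSet_Om] with M h1 h2
    refine h1.congr fun k => ?_
    exact BA_indicator (by rw [det_ai]; norm_num) F _ h2

end SAIL
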